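import Mathlib

/-!
Derived length of nM p-groups of maximal class (MP_565547_al): all definitions and all task statements.
-/

namespace H436NM

open scoped commutatorElement

universe u

/-! ### Definitions of the final statement -/

/-- `γ_j(G)`, with `γ_1(G) = G` (and `γ_0(G) = G`). -/
def gam (G : Type u) [Group G] (j : ℕ) : Subgroup G := (⊤ : Subgroup G).lowerCentralSeries (j - 1)

open Classical in
/-- Value at `g` of the class function induced from the linear character `lam` of `N`. -/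
noncomputable def indChar {G : Type u} [Group G] [Fintype G] (N : Subgroup G) (lam : N →* ℂˣ)
    (g : G) : ℂ :=
  (Nat.card N : ℂ)⁻¹ *
    ∑ x : G, if h : x * g * x⁻¹ ∈ N then ((lam ⟨x * g * x⁻¹, h⟩ : ℂˣ) : ℂ) else 0

/-- nM-groups: every irreducible complex character is induced from a linear character of a normal
subgroup. -/
def IsNM (G : Type u) [Group G] [Fintype G] : Prop :=
  ∀ (d : ℕ) (ρ : Representation ℂ G (Fin d → ℂ)), ρ.IsIrreducible →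
    ∃ (N : Subgroup G) (_ : N.Normal) (lam : N →* ℂˣ), ∀ g : G, ρ.character g = indChar N lam g

/-- `S(G) = {γ_i(G)' : 1 ≤ i ≤ n}`. -/
def derSet (G : Type u) [Group G] (n : ℕ) : Set (Subgroup G) :=
  {H | ∃ i, 1 ≤ i ∧ i ≤ n ∧ H = ⁅gam G i, gam G i⁆}

/-- derived length -/
noncomputable def dl (G : Type u) [Group G] : ℕ := sInf {d | derivedSeries G d = ⊥}

/-- Final theorem. -/
def Main : Prop :=
  ∃ a b : ℝ, ∀ (G : Type u) [Group G] [Fintype G] (p n : ℕ), p.Prime → 2 ≤ n →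
    Nat.card G = p ^ n → Group.nilpotencyClass G = n - 1 → IsNM G →
    (dl G : ℝ) ≤ a * Real.log ((derSet G n).ncard : ℝ) + b

/-! ### Auxiliary definitions -/

/-- basic data of a `p`-group of maximal class of order `p^n` -/
structure MC (p n : ℕ) (G : Type u) [Group G] : Prop where
  pr : p.Prime
  fin : Finite G
  two_le : 2 ≤ n
  card : Nat.card G = p ^ n
  card_gam : ∀ j, 2 ≤ j → j ≤ n → Nat.card (gam G j) = p ^ (n - j)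

/-- the commutator form of the nM condition -/
def NMC (n : ℕ) (G : Type u) [Group G] : Prop :=
  ∀ i k, 2 ≤ i → 1 ≤ k → k ≤ n → ¬ ⁅gam G i, gam G i⁆ ≤ gam G k →
    ∀ g ∈ gam G i, g ∉ gam G (i + 1) →
      ∃ x ∈ gam G (i + 1), ⁅g, x⁆ ∈ gam G (k - 1) ∧ ⁅g, x⁆ ∉ gam G k

/-- `g` lies in the two-step centralizer `C_j` -/
def Cen (G : Type u) [Group G] (j : ℕ) (g : G) : Prop := ∀ x ∈ gam G j, ⁅x, g⁆ ∈ gam G (j + 2)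

/-- `s` lies outside of `C_j` for `2 ≤ j ≤ m-2` -/
def Unif (G : Type u) [Group G] (m : ℕ) (s : G) : Prop :=
  ∀ j, 2 ≤ j → j + 2 ≤ m → ∀ x ∈ gam G j, x ∉ gam G (j + 1) → ⁅x, s⁆ ∉ gam G (j + 2)

/-- filtration with one-dimensional factors and leading coefficients, for the levels `< m` -/
structure GD (i0 p m : ℕ) {G : Type u} [Group G] (Γ : ℕ → Subgroup G) (s : G)
    (lc : ℕ → G → ZMod p) : Prop where
  nor : ∀ j, (Γ j).Normal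
  anti : ∀ j, Γ (j + 1) ≤ Γ j
  comm : ∀ i j, 1 ≤ i → 1 ≤ j → ⁅Γ i, Γ j⁆ ≤ Γ (i + j)
  act : ∀ j, i0 ≤ j → j < m → ∀ g : G, ∀ x ∈ Γ j, ⁅x, g⁆ ∈ Γ (j + 1)
  lc_mul : ∀ j, i0 ≤ j → j < m → ∀ x ∈ Γ j, ∀ y ∈ Γ j, lc j (x * y) = lc j x + lc j y
  lc_ker : ∀ j, i0 ≤ j → j < m → ∀ x ∈ Γ j, (lc j x = 0 ↔ x ∈ Γ (j + 1))
  lc_s : ∀ j, i0 ≤ j → j + 1 < m → ∀ x ∈ Γ j, lc (j + 1) ⁅x, s⁆ = lc j x
  lc_surj : ∀ j, i0 ≤ j → j < m → ∃ x ∈ Γ j, lc j x = 1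

/-- `[Γ_j, Γ_l] ≤ Γ_{j+l+q}` for `j, l ≥ i`, up to level `k` -/
def Deg {G : Type u} [Group G] (Γ : ℕ → Subgroup G) (k i q : ℕ) : Prop :=
  ∀ j l, i ≤ j → i ≤ l → j + l + q ≤ k → ⁅Γ j, Γ l⁆ ≤ Γ (j + l + q)

/-- structure constants of degree `q` -/
def Bil {p : ℕ} {G : Type u} [Group G] (Γ : ℕ → Subgroup G) (lc : ℕ → G → ZMod p) (k i q : ℕ)
    (c : ℕ → ℕ → ZMod p) : Prop :=
  ∀ j l, i ≤ j → i ≤ l → j + l + q < k → ∀ x ∈ Γ j, ∀ y ∈ Γ l,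
    lc (j + l + q) ⁅x, y⁆ = c j l * lc j x * lc l y

/-- graded Lie algebra of degree `q` with shift derivation, levels `≤ N` -/
structure Arr (p q i N : ℕ) (c : ℕ → ℕ → ZMod p) : Prop where
  skew : ∀ j l, i ≤ j → i ≤ l → j + l + q ≤ N → c j l = - c l j
  diag : ∀ j, i ≤ j → 2 * j + q ≤ N → c j j = 0
  D : ∀ j l, i ≤ j → i ≤ l → j + l + q + 1 ≤ N → c j l = c (j + 1) l + c j (l + 1)
  jac : ∀ j k l, i ≤ j → i ≤ k → i ≤ l → j + k + l + 2 * q ≤ N →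
    c j k * c (j + k + q) l + c k l * c (k + l + q) j + c l j * c (l + j + q) k = 0

/-! ### Tasks: groups of maximal class -/

/-- basic orders -/
def G1 : Prop := ∀ (G : Type u) [Group G] [Finite G] (p n : ℕ), p.Prime → 2 ≤ n →
  Nat.card G = p ^ n → Group.nilpotencyClass G = n - 1 → MC p n G

/-- commutators of terms of the lower central series (three subgroups lemma) -/
def G2 : Prop := ∀ (G : Type u) [Group G] (i j : ℕ), 1 ≤ i → 1 ≤ j →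
  ⁅gam G i, gam G j⁆ ≤ gam G (i + j)

/-- easy consequences of `MC` -/
def G3 : Prop := ∀ (G : Type u) [Group G] (p n : ℕ), MC p n G →
  (gam G n = ⊥) ∧ (∀ j, 1 ≤ j → j < n → ¬ gam G j ≤ gam G (j + 1)) ∧
  (∀ j, 2 ≤ j → j < n → ∀ x ∈ gam G j, x ∉ gam G (j + 1) → ∀ y ∈ gam G j,
    ∃ t : ℕ, y * (x ^ t)⁻¹ ∈ gam G (j + 1)) ∧
  (∀ i j, 1 ≤ i → 1 ≤ j → i ≤ n → j ≤ n → gam G i = gam G j → i = j) ∧
  (∀ j, 2 ≤ j → j < n → ∀ x ∈ gam G j, x ^ p ∈ gam G (j + 1))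

/-- normal subgroups -/
def G4 : Prop := ∀ (G : Type u) [Group G] (p n : ℕ), MC p n G → ∀ N : Subgroup G, N.Normal →
  (gam G 2 ≤ N ∨ ∃ j, 2 ≤ j ∧ j ≤ n ∧ N = gam G j)

/-- `G/γ_2` has exponent `p` -/
def G5 : Prop := ∀ (G : Type u) [Group G] (p n : ℕ), MC p n G → 3 ≤ n → ∀ g : G, g ^ p ∈ gam G 2

/-- an element outside of at most `p` two-step centralizers -/
def U1 : Prop := ∀ (G : Type u) [Group G] (p n : ℕ), MC p n G → ∀ J : Finset ℕ, J.card ≤ p →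
  (∀ j ∈ J, 2 ≤ j ∧ j + 2 ≤ n) →
  ∃ s : G, ∀ j ∈ J, ∀ x ∈ gam G j, x ∉ gam G (j + 1) → ⁅x, s⁆ ∉ gam G (j + 2)

/-- two-step centralizers are maximal subgroups -/
def U2 : Prop := ∀ (G : Type u) [Group G] (p n : ℕ), MC p n G → ∀ j, 2 ≤ j → j + 2 ≤ n →
  (∀ g, Cen G 2 g → Cen G j g) → ∀ s : G, ¬ Cen G 2 s →
  ∀ x ∈ gam G j, x ∉ gam G (j + 1) → ⁅x, s⁆ ∉ gam G (j + 2)

/-- leading coefficients for `γ_j`, `j ≥ 2` -/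
def D1 : Prop := ∀ (G : Type u) [Group G] (p n m : ℕ) (s : G), MC p n G → m ≤ n → Unif G m s →
  ∃ lc : ℕ → G → ZMod p, GD 2 p m (gam G) s lc

open Classical in
/-- leading coefficients including `P_1 = C_2` -/
def D2 : Prop := ∀ (G : Type u) [Group G] (p n m : ℕ) (s : G), MC p n G → 4 ≤ n → m ≤ n →
  Unif G m s → ¬ Cen G 2 s →
  ∃ P : Subgroup G, (∀ g, g ∈ P ↔ Cen G 2 g) ∧
  ∃ lc : ℕ → G → ZMod p, GD 1 p m (fun j => if j ≤ 1 then P else gam G j) s lc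

/-! ### Tasks: structure constants -/

def E1 : Prop := ∀ (G : Type u) [Group G] (i0 p k i q : ℕ) (Γ : ℕ → Subgroup G) (s : G)
  (lc : ℕ → G → ZMod p), p.Prime → GD i0 p k Γ s lc → 1 ≤ i0 → i0 ≤ i → Deg Γ k i q →
  ∃ c : ℕ → ℕ → ZMod p, Bil Γ lc k i q c

def E2 : Prop := ∀ (G : Type u) [Group G] (i0 p k i q : ℕ) (Γ : ℕ → Subgroup G) (s : G)
  (lc : ℕ → G → ZMod p) (c : ℕ → ℕ → ZMod p), p.Prime → GD i0 p k Γ s lc → 1 ≤ i0 → i0 ≤ i →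
  Deg Γ k i q → Bil Γ lc k i q c →
  (∀ j l, i ≤ j → i ≤ l → j + l + q < k → c j l = - c l j) ∧
  (∀ j, i ≤ j → 2 * j + q < k → c j j = 0)

def E3 : Prop := ∀ (G : Type u) [Group G] (i0 p k i q : ℕ) (Γ : ℕ → Subgroup G) (s : G)
  (lc : ℕ → G → ZMod p) (c : ℕ → ℕ → ZMod p), p.Prime → GD i0 p k Γ s lc → 1 ≤ i0 → i0 ≤ i →
  Deg Γ k i q → Bil Γ lc k i q c →
  ∀ j l, i ≤ j → i ≤ l → j + l + q + 1 < k → c j l = c (j + 1) l + c j (l + 1)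

def E4 : Prop := ∀ (G : Type u) [Group G] (i0 p k i q : ℕ) (Γ : ℕ → Subgroup G) (s : G)
  (lc : ℕ → G → ZMod p) (c : ℕ → ℕ → ZMod p), p.Prime → GD i0 p k Γ s lc → 1 ≤ i0 → i0 ≤ i →
  Deg Γ k i q → Bil Γ lc k i q c →
  ∀ j k' l, i ≤ j → i ≤ k' → i ≤ l → j + k' + l + 2 * q < k →
    c j k' * c (j + k' + q) l + c k' l * c (k' + l + q) j + c l j * c (l + j + q) k' = 0

/-- `[Γ_i, Γ_i] ≤ [Γ_i, Γ_{i+1}]` -/
def F0 : Prop := ∀ (G : Type u) [Group G] (i0 p k i : ℕ) (Γ : ℕ → Subgroup G) (s : G)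
  (lc : ℕ → G → ZMod p), p.Prime → GD i0 p k Γ s lc → i0 ≤ i → i < k →
  ⁅Γ i, Γ i⁆ ≤ ⁅Γ i, Γ (i + 1)⁆

/-- the `c_{j,j+1}` determine everything -/
def F1 : Prop := ∀ (p q i N : ℕ) (c : ℕ → ℕ → ZMod p), Arr p q i N c →
  ∀ M, M ≤ N → (∀ j, i ≤ j → 2 * j + 1 + q ≤ M → c j (j + 1) = 0) →
  ∀ j l, i ≤ j → i ≤ l → j + l + q ≤ M → c j l = 0

/-- existence of the structure `(q, b)` at the truncation level `k` -/
def F2 : Prop := E1.{u} → E2.{u} → E3.{u} → E4.{u} → F0.{u} → F1 →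
  ∀ (G : Type u) [Group G] (i0 p k i : ℕ) (Γ : ℕ → Subgroup G) (s : G) (lc : ℕ → G → ZMod p),
  p.Prime → GD i0 p k Γ s lc → 1 ≤ i0 → i0 ≤ i → i < k → ¬ ⁅Γ i, Γ i⁆ ≤ Γ k →
  ∃ (q b : ℕ) (c : ℕ → ℕ → ZMod p), Deg Γ k i q ∧ Bil Γ lc k i q c ∧ Arr p q i (k - 1) c ∧
    i ≤ b ∧ 2 * b + 1 + q < k ∧ c b (b + 1) ≠ 0 ∧ ∀ j, i ≤ j → j < b → c j (j + 1) = 0

/-- the nM condition makes `c_{b,t}` nonzero -/
def F3 : Prop := ∀ (G : Type u) [Group G] (p n k i q b : ℕ) (s : G) (lc : ℕ → G → ZMod p)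
  (c : ℕ → ℕ → ZMod p), MC p n G → NMC n G → k ≤ n → GD 2 p k (gam G) s lc → 2 ≤ i →
  Deg (gam G) k i q → Bil (gam G) lc k i q c → i ≤ b → 2 * b + 1 + q < k → c b (b + 1) ≠ 0 →
  ∀ t, b + 1 ≤ t → b + t + q < k → c b t ≠ 0

/-- `γ_b' = γ_{2b+1+q}` -/
def F4 : Prop := G4.{u} → F0.{u} →
  ∀ (G : Type u) [Group G] (p n k i q b : ℕ) (s : G) (lc : ℕ → G → ZMod p)
  (c : ℕ → ℕ → ZMod p), MC p n G → k ≤ n → GD 2 p k (gam G) s lc → 2 ≤ i →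
  Deg (gam G) k i q → Bil (gam G) lc k i q c → i ≤ b → 2 * b + 1 + q < k → c b (b + 1) ≠ 0 →
  ⁅gam G b, gam G b⁆ = gam G (2 * b + 1 + q)

/-! ### Tasks: arrays -/

/-- long commuting stretch -/
def A1 : Prop := ∀ (p q i b N : ℕ) (c : ℕ → ℕ → ZMod p), p.Prime → N < p → F1 → Arr p q i N c →
  1 ≤ i → i < b → (∀ j, i ≤ j → j < b → c j (j + 1) = 0) →
  (∀ k, b + 1 ≤ k → b + k + q ≤ N → c b k ≠ 0) → q + 2 * i ≤ b → N < 2 * b + 2 * i + 3 * q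

/-- `x_{k+R-1} = x_k - 1`, with `b = b'+1`, `R = b'+1+q` -/
def T1 : Prop := ∀ (p q i b' N : ℕ) (c : ℕ → ℕ → ZMod p), p.Prime → N < p → Arr p q i N c →
  1 ≤ i → i ≤ b' → c b' (b' + 1) = 0 →
  (∀ k, b' + 2 ≤ k → b' + 1 + k + q ≤ N → c (b' + 1) k ≠ 0) →
  ∀ k, b' + 2 ≤ k → k + 2 * (b' + 1 + q) ≤ N + 1 →
    (c (b' + 1) k * c b' (k + (b' + 1 + q)) = c b' k * c (b' + 1) (k + (b' + q))) ∧
    (- c b' (k + (b' + q)) * c (b' + 1) k =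
      - c b' k * c (b' + 1) (k + (b' + q)) - c (b' + 1) k * c (b' + 1) (k + (b' + q)))

/-- initial constancy of `σ` -/
def T2 : Prop := T1 → ∀ (p q i b' N : ℕ) (c : ℕ → ℕ → ZMod p), p.Prime → N < p → Arr p q i N c →
  1 ≤ i → i ≤ b' → c b' (b' + 1) = 0 →
  (∀ k, b' + 2 ≤ k → b' + 1 + k + q ≤ N → c (b' + 1) k ≠ 0) →
  b' + 2 + 14 * (b' + 1 + q) ≤ N →
  (∀ t, 1 ≤ t → t ≤ 14 → c (b' + 1) (b' + 1 + t) = c (b' + 1) (b' + 2)) ∧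
  c b' (b' + 2) = 0 ∧ c b' (b' + 2 + (b' + 1 + q)) = 0

/-- a constant window of `σ` behind the first deviation -/
def T3 : Prop := T1 → ∀ (p q i b' N m : ℕ) (c : ℕ → ℕ → ZMod p), p.Prime → N < p →
  Arr p q i N c → 1 ≤ i → i ≤ b' → c b' (b' + 1) = 0 →
  (∀ k, b' + 2 ≤ k → b' + 1 + k + q ≤ N → c (b' + 1) k ≠ 0) →
  7 ≤ m → b' + 1 + 2 * (b' + 1 + q) + 3 * m ≤ N →
  (∀ t, 1 ≤ t → t ≤ 2 * m → c (b' + 1) (b' + 1 + t) = c (b' + 1) (b' + 2)) →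
  c (b' + 1) (b' + 1 + (2 * m + 1)) ≠ c (b' + 1) (b' + 2) →
  ∃ (d : ℕ) (ε : ZMod p), 1 ≤ d ∧ d ≤ 3 ∧
    ∀ t, 2 * m + 1 + d ≤ t → t ≤ 2 * m + 2 + 2 * d → c (b' + 1) (b' + 1 + t) = ε

/-- polynomial lemma -/
def T4 : Prop := ∀ (p q i b N m d : ℕ) (ε : ZMod p) (c : ℕ → ℕ → ZMod p), p.Prime → N < p →
  Arr p q i N c → i ≤ b → 1 ≤ m → 1 ≤ d → 2 * b + (2 * m + 2 + 2 * d) + q ≤ N →
  (∀ t, 1 ≤ t → t ≤ 2 * m → c b (b + t) = c b (b + 1)) →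
  (∀ t, 2 * m + 1 + d ≤ t → t ≤ 2 * m + 2 + 2 * d → c b (b + t) = ε) →
  c b (b + (2 * m + 1)) = c b (b + 1)

/-- the main array theorem -/
def T5 : Prop := T2 → T3 → T4 → T1 →
  ∀ (p q i b N : ℕ) (c : ℕ → ℕ → ZMod p), p.Prime → N < p → Arr p q i N c →
  1 ≤ i → i < b → (∀ j, i ≤ j → j < b → c j (j + 1) = 0) →
  (∀ k, b + 1 ≤ k → b + k + q ≤ N → c b k ≠ 0) → N ≤ b + 14 * (b + q)

/-- array form of Blackburn's argument -/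
def BLA : Prop := ∀ (p i : ℕ) (c : ℕ → ℕ → ZMod p), p.Prime → Arr p 0 1 (i + 2) c → 3 ≤ i →
  (∀ j, 1 ≤ j → j < i → c j 1 = 0) → c i 1 ≠ 0 → 2 * p ≤ i

/-- array form of Blackburn's argument, odd case -/
def BLO : Prop := ∀ (p i : ℕ) (c : ℕ → ℕ → ZMod p), p.Prime → Arr p 0 1 (i + 1) c → 3 ≤ i → Odd i →
  (∀ j, 1 ≤ j → j < i → c j 1 = 0) → c i 1 = 0

/-! ### Tasks: counting, levels `< m ≤ p` -/

/-- if `d(i) = d(i+1) = v`, then there is an element of `S` in each window -/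
def X1 : Prop := F2.{u} → (E1.{u} ∧ E2.{u} ∧ E3.{u} ∧ E4.{u} ∧ F0.{u} ∧ F1) → F3.{u} → F4.{u} →
  G4.{u} → A1 → T5 → (T1 ∧ T2 ∧ T3 ∧ T4) →
  ∀ (G : Type u) [Group G] (p n m i v : ℕ) (s : G) (lc : ℕ → G → ZMod p), MC p n G → NMC n G →
  m ≤ n → m ≤ p → GD 2 p m (gam G) s lc → 2 ≤ i → v < m →
  ⁅gam G i, gam G i⁆ ≤ gam G v → ¬ ⁅gam G (i + 1), gam G (i + 1)⁆ ≤ gam G (v + 1) →
  ∀ k, v < k → k ≤ m → k ≤ 29 * v ∨
    ∃ d b, d < k ∧ k ≤ d + 2 * v ∧ 2 ≤ b ∧ 2 ≤ d ∧ ⁅gam G b, gam G b⁆ = gam G d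

/-- counting the windows -/
def X2 : Prop := G3.{u} →
  (∀ (G : Type u) [Group G] (p n m i v : ℕ), MC p n G → m ≤ n → 2 ≤ i → v < m →
    (∀ k, v < k → k ≤ m → k ≤ 29 * v ∨
      ∃ d b, d < k ∧ k ≤ d + 2 * v ∧ 2 ≤ b ∧ 2 ≤ d ∧ ⁅gam G b, gam G b⁆ = gam G d) →
    m ≤ (29 + 2 * (derSet G n).ncard) * (v + 1))

/-- derived series up to level `m ≤ p` -/
def X3 : Prop := G2.{u} → G3.{u} →
  ∀ (G : Type u) [Group G] (p n m : ℕ), MC p n G → 2 ≤ m → m ≤ n →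
  (∀ i v, 2 ≤ i → v < m → ⁅gam G i, gam G i⁆ ≤ gam G v →
    ¬ ⁅gam G (i + 1), gam G (i + 1)⁆ ≤ gam G (v + 1) →
    m ≤ (29 + 2 * (derSet G n).ncard) * (v + 1)) →
  ∃ t, derivedSeries G t ≤ gam G m ∧
    t ≤ Nat.log 2 ((derSet G n).ncard + 2) + Nat.log 2 (29 + 2 * (derSet G n).ncard) + 6

/-! ### Tasks: levels `> p` -/

/-- `s^p` is central modulo `γ_m` -/
def P1 : Prop := G5.{u} → ∀ (G : Type u) [Group G] (p n m : ℕ) (s : G), MC p n G → 3 ≤ m → m ≤ n →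
  Unif G m s → s ^ p ∈ gam G (m - 1)

/-- `s a` is conjugate to `s` modulo `γ_m` -/
def P2 : Prop := G2.{u} → G3.{u} → ∀ (G : Type u) [Group G] (p n m j : ℕ) (s : G), MC p n G →
  m ≤ n → Unif G m s → 3 ≤ j → ∀ a ∈ gam G j, ∃ y : G, (y⁻¹ * s * y)⁻¹ * (s * a) ∈ gam G m

/-- expansion of `(s a)^p` in an abelian section -/
def P3 : Prop := ∀ (G : Type u) [Group G] (A K : Subgroup G) (s a : G) (N : ℕ), A.Normal → K.Normal →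
  K ≤ A → ⁅A, A⁆ ≤ K → a ∈ A →
  (s ^ N * ((List.range N).map
    (fun k => ((fun x => x⁻¹ * (s⁻¹ * x * s))^[k] a) ^ (N.choose (k + 1)))).prod)⁻¹ * (s * a) ^ N ∈ K

/-- power structure -/
def P4 : Prop := P1.{u} → P2.{u} → P3.{u} → G2.{u} → G3.{u} → G5.{u} →
  ∀ (G : Type u) [Group G] (p n m : ℕ) (s : G), MC p n G → 3 ≤ m → m ≤ n → Unif G m s →
  ∀ j, 3 ≤ j → p ≤ j → ∀ a ∈ gam G j,
    (∀ t, t ≤ j + p - 1 → t ≤ m → a ^ p ∈ gam G t) ∧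
    (j + p ≤ m → a ∉ gam G (j + 1) → a ^ p ∉ gam G (j + p))

/-- Blackburn, low levels -/
def B1 : Prop := BLA → BLO → D2.{u} → (E1.{u} ∧ E2.{u} ∧ E3.{u} ∧ E4.{u} ∧ F0.{u} ∧ F1) →
  U1.{u} → U2.{u} → G3.{u} →
  ∀ (G : Type u) [Group G] (p n i : ℕ), MC p n G → 3 ≤ i → i < 2 * p → i + 3 ≤ n →
  (∀ j, 2 ≤ j → j < i → ∀ g, Cen G 2 g → Cen G j g) → ∀ g, Cen G 2 g → Cen G i g

/-- Blackburn, high levels -/
def B2 : Prop := P4.{u} → (P1.{u} ∧ P2.{u} ∧ P3.{u} ∧ G2.{u} ∧ G5.{u}) → U1.{u} → U2.{u} → G3.{u} →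
  ∀ (G : Type u) [Group G] (p n i : ℕ), MC p n G → 3 ≤ i → 2 * p ≤ i → i + 3 ≤ n →
  (∀ j, 2 ≤ j → j < i → ∀ g, Cen G 2 g → Cen G j g) → ∀ g, Cen G 2 g → Cen G i g

/-- a uniform element exists -/
def B3 : Prop := U1.{u} → U2.{u} →
  (∀ (G : Type u) [Group G] (p n i : ℕ), MC p n G → 3 ≤ i → i + 3 ≤ n →
    (∀ j, 2 ≤ j → j < i → ∀ g, Cen G 2 g → Cen G j g) → ∀ g, Cen G 2 g → Cen G i g) →
  ∀ (G : Type u) [Group G] (p n : ℕ), MC p n G → ∃ s, Unif G n s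

/-- the bracket is periodic and hence `γ_{p+1}'` is small -/
def V1 : Prop := P4.{u} → (P1.{u} ∧ P2.{u} ∧ P3.{u} ∧ G2.{u} ∧ G3.{u} ∧ G5.{u}) → F2.{u} →
  (E1.{u} ∧ E2.{u} ∧ E3.{u} ∧ E4.{u} ∧ F0.{u} ∧ F1) → F3.{u} →
  ∀ (G : Type u) [Group G] (p n : ℕ) (s : G) (lc : ℕ → G → ZMod p), MC p n G → NMC n G →
  6 * p ≤ n → Unif G n s → GD 2 p n (gam G) s lc →
  ⁅gam G (p + 1), gam G (p + 1)⁆ ≤ gam G (n + 6 - 3 * p)

/-- derived length of the part beyond level `p` -/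
def V2 : Prop := G2.{u} → G3.{u} →
  (∀ (G : Type u) [Group G] (p n : ℕ), MC p n G → NMC n G → 6 * p ≤ n →
    ⁅gam G (p + 1), gam G (p + 1)⁆ ≤ gam G (n + 6 - 3 * p)) →
  ∀ (G : Type u) [Group G] (p n t : ℕ), MC p n G → NMC n G → derivedSeries G t ≤ gam G (min n p) →
  derivedSeries G (t + 4) = ⊥

/-! ### Tasks: characters -/

/-- irreducible representation over a linear character of a subgroup -/
def C1 : Prop := ∀ (G : Type u) [Group G] [Fintype G] (H : Subgroup G) (mu : H →* ℂˣ),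
  ∃ (d : ℕ) (ρ : Representation ℂ G (Fin d → ℂ)), ρ.IsIrreducible ∧ d ≤ H.index ∧
  ∃ φ : (Fin d → ℂ) →ₗ[ℂ] ℂ, φ ≠ 0 ∧
    ∀ (h : G) (hh : h ∈ H) (v : Fin d → ℂ), φ (ρ h v) = ((mu ⟨h, hh⟩ : ℂˣ) : ℂ) * φ v

/-- consequences of `χ = λ^G` -/
def C2 : Prop := ∀ (G : Type u) [Group G] [Fintype G] (d : ℕ) (ρ : Representation ℂ G (Fin d → ℂ))
  (N : Subgroup G) (lam : N →* ℂˣ), N.Normal → (∀ g : G, ρ.character g = indChar N lam g) →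
  d = N.index ∧ ∀ x ∈ ⁅N, N⁆, ρ x = 1

/-- separation of elements by linear characters -/
def C3 : Prop := ∀ (H : Type u) [Group H] [Finite H] (B : Subgroup H), B.Normal →
  commutator H ≤ B → ∀ z : H, z ∉ B → ∃ mu : H →* ℂˣ, (∀ b ∈ B, mu b = 1) ∧ mu z ≠ 1

/-- commutators of `⟨A, g⟩` -/
def C4 : Prop := ∀ (G : Type u) [Group G] (A K : Subgroup G) (g : G), A.Normal → K.Normal → K ≤ A →
  ⁅A, A⁆ ≤ K → ∀ y ∈ ⁅A ⊔ Subgroup.zpowers g, A ⊔ Subgroup.zpowers g⁆ ⊔ K,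
    ∃ x ∈ A, ∃ c ∈ K, y = ⁅g, x⁆ * c

/-- nM implies the commutator condition -/
def C5 : Prop := C1.{u} → C2.{u} → C3.{u} → C4.{u} → G2.{u} → G3.{u} → G4.{u} →
  ∀ (G : Type u) [Group G] [Fintype G] (p n : ℕ), MC p n G → IsNM G → NMC n G

/-! ### Final assembly -/

def Fin1 : Prop := X3.{u} → X2.{u} → X1.{u} → V2.{u} → V1.{u} → C5.{u} → B1.{u} → B2.{u} → B3.{u} →
  (G1.{u} ∧ G2.{u} ∧ G3.{u} ∧ G4.{u} ∧ G5.{u} ∧ U1.{u} ∧ U2.{u} ∧ D1.{u} ∧ D2.{u}) →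
  (E1.{u} ∧ E2.{u} ∧ E3.{u} ∧ E4.{u} ∧ F0.{u} ∧ F1 ∧ F2.{u} ∧ F3.{u} ∧ F4.{u}) →
  (A1 ∧ T1 ∧ T2 ∧ T3 ∧ T4 ∧ T5 ∧ BLA ∧ BLO) → (P1.{u} ∧ P2.{u} ∧ P3.{u} ∧ P4.{u}) →
  (C1.{u} ∧ C2.{u} ∧ C3.{u} ∧ C4.{u}) → Main.{u}

end H436NM
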