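import Pool.Agent.H436R2.NM.Defs

set_option autoImplicit false

open H436NM
open scoped commutatorElement

universe u

namespace H436NM

open Subgroup in
theorem G2_three {X : Type u} [Group X] (N : Subgroup X) [N.Normal] (H₁ H₂ H₃ : Subgroup X)
    (h1 : ⁅⁅H₂, H₃⁆, H₁⁆ ≤ N) (h2 : ⁅⁅H₃, H₁⁆, H₂⁆ ≤ N) : ⁅⁅H₁, H₂⁆, H₃⁆ ≤ N := by
  have key : ∀ H : Subgroup X, H ≤ N ↔ H.map (QuotientGroup.mk' N) = ⊥ := by
    intro H
    rw [Subgroup.map_eq_bot_iff, QuotientGroup.ker_mk']
  rw [key, map_commutator, map_commutator] at h1 h2 ⊢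
  exact commutator_commutator_eq_bot_of_rotate h1 h2

open Subgroup in
theorem G2_lcs {X : Type u} [Group X] (i j : ℕ) :
    ⁅(⊤ : Subgroup X).lowerCentralSeries i, (⊤ : Subgroup X).lowerCentralSeries j⁆ ≤
      (⊤ : Subgroup X).lowerCentralSeries (i + j + 1) := by
  induction j generalizing i with
  | zero => exact le_rfl
  | succ j ih =>
    have hN : ((⊤ : Subgroup X).lowerCentralSeries (i + (j + 1) + 1)).Normal := inferInstance
    rw [commutator_comm, Subgroup.lowerCentralSeries_succ]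
    apply G2_three
    · rw [commutator_comm ⊤, ← Subgroup.lowerCentralSeries_succ]
      have := ih (i + 1)
      have e : i + 1 + j + 1 = i + (j + 1) + 1 := by ring
      rwa [e] at this
    · have h1 : ⁅⁅(⊤ : Subgroup X).lowerCentralSeries i, (⊤ : Subgroup X).lowerCentralSeries j⁆,
          (⊤ : Subgroup X)⁆ ≤ ⁅(⊤ : Subgroup X).lowerCentralSeries (i + j + 1), ⊤⁆ :=
        commutator_mono (ih i) le_rfl
      rw [← Subgroup.lowerCentralSeries_succ] at h1
      exact h1

theorem tG2 : G2.{u} := by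
  intro G _ i j hi hj
  have h := G2_lcs (X := G) (i - 1) (j - 1)
  have e : (i - 1) + (j - 1) + 1 = i + j - 1 := by omega
  rw [e] at h
  exact h

end H436NM
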