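import Pool.Agent.H436R2.NM.Defs

/-! Task U2: two-step centralizers are maximal subgroups. -/

open H436NM

open scoped commutatorElement

universe u

namespace H436NM.TU2

variable {G : Type u} [Group G]

instance norm_gam (j : ℕ) : (gam G j).Normal := by
  unfold gam
  infer_instance

theorem gam_succ {j : ℕ} (hj : 1 ≤ j) : gam G (j + 1) = ⁅gam G j, (⊤ : Subgroup G)⁆ := by
  obtain ⟨i, rfl⟩ : ∃ i, j = i + 1 := ⟨j - 1, by omega⟩
  rfl

theorem comm_mem {j : ℕ} (hj : 1 ≤ j) {x : G} (hx : x ∈ gam G j) (g : G) :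
    ⁅x, g⁆ ∈ gam G (j + 1) := by
  rw [gam_succ hj]
  exact Subgroup.commutator_mem_commutator hx (Subgroup.mem_top g)

theorem gam_le (j : ℕ) : gam G (j + 1) ≤ gam G j :=
  (⊤ : Subgroup G).lowerCentralSeries_antitone (by omega)

/-- intermediate subgroups of an extension of prime index -/
theorem squeeze {p a : ℕ} (hp : p.Prime) [Finite G] {A B C : Subgroup G} (hAB : A ≤ B)
    (hBC : B ≤ C) (hA : Nat.card A = p ^ a) (hC : Nat.card C = p ^ (a + 1))
    (hne : A ≠ B) : B = C := by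
  have h1 : Nat.card B ∣ p ^ (a + 1) := hC ▸ Subgroup.card_dvd_of_le hBC
  have h2 : p ^ a ∣ Nat.card B := hA ▸ Subgroup.card_dvd_of_le hAB
  obtain ⟨k, hk, hB⟩ := (Nat.dvd_prime_pow hp).1 h1
  rw [hB] at h2
  have h3 : a ≤ k := (Nat.pow_dvd_pow_iff_le_right hp.one_lt).1 h2
  rcases Nat.lt_or_ge k (a + 1) with h4 | h4
  · exfalso
    apply hne
    apply Subgroup.eq_of_le_of_card_ge hAB
    rw [hA, hB]
    exact Nat.pow_le_pow_right hp.pos (by omega)
  · apply Subgroup.eq_of_le_of_card_ge hBC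
    rw [hB, hC]
    exact Nat.pow_le_pow_right hp.pos h4

theorem mem_comap_cent {N : Subgroup G} [N.Normal] (y g : G) :
    y ∈ (Subgroup.centralizer {(QuotientGroup.mk' N) g}).comap (QuotientGroup.mk' N) ↔
      ⁅y, g⁆ ∈ N := by
  have h1 : ⁅y, g⁆ ∈ N ↔ (QuotientGroup.mk' N) ⁅y, g⁆ = 1 := by
    rw [← MonoidHom.mem_ker, QuotientGroup.ker_mk']
  rw [Subgroup.mem_comap, Subgroup.mem_centralizer_singleton_iff, h1, map_commutatorElement,
    commutatorElement_eq_one_iff_mul_comm]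

theorem cen_of {p n : ℕ} (hG : MC p n G) {j : ℕ} (hj : 2 ≤ j) (hjn : j + 2 ≤ n) {x g : G}
    (hx : x ∈ gam G j) (hx' : x ∉ gam G (j + 1)) (h : ⁅x, g⁆ ∈ gam G (j + 2)) : Cen G j g := by
  have := hG.fin
  set H : Subgroup G := (Subgroup.centralizer {(QuotientGroup.mk' (gam G (j + 2))) g}).comap
    (QuotientGroup.mk' (gam G (j + 2))) with hH
  have hmem : ∀ y, y ∈ H ↔ ⁅y, g⁆ ∈ gam G (j + 2) := fun y => mem_comap_cent y g
  have h1 : gam G (j + 1) ≤ H ⊓ gam G j := by
    intro y hy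
    exact ⟨(hmem y).2 (comm_mem (by omega) hy g), gam_le j hy⟩
  have h2 : H ⊓ gam G j = gam G j := by
    apply squeeze hG.pr (a := n - (j + 1)) h1 inf_le_right
    · exact hG.card_gam (j + 1) (by omega) (by omega)
    · rw [hG.card_gam j hj (by omega)]
      congr 1
      omega
    · intro he
      apply hx'
      rw [he]
      exact ⟨(hmem x).2 h, hx⟩
  intro y hy
  rw [← h2] at hy
  exact (hmem y).1 hy.1

/-- the two-step centralizer as a subgroup -/
def CS (G : Type u) [Group G] (j : ℕ) : Subgroup G :=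
  ⨅ x : gam G j, (Subgroup.centralizer {(QuotientGroup.mk' (gam G (j + 2))) (x : G)}).comap
    (QuotientGroup.mk' (gam G (j + 2)))

theorem mem_CS (j : ℕ) (g : G) : g ∈ CS G j ↔ Cen G j g := by
  unfold CS Cen
  rw [Subgroup.mem_iInf]
  constructor
  · intro h x hx
    have := (mem_comap_cent g x).1 (h ⟨x, hx⟩)
    rw [← inv_mem_iff, commutatorElement_inv]
    exact this
  · rintro h ⟨x, hx⟩
    apply (mem_comap_cent g x).2
    rw [← inv_mem_iff, commutatorElement_inv]
    exact h x hx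

theorem exists_mem {p n : ℕ} (hG : MC p n G) {j : ℕ} (hj : 2 ≤ j) (hjn : j + 1 ≤ n) :
    ∃ x ∈ gam G j, x ∉ gam G (j + 1) := by
  have := hG.fin
  by_contra hcon
  push Not at hcon
  have h1 : gam G j ≤ gam G (j + 1) := hcon
  have h2 := Nat.le_of_dvd Nat.card_pos (Subgroup.card_dvd_of_le h1)
  rw [hG.card_gam j hj (by omega), hG.card_gam (j + 1) (by omega) hjn] at h2
  have h3 := (Nat.pow_le_pow_iff_right hG.pr.one_lt).1 h2
  omega

theorem index_CS2 {p n : ℕ} (hG : MC p n G) (hn : 4 ≤ n) : (CS G 2).index ∣ p := by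
  have := hG.fin
  obtain ⟨x, hx, hx'⟩ := exists_mem hG (le_refl 2) (by omega)
  let π := QuotientGroup.mk' (gam G 4)
  have hker : π.ker = gam G 4 := QuotientGroup.ker_mk' _
  have hc : ∀ g : G, ∀ y ∈ gam G 3, π g * π y = π y * π g := by
    intro g y hy
    have h1 : ⁅y, g⁆ ∈ gam G 4 := comm_mem (by norm_num) hy g
    rw [← hker, MonoidHom.mem_ker, map_commutatorElement,
      commutatorElement_eq_one_iff_mul_comm] at h1
    exact h1.symm
  have hmul : ∀ g h : G, π ⁅x, g * h⁆ = π ⁅x, g⁆ * π ⁅x, h⁆ := by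
    intro g h
    have e : ⁅x, g * h⁆ = ⁅x, g⁆ * (g * ⁅x, h⁆ * g⁻¹) := by
      simp only [commutatorElement_def]
      group
    rw [e, map_mul, map_mul, map_mul, hc g _ (comm_mem (by norm_num) hx h), mul_assoc (π ⁅x, h⁆),
      ← map_mul π g g⁻¹, mul_inv_cancel, map_one, mul_one]
  let φ : G →* G ⧸ gam G 4 := MonoidHom.mk' (fun g => π ⁅x, g⁆) hmul
  have h1 : φ.ker ≤ CS G 2 := by
    intro g hg
    rw [mem_CS]
    have h2 : π ⁅x, g⁆ = 1 := hg
    rw [← MonoidHom.mem_ker, hker] at h2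
    exact cen_of hG (le_refl 2) (by omega) hx hx' h2
  have h2 : φ.range ≤ (gam G 3).map π := by
    rintro _ ⟨g, rfl⟩
    exact ⟨⁅x, g⁆, comm_mem (by norm_num) hx g, rfl⟩
  have h3 : Nat.card ((gam G 3).map π) = p := by
    rw [← Subgroup.relIndex_ker, hker]
    have h4 := Subgroup.relIndex_mul_relIndex (⊥ : Subgroup G) (gam G 4) (gam G 3) bot_le
      (gam_le 3)
    rw [Subgroup.relIndex_bot_left, Subgroup.relIndex_bot_left,
      hG.card_gam 4 (by norm_num) hn, hG.card_gam 3 (by norm_num) (by omega)] at h4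
    have h5 : p ^ (n - 3) = p ^ (n - 4) * p := by
      rw [← pow_succ]
      congr 1
      omega
    rw [h5] at h4
    exact Nat.eq_of_mul_eq_mul_left (pow_pos hG.pr.pos _) h4
  calc (CS G 2).index ∣ φ.ker.index := Subgroup.index_dvd_of_le h1
    _ = Nat.card φ.range := Subgroup.index_ker φ
    _ ∣ Nat.card ((gam G 3).map π) := Subgroup.card_dvd_of_le h2
    _ = p := h3

end H436NM.TU2

open H436NM.TU2 in
theorem H436NM.tU2 : H436NM.U2.{u} := by
  intro G _ p n hG j hj hjn hle s hs x hx hx' hcon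
  have hfin := hG.fin
  have h1 : Cen G j s := cen_of hG hj hjn hx hx' hcon
  have h2 : CS G 2 ≤ CS G j := by
    intro g hg
    rw [mem_CS] at hg ⊢
    exact hle g hg
  have h3 : CS G j ≠ ⊤ := by
    intro htop
    have h4 : gam G (j + 1) ≤ gam G (j + 2) := by
      rw [gam_succ (by omega), Subgroup.commutator_le]
      intro y hy g _
      have h5 : g ∈ CS G j := htop ▸ Subgroup.mem_top g
      rw [mem_CS] at h5
      exact h5 y hy
    obtain ⟨z, hz, hz'⟩ := exists_mem hG (j := j + 1) (by omega) (by omega)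
    exact hz' (h4 hz)
  have h4 : (CS G 2).index ∣ p := index_CS2 hG (by omega)
  have h5 : (CS G j).index ∣ (CS G 2).index := Subgroup.index_dvd_of_le h2
  have h6 : (CS G j).index = p := by
    rcases (Nat.dvd_prime hG.pr).1 (h5.trans h4) with h | h
    · exact absurd (Subgroup.index_eq_one.1 h) h3
    · exact h
  have h7 : (CS G 2).index = p := Nat.dvd_antisymm h4 (h6 ▸ h5)
  have h8 : CS G j ≤ CS G 2 := by
    rw [← Subgroup.relIndex_eq_one]
    have h9 := Subgroup.relIndex_mul_index h2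
    rw [h6, h7] at h9
    exact Nat.eq_of_mul_eq_mul_right hG.pr.pos (by rw [h9, one_mul])
  exact hs ((mem_CS 2 s).1 (h8 ((mem_CS j s).2 h1)))
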