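import Pool.Agent.H436R2.NM.Defs
import Pool.Agent.H436R2.NM.TG2
import Pool.Agent.H436R2.NM.TU2

/-! Leading coefficients: common part of the tasks D1, D2. -/

open H436NM

open scoped commutatorElement

universe u

namespace H436NM.LCAux

variable {G : Type u} [Group G]

/-- a section of prime order -/
theorem cyc {p : ℕ} (hp : p.Prime) [Finite G] {H K : Subgroup G} (hK : K.Normal) (hKH : K ≤ H)
    (hc : Nat.card H = p * Nat.card K) {x : G} (hx : x ∈ H) (hx' : x ∉ K) :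
    (∀ y ∈ H, ∃ t : ℕ, y * (x ^ t)⁻¹ ∈ K) ∧ x ^ p ∈ K := by
  haveI : Fact p.Prime := ⟨hp⟩
  have hN : (K.subgroupOf H).Normal := hK.subgroupOf H
  have hcard : Nat.card (H ⧸ K.subgroupOf H) = p := by
    have h1 : Nat.card H = Nat.card (H ⧸ K.subgroupOf H) * Nat.card (K.subgroupOf H) :=
      Subgroup.card_eq_card_quotient_mul_card_subgroup _
    have h2 : Nat.card (K.subgroupOf H) = Nat.card K :=
      Nat.card_congr (Subgroup.subgroupOfEquivOfLe hKH).toEquiv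
    rw [h2, hc] at h1
    exact (Nat.eq_of_mul_eq_mul_right Nat.card_pos h1).symm
  have hq : ∀ z : G, ∀ hz : z ∈ H, ((QuotientGroup.mk' (K.subgroupOf H)) ⟨z, hz⟩ = 1 ↔ z ∈ K) := by
    intro z hz
    rw [← MonoidHom.mem_ker, QuotientGroup.ker_mk', Subgroup.mem_subgroupOf]
  have hne : (QuotientGroup.mk' (K.subgroupOf H)) ⟨x, hx⟩ ≠ 1 := by
    intro h
    exact hx' ((hq x hx).1 h)
  constructor
  · intro y hy
    have h1 := mem_powers_of_prime_card hcard (g := (QuotientGroup.mk' (K.subgroupOf H)) ⟨x, hx⟩)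
      (g' := (QuotientGroup.mk' (K.subgroupOf H)) ⟨y, hy⟩) hne
    obtain ⟨t, ht⟩ := h1
    refine ⟨t, ?_⟩
    have h2 : y * (x ^ t)⁻¹ ∈ H := H.mul_mem hy (H.inv_mem (H.pow_mem hx t))
    rw [← hq _ h2]
    have h3 : (⟨y * (x ^ t)⁻¹, h2⟩ : H) = ⟨y, hy⟩ * (⟨x, hx⟩ ^ t)⁻¹ := rfl
    rw [h3, map_mul, map_inv, map_pow]
    have ht' : (QuotientGroup.mk' (K.subgroupOf H)) ⟨x, hx⟩ ^ t =
      (QuotientGroup.mk' (K.subgroupOf H)) ⟨y, hy⟩ := ht
    rw [ht', mul_inv_cancel]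
  · have h2 : x ^ p ∈ H := H.pow_mem hx p
    rw [← hq _ h2]
    have h3 : (⟨x ^ p, h2⟩ : H) = ⟨x, hx⟩ ^ p := rfl
    rw [h3, map_pow]
    have h4 := pow_card_eq_one' (x := (QuotientGroup.mk' (K.subgroupOf H)) ⟨x, hx⟩)
    rw [hcard] at h4
    exact h4

/-- powers of `a` mod `K`, when `a ∉ K`, `a^p ∈ K` -/
theorem pow_mem_iff {p : ℕ} (hp : p.Prime) {K : Subgroup G} {a : G} (ha : a ∉ K)
    (hap : a ^ p ∈ K) (t : ℕ) : a ^ t ∈ K ↔ (t : ZMod p) = 0 := by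
  rw [ZMod.natCast_eq_zero_iff]
  constructor
  · intro h
    by_contra hd
    have hco : Nat.Coprime t p := ((Nat.Prime.coprime_iff_not_dvd hp).2 hd).symm
    have h1 := Nat.gcd_eq_gcd_ab t p
    rw [Nat.Coprime.gcd_eq_one hco] at h1
    apply ha
    have h2 : a = (a ^ t) ^ (Nat.gcdA t p) * (a ^ p) ^ (Nat.gcdB t p) := by
      rw [← zpow_natCast, ← zpow_natCast a p, ← zpow_mul, ← zpow_mul, ← zpow_add, ← h1]
      simp
    rw [h2]
    exact K.mul_mem (K.zpow_mem h _) (K.zpow_mem hap _)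
  · rintro ⟨k, rfl⟩
    rw [pow_mul]
    exact K.pow_mem hap k

/-- the sequence `s_j` -/
def sq (s x0 : G) (i0 : ℕ) : ℕ → G
  | 0 => x0
  | (j + 1) => if j + 1 ≤ i0 then x0 else ⁅sq s x0 i0 j, s⁆

theorem sq_base (s x0 : G) (i0 : ℕ) : sq s x0 i0 i0 = x0 := by
  cases i0 with
  | zero => rfl
  | succ j => simp [sq]

theorem sq_succ (s x0 : G) (i0 j : ℕ) (h : i0 ≤ j) :
    sq s x0 i0 (j + 1) = ⁅sq s x0 i0 j, s⁆ := by
  rw [sq, if_neg (by omega)]

open Classical in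
/-- leading coefficient -/
noncomputable def lcf (p : ℕ) (Γ : ℕ → Subgroup G) (σ : ℕ → G) (j : ℕ) (x : G) : ZMod p :=
  if h : ∃ t : ℕ, x * (σ j ^ t)⁻¹ ∈ Γ (j + 1) then (h.choose : ZMod p) else 0

/-- the common statement -/
theorem main {p : ℕ} (hp : p.Prime) (i0 m : ℕ) (Γ : ℕ → Subgroup G) (s x0 : G)
    (nor : ∀ j, (Γ j).Normal) (anti : ∀ j, Γ (j + 1) ≤ Γ j)
    (comm : ∀ i j, 1 ≤ i → 1 ≤ j → ⁅Γ i, Γ j⁆ ≤ Γ (i + j))
    (act : ∀ j, i0 ≤ j → j < m → ∀ g : G, ∀ x ∈ Γ j, ⁅x, g⁆ ∈ Γ (j + 1))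
    (hcyc : ∀ j, i0 ≤ j → j < m → ∀ x ∈ Γ j, x ∉ Γ (j + 1) →
      (∀ y ∈ Γ j, ∃ t : ℕ, y * (x ^ t)⁻¹ ∈ Γ (j + 1)) ∧ x ^ p ∈ Γ (j + 1))
    (unif : ∀ j, i0 ≤ j → j + 1 < m → ∀ x ∈ Γ j, x ∉ Γ (j + 1) → ⁅x, s⁆ ∉ Γ (j + 2))
    (hx0 : i0 < m → x0 ∈ Γ i0) (hx0' : i0 < m → x0 ∉ Γ (i0 + 1)) :
    ∃ lc : ℕ → G → ZMod p, GD i0 p m Γ s lc := by
  set σ : ℕ → G := sq s x0 i0 with hσ
  have hσs : ∀ j, i0 ≤ j → σ (j + 1) = ⁅σ j, s⁆ := fun j hj => sq_succ s x0 i0 j hj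
  have hmem : ∀ j, i0 ≤ j → j < m → σ j ∈ Γ j ∧ σ j ∉ Γ (j + 1) := by
    intro j hj
    induction j, hj using Nat.le_induction with
    | base =>
      intro h
      rw [hσ, sq_base]
      exact ⟨hx0 h, hx0' h⟩
    | succ j hj ih =>
      intro h
      have h1 := ih (by omega)
      rw [hσs j hj]
      exact ⟨act j hj (by omega) s _ h1.1, unif j hj h _ h1.1 h1.2⟩
  have hspec : ∀ j, i0 ≤ j → j < m → ∀ x, ∀ t : ℕ, x * (σ j ^ t)⁻¹ ∈ Γ (j + 1) →
      lcf p Γ σ j x = t := by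
    intro j hj hjm x t ht
    have h : ∃ t : ℕ, x * (σ j ^ t)⁻¹ ∈ Γ (j + 1) := ⟨t, ht⟩
    have h1 : lcf p Γ σ j x = (h.choose : ZMod p) := by
      unfold lcf
      rw [dif_pos h]
    rw [h1]
    have h2 := h.choose_spec
    generalize h.choose = u at h2
    have h3 := hmem j hj hjm
    have h4 := (hcyc j hj hjm _ h3.1 h3.2).2
    -- σ^u σ^-t ∈ Γ
    have h5 : (σ j ^ u) * (σ j ^ t)⁻¹ ∈ Γ (j + 1) := by
      have : (σ j ^ u) * (σ j ^ t)⁻¹ = (x * (σ j ^ u)⁻¹)⁻¹ * (x * (σ j ^ t)⁻¹) := by group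
      rw [this]
      exact (Γ (j + 1)).mul_mem ((Γ (j + 1)).inv_mem h2) ht
    rcases le_total t u with htu | htu
    · have h6 : (σ j ^ (u - t)) ∈ Γ (j + 1) := by
        have : σ j ^ (u - t) = (σ j ^ u) * (σ j ^ t)⁻¹ := pow_sub _ htu
        rw [this]
        exact h5
      rw [pow_mem_iff hp h3.2 h4, Nat.cast_sub htu] at h6
      exact sub_eq_zero.1 h6
    · have h6 : (σ j ^ (t - u)) ∈ Γ (j + 1) := by
        have : σ j ^ (t - u) = ((σ j ^ u) * (σ j ^ t)⁻¹)⁻¹ := by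
          rw [pow_sub _ htu]
          group
        rw [this]
        exact (Γ (j + 1)).inv_mem h5
      rw [pow_mem_iff hp h3.2 h4, Nat.cast_sub htu] at h6
      exact (sub_eq_zero.1 h6).symm
  have hex : ∀ j, i0 ≤ j → j < m → ∀ x ∈ Γ j, ∃ t : ℕ, x * (σ j ^ t)⁻¹ ∈ Γ (j + 1) := by
    intro j hj hjm x hx
    have h3 := hmem j hj hjm
    exact (hcyc j hj hjm _ h3.1 h3.2).1 x hx
  refine ⟨lcf p Γ σ, ⟨nor, anti, comm, act, ?_, ?_, ?_, ?_⟩⟩
  · -- lc_mul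
    intro j hj hjm x hx y hy
    obtain ⟨t, ht⟩ := hex j hj hjm x hx
    obtain ⟨u, hu⟩ := hex j hj hjm y hy
    rw [hspec j hj hjm x t ht, hspec j hj hjm y u hu, hspec j hj hjm (x * y) (t + u), Nat.cast_add]
    have hN := nor (j + 1)
    have : x * y * (σ j ^ (t + u))⁻¹ =
        (x * (y * (σ j ^ u)⁻¹) * x⁻¹) * (x * (σ j ^ t)⁻¹) := by
      rw [pow_add]
      group
    rw [this]
    exact (Γ (j + 1)).mul_mem (hN.conj_mem _ hu x) ht
  · -- lc_ker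
    intro j hj hjm x hx
    obtain ⟨t, ht⟩ := hex j hj hjm x hx
    have h3 := hmem j hj hjm
    have h4 := (hcyc j hj hjm _ h3.1 h3.2).2
    rw [hspec j hj hjm x t ht, ← pow_mem_iff hp h3.2 h4]
    constructor
    · intro h
      have := (Γ (j + 1)).mul_mem ht h
      rwa [inv_mul_cancel_right] at this
    · intro h
      have := (Γ (j + 1)).mul_mem ((Γ (j + 1)).inv_mem ht) h
      have e : (x * (σ j ^ t)⁻¹)⁻¹ * x = σ j ^ t := by group
      rwa [e] at this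
  · -- lc_s
    intro j hj hjm x hx
    have hjm' : j < m := by omega
    obtain ⟨t, ht⟩ := hex j hj hjm' x hx
    rw [hspec j hj hjm' x t ht]
    apply hspec (j + 1) (by omega) hjm
    have hN := nor (j + 1 + 1)
    set π := QuotientGroup.mk' (Γ (j + 1 + 1)) with hπ
    have hker : π.ker = Γ (j + 1 + 1) := QuotientGroup.ker_mk' _
    have hcen : ∀ z ∈ Γ (j + 1), ∀ g : G, π z * π g = π g * π z := by
      intro z hz g
      have h1 := act (j + 1) (by omega) hjm g z hz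
      rw [← hker, MonoidHom.mem_ker, map_commutatorElement,
        commutatorElement_eq_one_iff_mul_comm] at h1
      exact h1
    rw [← hker, MonoidHom.mem_ker, map_mul, map_inv, map_pow, map_commutatorElement,
      mul_inv_eq_one]
    have h3 := hmem j hj hjm'
    have hc := hcen _ (act j hj hjm' s _ h3.1)
    rw [hσs j hj]
    set c := π ⁅σ j, s⁆ with hcdef
    have hc' : π (σ j) * π s * (π (σ j))⁻¹ = c * π s := by
      rw [hcdef, map_commutatorElement, commutatorElement_def]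
      group
    have hpow : ∀ t : ℕ, π (σ j) ^ t * π s * (π (σ j) ^ t)⁻¹ = c ^ t * π s := by
      intro t
      induction t with
      | zero => simp
      | succ t ih =>
        have h1 : π (σ j) ^ (t + 1) * π s * (π (σ j) ^ (t + 1))⁻¹ =
            π (σ j) * (π (σ j) ^ t * π s * (π (σ j) ^ t)⁻¹) * (π (σ j))⁻¹ := by
          rw [pow_succ' (π (σ j)) t]
          group
        have hcomm : Commute (π (σ j)) c := (hc (σ j)).symm
        have h2 : π (σ j) * c ^ t = c ^ t * π (σ j) := (hcomm.pow_right t).eq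
        rw [h1, ih, ← mul_assoc (π (σ j)), h2, mul_assoc, mul_assoc, ← mul_assoc (π (σ j)), hc',
          pow_succ, mul_assoc]
    have hx' : π x = π (x * (σ j ^ t)⁻¹) * π (σ j) ^ t := by
      rw [← map_pow, ← map_mul]
      congr 1
      group
    have hz := hcen _ ht
    set z := π (x * (σ j ^ t)⁻¹) with hzdef
    -- z is central
    have hzs : z * (π (σ j) ^ t * π s * (π (σ j) ^ t)⁻¹) * z⁻¹ =
        π (σ j) ^ t * π s * (π (σ j) ^ t)⁻¹ := by
      have h1 := hz (σ j ^ t * s * (σ j ^ t)⁻¹)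
      rw [map_mul, map_mul, map_inv, map_pow] at h1
      rw [h1]
      group
    rw [commutatorElement_def, hx', mul_inv_rev]
    have h5 : z * π (σ j) ^ t * π s * ((π (σ j) ^ t)⁻¹ * z⁻¹) * (π s)⁻¹ =
        (z * (π (σ j) ^ t * π s * (π (σ j) ^ t)⁻¹) * z⁻¹) * (π s)⁻¹ := by group
    rw [h5, hzs, hpow]
    group
  · -- lc_surj
    intro j hj hjm
    refine ⟨σ j, (hmem j hj hjm).1, ?_⟩
    have := hspec j hj hjm (σ j) 1 (by
      rw [pow_one, mul_inv_cancel]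
      exact (Γ (j + 1)).one_mem)
    rw [this]
    simp

end H436NM.LCAux
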