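import Pool.Agent.H436R2.NM.Defs

/-! Task A1: long commuting stretch (helper757). -/

set_option autoImplicit false

namespace H436NM

namespace A1aux

open Finset

/-- a combination of the binomial functions `r < h` with `h` consecutive zeros is zero -/
lemma vand {R : Type} [CommRing R] : ∀ (h : ℕ) (a : ℕ → R) (u : ℕ),
    (∀ t < h, ∑ r ∈ range h, a r * ((u + t).choose r : R) = 0) → ∀ r < h, a r = 0 := by
  intro h
  induction h with
  | zero => intro a u _ r hr; omega
  | succ h ih =>
    intro a u hz
    have h1 : ∀ r < h, a (r + 1) = 0 := by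
      refine ih (fun r => a (r + 1)) u fun t ht => ?_
      have e1 := hz t (by omega)
      have e2 := hz (t + 1) (by omega)
      rw [sum_range_succ'] at e1 e2
      have e3 : ∀ r ∈ range h, a (r + 1) * ((u + (t + 1)).choose (r + 1) : R) =
          a (r + 1) * ((u + t).choose r : R) + a (r + 1) * ((u + t).choose (r + 1) : R) := by
        intro r _
        rw [← add_assoc, Nat.choose_succ_succ]
        push_cast
        ring
      rw [sum_congr rfl e3, sum_add_distrib] at e2
      simp only [Nat.choose_zero_right] at e1 e2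
      linear_combination e2 - e1
    have h0 : a 0 = 0 := by
      have e1 := hz 0 (by omega)
      rw [sum_range_succ', sum_eq_zero (fun r hr => by rw [h1 r (mem_range.1 hr), zero_mul])] at e1
      simpa using e1
    intro r hr
    rcases r with _ | r
    · exact h0
    · exact h1 r (by omega)

lemma Dexp {p q i N : ℕ} {c : ℕ → ℕ → ZMod p} (hc : Arr p q i N c) :
    ∀ n l : ℕ, i ≤ l → i + n + l + q ≤ N →
      c (i + n) l = ∑ k ∈ range (n + 1), (-1) ^ k * (n.choose k : ZMod p) * c i (l + k) := by
  intro n
  induction n with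
  | zero => intro l _ _; simp
  | succ n ih =>
    intro l hl hN
    have hD := hc.D (i + n) l (by omega) hl (by omega)
    have e1 := ih l hl (by omega)
    have e2 := ih (l + 1) (by omega) (by omega)
    have e3 : c (i + (n + 1)) l = c (i + n) l - c (i + n) (l + 1) := by
      rw [← add_assoc]
      linear_combination -hD
    rw [e3, e2]
    have e1' : c (i + n) l = ∑ k ∈ range (n + 2), (-1) ^ k * (n.choose k : ZMod p) * c i (l + k) := by
      rw [sum_range_succ, ← e1, Nat.choose_succ_self]
      simp
    rw [e1', sum_range_succ' _ (n + 1), sum_range_succ' _ (n + 1), add_sub_right_comm,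
      ← sum_sub_distrib]
    congr 1
    · refine sum_congr rfl fun k _ => ?_
      rw [Nat.choose_succ_succ]
      have : l + 1 + k = l + (k + 1) := by omega
      rw [this]
      push_cast
      ring
    · simp

lemma choose_ne {p n k : ℕ} (hp : p.Prime) (hn : n < p) (hk : k ≤ n) :
    ((n.choose k : ℕ) : ZMod p) ≠ 0 := by
  intro h
  rw [ZMod.natCast_eq_zero_iff] at h
  have h1 : n.choose k ∣ n.factorial :=
    ⟨k.factorial * (n - k).factorial, by rw [← mul_assoc, Nat.choose_mul_factorial_mul_factorial hk]⟩
  have h2 := (hp.dvd_factorial).1 (h.trans h1)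
  omega

end A1aux

open A1aux Finset in
theorem tA1 : A1 := by
  intro p q i b N c hp hNp hF1 hc hi hib hz hnz hqb
  by_contra hN
  push Not at hN
  have := Fact.mk hp
  set h := q + i with hh
  -- the vanishing below the antidiagonal
  have hv : ∀ j l, i ≤ j → i ≤ l → j + l ≤ 2 * b → c j l = 0 := by
    intro j l hj hl hjl
    refine hF1 p q i N c hc (2 * b + q) (by omega) (fun j hj hjM => hz j hj (by omega)) j l hj hl
      (by omega)
  -- (1)
  have h1 : ∀ s, s < h → c i (2 * b + 1 + q + s) = 0 := by
    intro s hs
    have e1 := hc.jac i b (b + 1 + s) le_rfl hib.le (by omega) (by omega)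
    rw [hv i b le_rfl hib.le (by omega), hv (b + 1 + s) i (by omega) le_rfl (by omega)] at e1
    simp only [zero_mul, zero_add, add_zero] at e1
    rcases mul_eq_zero.1 e1 with e2 | e2
    · exact absurd e2 (hnz _ (by omega) (by omega))
    · have e3 := hc.skew i (2 * b + 1 + q + s) le_rfl (by omega) (by omega)
      have e4 : b + (b + 1 + s) + q = 2 * b + 1 + q + s := by omega
      rw [e4] at e2
      rw [e3, e2, neg_zero]
  -- (2)
  have h2 : ∀ d, d ≤ b - i → c (b - d) (b + 1 + d) ≠ 0 := by
    intro d
    induction d with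
    | zero => intro _; exact hnz _ (by omega) (by omega)
    | succ d ih =>
      intro hd
      have e1 := hc.D (b - (d + 1)) (b + 1 + d) (by omega) (by omega) (by omega)
      rw [hv (b - (d + 1)) (b + 1 + d) (by omega) (by omega) (by omega)] at e1
      have e2 : b - (d + 1) + 1 = b - d := by omega
      rw [e2] at e1
      have e3 : b + 1 + (d + 1) = b + 1 + d + 1 := by omega
      rw [e3]
      intro e4
      rw [e4, add_zero] at e1
      exact ih (by omega) e1.symm
  have h3 : c i (2 * b + 1 - i) ≠ 0 := by
    have := h2 (b - i) le_rfl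
    have e1 : b - (b - i) = i := by omega
    have e2 : b + 1 + (b - i) = 2 * b + 1 - i := by omega
    rwa [e1, e2] at this
  set k0 := 2 * b + 1 - 2 * i with hk0
  have hf0 : ∀ k, k < k0 → c i (i + k) = 0 := fun k hk => hv i (i + k) le_rfl (by omega) (by omega)
  have hf1 : ∀ k, k0 + h ≤ k → k < k0 + 2 * h → c i (i + k) = 0 := by
    intro k hk1 hk2
    have e := h1 (k - (k0 + h)) (by omega)
    have e2 : 2 * b + 1 + q + (k - (k0 + h)) = i + k := by omega
    rwa [e2] at e
  -- the coefficients
  set a : ℕ → ZMod p := fun r => (-1) ^ (k0 + r) * c i (i + (k0 + r)) * (((k0 + r).choose k0 : ℕ) : ZMod p)⁻¹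
    with ha
  have key : ∀ t, t < h → ∑ r ∈ range h, a r * ((h + t).choose r : ZMod p) = 0 := by
    intro t ht
    set n := k0 + (h + t) with hn
    have e1 := Dexp hc n i le_rfl (by omega)
    have e2 := hc.skew (i + n) i (by omega) le_rfl (by omega)
    rw [e2, hf1 n (by omega) (by omega), neg_zero] at e1
    have e3 : ∑ k ∈ range (n + 1), (-1) ^ k * (n.choose k : ZMod p) * c i (i + k) =
        ∑ k ∈ Ico k0 (k0 + h), (-1) ^ k * (n.choose k : ZMod p) * c i (i + k) := by
      symm
      refine sum_subset (fun k hk => ?_) (fun k hk hk' => ?_)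
      · rw [mem_Ico] at hk
        rw [mem_range]
        omega
      · rw [mem_range] at hk
        rw [mem_Ico] at hk'
        rcases lt_or_ge k k0 with h5 | h5
        · rw [hf0 k h5, mul_zero]
        · rw [hf1 k (by omega) (by omega), mul_zero]
    rw [e3, sum_Ico_eq_sum_range, Nat.add_sub_cancel_left] at e1
    have e4 : ∑ r ∈ range h, (-1) ^ (k0 + r) * (n.choose (k0 + r) : ZMod p) * c i (i + (k0 + r)) =
        (n.choose k0 : ZMod p) * ∑ r ∈ range h, a r * ((h + t).choose r : ZMod p) := by
      rw [mul_sum]
      refine sum_congr rfl fun r hr => ?_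
      rw [mem_range] at hr
      have e5 := Nat.choose_mul (n := n) (k := k0 + r) (s := k0) (by omega)
      have e6 : n - k0 = h + t := by omega
      have e7 : k0 + r - k0 = r := by omega
      rw [e6, e7] at e5
      have e8 : (n.choose (k0 + r) : ZMod p) * (((k0 + r).choose k0 : ℕ) : ZMod p) =
          (n.choose k0 : ZMod p) * ((h + t).choose r : ZMod p) := by
        exact_mod_cast congrArg (Nat.cast (R := ZMod p)) e5
      have e9 : (((k0 + r).choose k0 : ℕ) : ZMod p) ≠ 0 := choose_ne hp (by omega) (by omega)
      rw [ha]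
      simp only
      have e10 : (n.choose (k0 + r) : ZMod p) =
          (n.choose k0 : ZMod p) * ((h + t).choose r : ZMod p) * (((k0 + r).choose k0 : ℕ) : ZMod p)⁻¹ := by
        rw [← e8, mul_assoc, mul_inv_cancel₀ e9, mul_one]
      rw [e10]
      ring
    rw [e4] at e1
    rcases mul_eq_zero.1 e1.symm with e5 | e5
    · exact absurd e5 (choose_ne hp (by omega) (by omega))
    · exact e5
  have h0 := vand h a h key 0 (by omega)
  rw [ha] at h0
  simp only [add_zero, Nat.choose_self, Nat.cast_one, inv_one, mul_one] at h0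
  rcases mul_eq_zero.1 h0 with h4 | h4
  · exact absurd h4 (pow_ne_zero _ (neg_ne_zero.2 one_ne_zero))
  · refine h3 ?_
    have e2 : i + k0 = 2 * b + 1 - i := by omega
    rwa [e2] at h4

end H436NM
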