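import Pool.Agent.H436R2.NM.Defs

/-! Task B1 (helper487): Blackburn's argument, low levels. -/

set_option autoImplicit false

open scoped commutatorElement

universe u

namespace H436NM

theorem B1_arr (hD2 : D2.{u}) (hE : E1.{u} ∧ E2.{u} ∧ E3.{u} ∧ E4.{u} ∧ F0.{u} ∧ F1)
    (G : Type u) [Group G] (p n i N : ℕ) (hMC : MC p n G) (hi : 3 ≤ i) (hm : i + 1 ≤ N)
    (hmn : N + 1 ≤ n) (hC : ∀ j, 2 ≤ j → j < i → ∀ g, Cen G 2 g → Cen G j g) (s : G)
    (hU : Unif G (N + 1) s) (hs : ¬ Cen G 2 s) (g : G) (hg : Cen G 2 g) (hgi : ¬ Cen G i g) :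
    ∃ c : ℕ → ℕ → ZMod p, Arr p 0 1 N c ∧ (∀ j, 1 ≤ j → j < i → c j 1 = 0) ∧ c i 1 ≠ 0 := by
  obtain ⟨P, hP, lc, hGD0⟩ := hD2 G p n (N + 1) s hMC (by omega) hmn hU hs
  obtain ⟨hE1, hE2, hE3, hE4, -, -⟩ := hE
  obtain ⟨Γ, hΓ1, hΓj, hGD⟩ : ∃ Γ : ℕ → Subgroup G, (∀ y, y ∈ Γ 1 ↔ Cen G 2 y) ∧
      (∀ j, 2 ≤ j → Γ j = gam G j) ∧ GD 1 p (N + 1) Γ s lc := by
    refine ⟨_, ?_, ?_, hGD0⟩
    · intro y
      simpa using hP y
    · intro j hj
      have h : ¬ j ≤ 1 := by omega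
      simp [h]
  have hdeg : Deg Γ (N + 1) 1 0 := fun j l h1 h2 _ => hGD.comm j l h1 h2
  obtain ⟨c, hc⟩ := hE1 G 1 p (N + 1) 1 0 Γ s lc hMC.pr hGD le_rfl le_rfl hdeg
  obtain ⟨sk, dg⟩ := hE2 G 1 p (N + 1) 1 0 Γ s lc c hMC.pr hGD le_rfl le_rfl hdeg hc
  have hDr := hE3 G 1 p (N + 1) 1 0 Γ s lc c hMC.pr hGD le_rfl le_rfl hdeg hc
  have hJ := hE4 G 1 p (N + 1) 1 0 Γ s lc c hMC.pr hGD le_rfl le_rfl hdeg hc
  refine ⟨c, ⟨?_, ?_, ?_, ?_⟩, ?_, ?_⟩
  · intro j l h1 h2 h3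
    exact sk j l h1 h2 (by omega)
  · intro j h1 h2
    exact dg j h1 (by omega)
  · intro j l h1 h2 h3
    exact hDr j l h1 h2 (by omega)
  · intro j k l h1 h2 h3 h4
    exact hJ j k l h1 h2 h3 (by omega)
  · intro j h1 h2
    rcases h1.eq_or_lt with h1 | h1
    · subst h1
      exact dg 1 le_rfl (by omega)
    · obtain ⟨x, hx, hx1⟩ := hGD.lc_surj j (by omega) (by omega)
      obtain ⟨y, hy, hy1⟩ := hGD.lc_surj 1 le_rfl (by omega)
      have h3 := hc j 1 (by omega) le_rfl (by omega) x hx y hy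
      rw [hx1, hy1, mul_one, mul_one] at h3
      have h4 : Cen G j y := hC j (by omega) h2 y ((hΓ1 y).1 hy)
      have h5 : ⁅x, y⁆ ∈ Γ (j + 1 + 1) := by
        rw [hΓj _ (by omega)]
        exact h4 x (by rw [hΓj j (by omega)] at hx; exact hx)
      have h6 : ⁅x, y⁆ ∈ Γ (j + 1) :=
        hGD.comm j 1 (by omega) le_rfl (Subgroup.commutator_mem_commutator hx hy)
      have h7 := (hGD.lc_ker (j + 1) (by omega) (by omega) _ h6).2 h5
      rw [← h3]
      exact h7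
  · intro h0
    apply hgi
    intro x hx
    have hx' : x ∈ Γ i := by rw [hΓj i (by omega)]; exact hx
    have hg' : g ∈ Γ 1 := (hΓ1 g).2 hg
    have h3 := hc i 1 (by omega) le_rfl (by omega) x hx' g hg'
    rw [h0, zero_mul, zero_mul] at h3
    have h6 : ⁅x, g⁆ ∈ Γ (i + 1) :=
      hGD.comm i 1 (by omega) le_rfl (Subgroup.commutator_mem_commutator hx' hg')
    have h7 := (hGD.lc_ker (i + 1) (by omega) (by omega) _ h6).1 h3
    rw [hΓj _ (by omega)] at h7
    exact h7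

theorem tB1 : B1.{u} := by
  intro hBLA hBLO hD2 hE hU1 hU2 hG3 G _ p n i hMC hi hip hin hC g hg
  by_contra hgi
  have hp := hMC.pr.two_le
  have hG := hG3 G p n hMC
  have hnot : ∀ s : G, (∀ x ∈ gam G 2, x ∉ gam G (2 + 1) → ⁅x, s⁆ ∉ gam G (2 + 2)) →
      ¬ Cen G 2 s := by
    intro s h hc
    have h1 := hG.2.1 2 (by omega) (by omega)
    obtain ⟨x, hx, hx2⟩ := SetLike.not_le_iff_exists.1 h1
    exact h x hx hx2 (hc x hx)
  rcases Nat.even_or_odd i with he | ho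
  · have hp3 : 3 ≤ p := by
      obtain ⟨r, hr⟩ := he
      omega
    obtain ⟨s, hs⟩ := hU1 G p n hMC {2, i, i + 1} (Finset.card_le_three.trans hp3) (by
      intro j hj
      simp only [Finset.mem_insert, Finset.mem_singleton] at hj
      omega)
    have hs2 := hnot s (hs 2 (by simp))
    have hU : Unif G (i + 2 + 1) s := by
      intro j h1 h2 x hx hx2
      by_cases hji : j < i
      · exact hU2 G p n hMC j h1 (by omega) (hC j h1 hji) s hs2 x hx hx2
      · exact hs j (by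
          simp only [Finset.mem_insert, Finset.mem_singleton]
          omega) x hx hx2
    obtain ⟨c, hA, h0, h1⟩ := B1_arr hD2 hE G p n i (i + 2) hMC hi (by omega) (by omega) hC s hU
      hs2 g hg hgi
    have h9 := hBLA p i c hMC.pr hA hi h0 h1
    omega
  · obtain ⟨s, hs⟩ := hU1 G p n hMC {2, i} (Finset.card_le_two.trans hp) (by
      intro j hj
      simp only [Finset.mem_insert, Finset.mem_singleton] at hj
      omega)
    have hs2 := hnot s (hs 2 (by simp))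
    have hU : Unif G (i + 1 + 1) s := by
      intro j h1 h2 x hx hx2
      by_cases hji : j < i
      · exact hU2 G p n hMC j h1 (by omega) (hC j h1 hji) s hs2 x hx hx2
      · exact hs j (by
          simp only [Finset.mem_insert, Finset.mem_singleton]
          omega) x hx hx2
    obtain ⟨c, hA, h0, h1⟩ := B1_arr hD2 hE G p n i (i + 1) hMC hi (by omega) (by omega) hC s hU
      hs2 g hg hgi
    exact h1 (hBLO p i c hMC.pr hA hi ho h0)

end H436NM
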