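import Pool.Agent.H436R2.NM.Defs

/-! B2: Blackburn, high levels -/

open H436NM
open scoped commutatorElement

universe u

namespace H436NM.B2aux

variable {G : Type u} [Group G]

theorem gam_anti {a b : ℕ} (h : a ≤ b) : gam G b ≤ gam G a := by
  unfold gam
  exact Subgroup.lowerCentralSeries_antitone _ (by omega)

instance gam_normal (j : ℕ) : (gam G j).Normal := by
  unfold gam
  infer_instance

/-- if `a g a⁻¹ = z g` and `z` commutes with `a` and `z^p = 1`, then `a^p` commutes with `g` -/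
theorem pow_comm {Q : Type*} [Group Q] {a g z : Q} (h1 : a * g * a⁻¹ = z * g)
    (h2 : a * z = z * a) (k : ℕ) : a ^ k * g * (a ^ k)⁻¹ = z ^ k * g := by
  induction k with
  | zero => simp
  | succ k ih =>
    have h3 : a * z ^ k = z ^ k * a := by
      have : Commute a z := h2
      exact this.pow_right k
    calc a ^ (k + 1) * g * (a ^ (k + 1))⁻¹ = a * (a ^ k * g * (a ^ k)⁻¹) * a⁻¹ := by
          rw [pow_succ']; group
      _ = a * (z ^ k * g) * a⁻¹ := by rw [ih]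
      _ = (a * z ^ k) * g * a⁻¹ := by group
      _ = (z ^ k * a) * g * a⁻¹ := by rw [h3]
      _ = z ^ k * (a * g * a⁻¹) := by group
      _ = z ^ k * (z * g) := by rw [h1]
      _ = z ^ (k + 1) * g := by rw [pow_succ]; group

theorem mk_comm_of_mem {K : Subgroup G} [K.Normal] {x y : G} (h : ⁅x, y⁆ ∈ K) :
    (x : G ⧸ K) * (y : G ⧸ K) = (y : G ⧸ K) * (x : G ⧸ K) := by
  have h1 : ((⁅x, y⁆ : G) : G ⧸ K) = 1 := (QuotientGroup.eq_one_iff _).2 h
  have h2 : ⁅(x : G ⧸ K), (y : G ⧸ K)⁆ = 1 := by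
    rw [← h1]; rfl
  exact commutatorElement_eq_one_iff_mul_comm.1 h2

theorem mem_of_mk_comm {K : Subgroup G} [K.Normal] {x y : G}
    (h : (x : G ⧸ K) * (y : G ⧸ K) = (y : G ⧸ K) * (x : G ⧸ K)) : ⁅x, y⁆ ∈ K := by
  have h2 : ⁅(x : G ⧸ K), (y : G ⧸ K)⁆ = 1 := commutatorElement_eq_one_iff_mul_comm.2 h
  rw [← QuotientGroup.eq_one_iff]
  rw [← h2]; rfl

end H436NM.B2aux

open H436NM.B2aux in
theorem H436NM.tB2 : H436NM.B2.{u} := by
  intro hP4 hP hU1 hU2 hG3 G _ p n i hMC hi3 hip hin hC g hg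
  obtain ⟨hP1, hP2, hP3, hG2, hG5⟩ := hP
  have hp2 : 2 ≤ p := hMC.pr.two_le
  obtain ⟨hbot, hne, hgen, hinj, hpow⟩ := hG3 G p n hMC
  -- the element `s`
  obtain ⟨s, hs⟩ := hU1 G p n hMC {2, i} (le_trans Finset.card_le_two hp2) (by
    intro j hj
    simp only [Finset.mem_insert, Finset.mem_singleton] at hj
    omega)
  obtain ⟨x2, hx2, hx2'⟩ := SetLike.not_le_iff_exists.1 (hne 2 (by omega) (by omega))
  have hs2 : ¬ Cen G 2 s := by
    intro h
    exact hs 2 (by simp) x2 hx2 hx2' (h x2 hx2)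
  have hunif : Unif G (i + 2) s := by
    intro j hj2 hji x hx hx'
    rcases Nat.lt_or_ge j i with h | h
    · exact hU2 G p n hMC j hj2 (by omega) (hC j hj2 h) s hs2 x hx hx'
    · have hji' : j = i := by omega
      subst hji'
      exact hs j (by simp) x hx hx'
  obtain ⟨j, hj⟩ : ∃ j, j + p = i + 1 := ⟨i + 1 - p, by omega⟩
  have hj3 : 3 ≤ j := by omega
  obtain ⟨a, ha, ha'⟩ := SetLike.not_le_iff_exists.1 (hne j (by omega) (by omega))
  have hP4' := hP4 hP1 hP2 hP3 hG2 hG3 hG5 G p n (i + 2) s hMC (by omega) (by omega) hunif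
  obtain ⟨h1, h2⟩ := hP4' j hj3 (by omega) a ha
  have hap : a ^ p ∈ gam G i := h1 i (by omega) (by omega)
  have hap' : a ^ p ∉ gam G (i + 1) := by
    have := h2 (by omega) ha'
    rwa [hj] at this
  -- `z = [a,g]`
  have hz : ⁅a, g⁆ ∈ gam G (j + 2) := by
    by_cases hj2 : j < i
    · exact hC j (by omega) hj2 g hg a ha
    · omega
  have hzp : ⁅a, g⁆ ^ p ∈ gam G (i + 2) :=
    (hP4' (j + 2) (by omega) (by omega) _ hz).1 (i + 2) (by omega) (by omega)
  have haz : ⁅a, ⁅a, g⁆⁆ ∈ gam G (i + 2) := by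
    have h3 : ⁅a, ⁅a, g⁆⁆ ∈ ⁅gam G j, gam G (j + 2)⁆ := Subgroup.commutator_mem_commutator ha hz
    exact gam_anti (by omega) (hG2 G j (j + 2) (by omega) (by omega) h3)
  have hcomm : ((a ^ p : G) : G ⧸ gam G (i + 2)) * (g : G ⧸ gam G (i + 2)) =
      (g : G ⧸ gam G (i + 2)) * ((a ^ p : G) : G ⧸ gam G (i + 2)) := by
    have e1 : (a : G ⧸ gam G (i + 2)) * (g : G ⧸ gam G (i + 2)) * (a : G ⧸ gam G (i + 2))⁻¹ =
        ((⁅a, g⁆ : G) : G ⧸ gam G (i + 2)) * (g : G ⧸ gam G (i + 2)) := by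
      rw [← QuotientGroup.mk_mul, ← QuotientGroup.mk_inv, ← QuotientGroup.mk_mul,
        ← QuotientGroup.mk_mul]
      congr 1
      rw [commutatorElement_def]
      group
    have e2 := mk_comm_of_mem haz
    have e3 := pow_comm e1 e2 p
    have e4 : ((⁅a, g⁆ : G) : G ⧸ gam G (i + 2)) ^ p = 1 := by
      rw [← QuotientGroup.mk_pow]
      exact (QuotientGroup.eq_one_iff _).2 hzp
    rw [e4, one_mul, mul_inv_eq_iff_eq_mul] at e3
    rw [QuotientGroup.mk_pow]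
    exact e3
  -- conclusion
  intro x hx
  obtain ⟨t, ht⟩ := hgen i (by omega) (by omega) (a ^ p) hap hap' x hx
  apply mem_of_mk_comm
  have hy : ⁅x * ((a ^ p) ^ t)⁻¹, g⁆ ∈ gam G (i + 2) := by
    have h3 : ⁅x * ((a ^ p) ^ t)⁻¹, g⁆ ∈ ⁅gam G (i + 1), gam G 1⁆ :=
      Subgroup.commutator_mem_commutator ht (by simp [gam])
    exact hG2 G (i + 1) 1 (by omega) le_rfl h3
  have e5 : Commute ((x * ((a ^ p) ^ t)⁻¹ : G) : G ⧸ gam G (i + 2)) (g : G ⧸ gam G (i + 2)) :=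
    mk_comm_of_mem hy
  have e6 : Commute ((a ^ p : G) : G ⧸ gam G (i + 2)) (g : G ⧸ gam G (i + 2)) := hcomm
  have e7 : (x : G ⧸ gam G (i + 2)) = ((x * ((a ^ p) ^ t)⁻¹ : G) : G ⧸ gam G (i + 2)) *
      ((a ^ p : G) : G ⧸ gam G (i + 2)) ^ t := by
    rw [← QuotientGroup.mk_pow, ← QuotientGroup.mk_mul]
    congr 1
    group
  rw [e7]
  exact e5.mul_left (e6.pow_left t)
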