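import Pool.Agent.H436R2.NM.Defs

open H436NM

open scoped commutatorElement

universe u

theorem H436NM.tB3 : H436NM.B3.{u} := by
  intro hU1 hU2 hB G _ p n hMC
  rcases Nat.lt_or_ge n 4 with hn | hn
  · refine ⟨1, ?_⟩
    intro j hj hjn
    omega
  · have hcen : ∀ i, 2 ≤ i → i + 3 ≤ n → ∀ g, Cen G 2 g → Cen G i g := by
      intro i
      induction i using Nat.strong_induction_on with
      | _ i ih =>
        intro h2 hi
        rcases Nat.lt_or_ge 2 i with h3 | h3
        · refine hB G p n i hMC h3 hi ?_
          intro j hj hji
          exact ih j hji hj (by omega)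
        · have : i = 2 := by omega
          subst this
          intro g hg
          exact hg
    obtain ⟨s, hs⟩ := hU1 G p n hMC {2, n - 2}
      (le_trans (Finset.card_le_two) hMC.pr.two_le) (by
        intro j hj
        simp only [Finset.mem_insert, Finset.mem_singleton] at hj
        omega)
    have hx : ∃ x ∈ gam G 2, x ∉ gam G 3 := by
      by_contra hcon
      push Not at hcon
      have hle : gam G 2 ≤ gam G 3 := hcon
      have hd := Subgroup.card_dvd_of_le hle
      rw [hMC.card_gam 2 (le_refl _) (by omega), hMC.card_gam 3 (by omega) (by omega)] at hd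
      have := (Nat.pow_dvd_pow_iff_le_right hMC.pr.one_lt).1 hd
      omega
    have hs2 : ¬ Cen G 2 s := by
      intro hc
      obtain ⟨x, hx2, hx3⟩ := hx
      exact hs 2 (by simp) x hx2 hx3 (hc x hx2)
    refine ⟨s, ?_⟩
    intro j hj hjn
    by_cases hjl : j = n - 2
    · exact hs j (by simp [hjl])
    · exact hU2 G p n hMC j hj hjn (hcen j hj (by omega)) s hs2
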