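import Pool.Agent.H436R2.NM.Defs

/-!
# Task BLA: array form of Blackburn's argument
-/

open H436NM
open scoped commutatorElement

theorem H436NM.tBLA : H436NM.BLA := by
  intro p i c hp hA hi h0 hL
  haveI : Fact p.Prime := ⟨hp⟩
  -- step 1
  have s1 : ∀ l, 1 ≤ l → ∀ j, 1 ≤ j → j + l ≤ i → c j l = 0 := by
    intro l hl
    induction l, hl using Nat.le_induction with
    | base =>
      intro j hj hjl
      exact h0 j hj (by omega)
    | succ l hl ih =>
      intro j hj hjl
      have h1 := hA.D j l hj hl (by omega)
      rw [ih j hj (by omega), ih (j + 1) (by omega) (by omega)] at h1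
      rw [zero_add] at h1
      exact h1.symm
  -- step 2
  have s2 : ∀ t j, j + t = i → 1 ≤ j → c j (1 + t) = (-1) ^ t * c i 1 := by
    intro t
    induction t with
    | zero =>
      intro j hj _
      have : j = i := by omega
      subst this
      simp
    | succ t ih =>
      intro j hj hj1
      have h1 := hA.D j (1 + t) hj1 (by omega) (by omega)
      rw [s1 (1 + t) (by omega) j hj1 (by omega), ih (j + 1) (by omega) (by omega)] at h1
      have h2 : 1 + t + 1 = 1 + (t + 1) := by omega
      rw [h2] at h1
      rw [pow_succ]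
      linear_combination -h1
  -- step 3
  rcases Nat.even_or_odd' i with ⟨h, hh | hh⟩
  · -- even case
    have hh2 : 2 ≤ h := by omega
    -- step 4
    have h4 := hA.jac 1 2 (i - 1) (by omega) (by omega) (by omega) (by omega)
    have e1 : c 1 2 = 0 := s1 2 (by omega) 1 (by omega) (by omega)
    have e2 : c (i - 1) 1 = 0 := h0 (i - 1) (by omega) (by omega)
    have e3 : c 2 (i - 1) = (-1) ^ (i - 2) * c i 1 := by
      have h5 := s2 (i - 2) 2 (by omega) (by omega)
      have h6 : 1 + (i - 2) = i - 1 := by omega
      rw [h6] at h5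
      exact h5
    have h7 : 2 + (i - 1) + 0 = i + 1 := by omega
    rw [e1, e2, h7, zero_mul, zero_mul, zero_add, add_zero, e3] at h4
    have hne : (-1 : ZMod p) ^ (i - 2) * c i 1 ≠ 0 :=
      mul_ne_zero (pow_ne_zero _ (neg_ne_zero.mpr one_ne_zero)) hL
    have e4 : c (i + 1) 1 = 0 := (mul_eq_zero.mp h4).resolve_left hne
    -- step 5
    have s5 : ∀ t j, j + t = i + 1 → 1 ≤ j → c j (1 + t) = -((-1) ^ t * t * c i 1) := by
      intro t
      induction t with
      | zero =>
        intro j hj _
        have : j = i + 1 := by omega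
        subst this
        simp [e4]
      | succ t ih =>
        intro j hj hj1
        have h8 := hA.D j (1 + t) hj1 (by omega) (by omega)
        rw [s2 t j (by omega) hj1, ih (j + 1) (by omega) (by omega)] at h8
        have h9 : 1 + t + 1 = 1 + (t + 1) := by omega
        rw [h9] at h8
        rw [pow_succ]
        push_cast
        linear_combination -h8
    have h10 := s5 h (h + 1) (by omega) (by omega)
    have h11 : 1 + h = h + 1 := by omega
    rw [h11, hA.diag (h + 1) (by omega) (by omega)] at h10
    have h12 : ((-1 : ZMod p) ^ h * (h : ZMod p)) * c i 1 = 0 := by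
      linear_combination h10
    have h13 := (mul_eq_zero.mp h12).resolve_right hL
    have h14 : (h : ZMod p) = 0 :=
      (mul_eq_zero.mp h13).resolve_left (pow_ne_zero _ (neg_ne_zero.mpr one_ne_zero))
    rw [ZMod.natCast_eq_zero_iff] at h14
    have h15 := Nat.le_of_dvd (by omega) h14
    omega
  · -- odd case
    exfalso
    have h5 := s2 h (h + 1) (by omega) (by omega)
    have h6 : 1 + h = h + 1 := by omega
    rw [h6, hA.diag (h + 1) (by omega) (by omega)] at h5
    have hne : (-1 : ZMod p) ^ h * c i 1 ≠ 0 :=
      mul_ne_zero (pow_ne_zero _ (neg_ne_zero.mpr one_ne_zero)) hL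
    exact hne h5.symm
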