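import Pool.Agent.H436R2.NM.Defs

/-! Task BLO: array form of Blackburn's argument, odd case. -/

open H436NM

theorem H436NM.BLO_low {p i : ℕ} {c : ℕ → ℕ → ZMod p} (hA : Arr p 0 1 (i + 1) c)
    (h0 : ∀ j, 1 ≤ j → j < i → c j 1 = 0) :
    ∀ l, 1 ≤ l → ∀ j, 1 ≤ j → j + l ≤ i → c j l = 0 := by
  intro l hl
  induction l, hl using Nat.le_induction with
  | base =>
    intro j hj hjl
    exact h0 j hj (by omega)
  | succ l hl ih =>
    intro j hj hjl
    have h1 := hA.D j l hj hl (by omega)
    rw [ih j hj (by omega), ih (j + 1) (by omega) (by omega)] at h1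
    rw [zero_add] at h1
    exact h1.symm

theorem H436NM.tBLO : H436NM.BLO := by
  intro p i c _ hA hi hodd h0
  obtain ⟨r, hr⟩ := hodd
  have hlow := H436NM.BLO_low hA h0
  have key : ∀ t, t ≤ r → c (i - t) (1 + t) = 0 → c i 1 = 0 := by
    intro t
    induction t with
    | zero =>
      intro _ h
      simpa using h
    | succ t ih =>
      intro ht h
      apply ih (by omega)
      have h1 := hA.D (i - (t + 1)) (1 + t) (by omega) (by omega) (by omega)
      rw [hlow (1 + t) (by omega) (i - (t + 1)) (by omega) (by omega)] at h1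
      have e1 : i - (t + 1) + 1 = i - t := by omega
      have e2 : 1 + t + 1 = 1 + (t + 1) := by omega
      rw [e1, e2, h, add_zero] at h1
      exact h1.symm
  apply key r le_rfl
  have e : i - r = 1 + r := by omega
  rw [e]
  exact hA.diag (1 + r) (by omega) (by omega)
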