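import Pool.Agent.H436R2.NM.Defs

/-! Task C1: irreducible representation over a linear character of a subgroup. -/

set_option autoImplicit false

open H436NM
open scoped commutatorElement

universe u

theorem H436NM.tC1 : H436NM.C1.{u} := by
  intro G _ _ H mu
  classical
  -- right translations of functions
  let R : G → ((G → ℂ) →ₗ[ℂ] (G → ℂ)) := fun g =>
    { toFun := fun f x => f (x * g)
      map_add' := fun f f' => rfl
      map_smul' := fun c f => rfl }
  have hRa : ∀ (g : G) (f : G → ℂ) (x : G), R g f x = f (x * g) := fun _ _ _ => rfl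
  have hR1 : ∀ f : G → ℂ, R 1 f = f := by
    intro f
    funext x
    rw [hRa, mul_one]
  have hRm : ∀ (g h : G) (f : G → ℂ), R (g * h) f = R g (R h f) := by
    intro g h f
    funext x
    rw [hRa, hRa, hRa, mul_assoc]
  -- the induced module
  let W : Submodule ℂ (G → ℂ) :=
    { carrier := {f | ∀ (h : G) (hh : h ∈ H) (x : G), f (h * x) = ((mu ⟨h, hh⟩ : ℂˣ) : ℂ) * f x}
      add_mem' := by
        intro f f' hf hf' h hh x
        rw [Pi.add_apply, Pi.add_apply, hf h hh x, hf' h hh x, mul_add]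
      zero_mem' := by
        intro h hh x
        rw [Pi.zero_apply, Pi.zero_apply, mul_zero]
      smul_mem' := by
        intro c f hf h hh x
        rw [Pi.smul_apply, Pi.smul_apply, hf h hh x, smul_eq_mul, smul_eq_mul]
        ring }
  have hWmem : ∀ f : G → ℂ, f ∈ W ↔
      ∀ (h : G) (hh : h ∈ H) (x : G), f (h * x) = ((mu ⟨h, hh⟩ : ℂˣ) : ℂ) * f x := fun _ => Iff.rfl
  have hWR : ∀ (g : G) (f : G → ℂ), f ∈ W → R g f ∈ W := by
    intro g f hf
    rw [hWmem] at hf ⊢
    intro h hh x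
    rw [hRa, hRa, mul_assoc, hf h hh]
  have hW0 : W ≠ ⊥ := by
    intro hbot
    let f0 : G → ℂ := fun x => if hx : x ∈ H then ((mu ⟨x, hx⟩ : ℂˣ) : ℂ) else 0
    have hf0 : f0 ∈ W := by
      rw [hWmem]
      intro h hh x
      by_cases hx : x ∈ H
      · have hhx : h * x ∈ H := H.mul_mem hh hx
        have e1 : f0 (h * x) = ((mu ⟨h * x, hhx⟩ : ℂˣ) : ℂ) := dif_pos hhx
        have e2 : f0 x = ((mu ⟨x, hx⟩ : ℂˣ) : ℂ) := dif_pos hx
        have e3 : (⟨h * x, hhx⟩ : H) = ⟨h, hh⟩ * ⟨x, hx⟩ := rfl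
        rw [e1, e2, e3, map_mul, Units.val_mul]
      · have hhx : h * x ∉ H := fun h' => hx ((H.mul_mem_cancel_left hh).1 h')
        have e1 : f0 (h * x) = 0 := dif_neg hhx
        have e2 : f0 x = 0 := dif_neg hx
        rw [e1, e2, mul_zero]
    rw [hbot, Submodule.mem_bot] at hf0
    have h1 : f0 1 = ((mu ⟨1, H.one_mem⟩ : ℂˣ) : ℂ) := dif_pos H.one_mem
    rw [hf0, Pi.zero_apply] at h1
    exact (mu ⟨1, H.one_mem⟩ : ℂˣ).ne_zero h1.symm
  -- a minimal invariant subspace
  let P : ℕ → Prop := fun d => ∃ V : Submodule ℂ (G → ℂ), V ≤ W ∧ V ≠ ⊥ ∧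
    (∀ g f, f ∈ V → R g f ∈ V) ∧ Module.finrank ℂ V = d
  have hP : ∃ d, P d := ⟨_, W, le_rfl, hW0, hWR, rfl⟩
  obtain ⟨V, hVW, hV0, hVR, hVd⟩ := Nat.find_spec hP
  have hmin : ∀ V' : Submodule ℂ (G → ℂ), V' ≤ V → V' ≠ ⊥ → (∀ g f, f ∈ V' → R g f ∈ V') →
      V' = V := by
    intro V' h1 h2 h3
    have h4 : Nat.find hP ≤ Module.finrank ℂ V' :=
      Nat.find_min' hP ⟨V', h1.trans hVW, h2, h3, rfl⟩
    exact Submodule.eq_of_le_of_finrank_le h1 (by rw [hVd]; exact h4)
  clear hVd
  -- dimension of W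
  have hdim : Module.finrank ℂ V ≤ H.index := by
    let L : V →ₗ[ℂ] (G ⧸ H → ℂ) :=
      { toFun := fun f q => (f : G → ℂ) (q.out)⁻¹
        map_add' := fun f f' => rfl
        map_smul' := fun c f => rfl }
    have hL : Function.Injective L := by
      rw [injective_iff_map_eq_zero]
      intro f hf
      apply Subtype.ext
      funext x
      have hfW := (hWmem _).1 (hVW f.2)
      have h1 : (f : G → ℂ) ((x⁻¹ : G) : G ⧸ H).out⁻¹ = 0 := congrFun hf ((x⁻¹ : G) : G ⧸ H)
      have h2 : ((((x⁻¹ : G) : G ⧸ H).out : G) : G ⧸ H) = ((x⁻¹ : G) : G ⧸ H) :=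
        QuotientGroup.out_eq' _
      have h3 : (x⁻¹)⁻¹ * ((x⁻¹ : G) : G ⧸ H).out ∈ H := QuotientGroup.eq.1 h2.symm
      have h4 := hfW _ h3 (((x⁻¹ : G) : G ⧸ H).out⁻¹)
      rw [h1, mul_zero, mul_assoc, mul_inv_cancel, mul_one, inv_inv] at h4
      exact h4
    have h1 := LinearMap.finrank_le_finrank_of_injective hL
    rw [Module.finrank_fintype_fun_eq_card, ← Nat.card_eq_fintype_card] at h1
    exact h1
  let e : V ≃ₗ[ℂ] (Fin (Module.finrank ℂ V) → ℂ) := (Module.finBasis ℂ V).equivFun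
  let ρ : Representation ℂ G (Fin (Module.finrank ℂ V) → ℂ) :=
    { toFun := fun g => e.toLinearMap ∘ₗ ((R g).restrict (hVR g)) ∘ₗ e.symm.toLinearMap
      map_one' := by
        apply LinearMap.ext
        intro v
        have h1 : (R 1).restrict (hVR 1) (e.symm v) = e.symm v := by
          apply Subtype.ext
          exact hR1 _
        show e ((R 1).restrict (hVR 1) (e.symm v)) = v
        rw [h1, LinearEquiv.apply_symm_apply]
      map_mul' := by
        intro g h
        apply LinearMap.ext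
        intro v
        show e ((R (g * h)).restrict (hVR (g * h)) (e.symm v)) =
          e ((R g).restrict (hVR g) (e.symm (e ((R h).restrict (hVR h) (e.symm v)))))
        rw [LinearEquiv.symm_apply_apply]
        apply congrArg e
        apply Subtype.ext
        exact hRm g h _ }
  have hρ : ∀ (g : G) (v : V), ρ g (e v) = e ((R g).restrict (hVR g) v) := by
    intro g v
    show e ((R g).restrict (hVR g) (e.symm (e v))) = _
    rw [LinearEquiv.symm_apply_apply]
  refine ⟨Module.finrank ℂ V, ρ, ?_, hdim, ?_⟩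
  · -- irreducibility
    obtain ⟨f, hfV, hf0⟩ := Submodule.exists_mem_ne_zero_of_ne_bot hV0
    have hnt : (⊥ : Subrepresentation ρ) ≠ ⊤ := by
      intro h
      have h1 : e ⟨f, hfV⟩ ∈ (⊥ : Subrepresentation ρ).toSubmodule := by
        rw [h]
        exact Submodule.mem_top
      have h2 : e ⟨f, hfV⟩ = 0 := (Submodule.mem_bot ℂ).1 h1
      rw [LinearEquiv.map_eq_zero_iff] at h2
      exact hf0 (congrArg Subtype.val h2)
    have : Nontrivial (Subrepresentation ρ) := ⟨⟨⊥, ⊤, hnt⟩⟩
    refine ⟨fun U => ?_⟩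
    let V' : Submodule ℂ (G → ℂ) := (U.toSubmodule.comap e.toLinearMap).map V.subtype
    have hV' : ∀ f : G → ℂ, f ∈ V' ↔ ∃ v : V, e v ∈ U.toSubmodule ∧ (v : G → ℂ) = f := by
      intro f
      exact Submodule.mem_map
    by_cases h0 : V' = ⊥
    · left
      apply Subrepresentation.toSubmodule_injective
      show U.toSubmodule = ⊥
      rw [Submodule.eq_bot_iff]
      intro x hx
      have h1 : ((e.symm x : V) : G → ℂ) ∈ V' :=
        (hV' _).2 ⟨e.symm x, by rw [LinearEquiv.apply_symm_apply]; exact hx, rfl⟩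
      rw [h0, Submodule.mem_bot] at h1
      have h2 : e.symm x = 0 := Subtype.ext h1
      rwa [LinearEquiv.map_eq_zero_iff] at h2
    · right
      have hle : V' ≤ V := by
        intro f hf
        obtain ⟨v, -, rfl⟩ := (hV' f).1 hf
        exact v.2
      have hinv : ∀ g f, f ∈ V' → R g f ∈ V' := by
        intro g f hf
        obtain ⟨v, hv, rfl⟩ := (hV' f).1 hf
        refine (hV' _).2 ⟨(R g).restrict (hVR g) v, ?_, rfl⟩
        rw [← hρ]
        exact U.apply_mem_toSubmodule g hv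
      have heq := hmin V' hle h0 hinv
      apply Subrepresentation.toSubmodule_injective
      show U.toSubmodule = ⊤
      rw [Submodule.eq_top_iff']
      intro x
      have h1 : ((e.symm x : V) : G → ℂ) ∈ V' := by
        rw [heq]
        exact (e.symm x).2
      obtain ⟨v, hv, hv2⟩ := (hV' _).1 h1
      have h2 : v = e.symm x := Subtype.ext hv2
      rw [h2, LinearEquiv.apply_symm_apply] at hv
      exact hv
  · -- the functional
    let φ : (Fin (Module.finrank ℂ V) → ℂ) →ₗ[ℂ] ℂ :=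
      (LinearMap.proj (1 : G)) ∘ₗ V.subtype ∘ₗ e.symm.toLinearMap
    have hφ : ∀ v, φ v = ((e.symm v : V) : G → ℂ) 1 := fun _ => rfl
    refine ⟨φ, ?_, ?_⟩
    · intro h0
      obtain ⟨f, hfV, hf0⟩ := Submodule.exists_mem_ne_zero_of_ne_bot hV0
      apply hf0
      funext x
      have h1 := hφ (e ⟨R x f, hVR x f hfV⟩)
      rw [h0, LinearEquiv.symm_apply_apply, LinearMap.zero_apply] at h1
      have h2 : R x f 1 = f x := by rw [hRa, one_mul]
      rw [← h2]
      exact h1.symm
    · intro h hh v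
      rw [hφ, hφ]
      obtain ⟨w, rfl⟩ := e.surjective v
      rw [hρ, LinearEquiv.symm_apply_apply, LinearEquiv.symm_apply_apply]
      have h1 : (((R h).restrict (hVR h) w : V) : G → ℂ) 1 = (w : G → ℂ) (1 * h) := rfl
      have h2 := (hWmem _).1 (hVW w.2) h hh 1
      rw [h1, one_mul, ← h2, mul_one]
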