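import Pool.Agent.H436R2.NM.Defs

/-! Task C2 (helper73). -/

open H436NM
open scoped commutatorElement

universe u

namespace H436NM.C2aux

theorem lam_comm {G : Type u} [Group G] (N : Subgroup G) (lam : N →* ℂˣ) (w : G)
    (hw : w ∈ ⁅N, N⁆) (hN : w ∈ N) : lam ⟨w, hN⟩ = 1 := by
  have h1 : ⁅N, N⁆ ≤ Subgroup.map N.subtype lam.ker := by
    rw [Subgroup.commutator_le]
    intro a ha b hb
    refine ⟨⁅(⟨a, ha⟩ : N), (⟨b, hb⟩ : N)⁆, ?_, ?_⟩
    · show lam ⁅(⟨a, ha⟩ : N), (⟨b, hb⟩ : N)⁆ = 1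
      rw [map_commutatorElement, commutatorElement_eq_one_iff_mul_comm, mul_comm]
    · simp [commutatorElement_def]
  obtain ⟨z, hz, hzw⟩ := h1 hw
  have h2 : z = ⟨w, hN⟩ := Subtype.ext hzw
  rw [← h2]
  exact hz

theorem indChar_eq {G : Type u} [Group G] [Fintype G] (N : Subgroup G) (lam : N →* ℂˣ)
    (hN : N.Normal) (g : G) (hg : g ∈ ⁅N, N⁆) : indChar N lam g = (N.index : ℂ) := by
  classical
  have hle : ⁅N, N⁆ ≤ N := Subgroup.commutator_le_left N N
  have hnor : (⁅N, N⁆ : Subgroup G).Normal := Subgroup.commutator_normal N N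
  unfold indChar
  have h1 : ∀ x : G,
      (if h : x * g * x⁻¹ ∈ N then ((lam ⟨x * g * x⁻¹, h⟩ : ℂˣ) : ℂ) else 0) = 1 := by
    intro x
    have h2 : x * g * x⁻¹ ∈ ⁅N, N⁆ := hnor.conj_mem g hg x
    rw [dif_pos (hle h2), lam_comm N lam _ h2 (hle h2)]
    rfl
  rw [Finset.sum_congr rfl (fun x _ => h1 x), Finset.sum_const, Finset.card_univ, nsmul_eq_mul,
    mul_one]
  have h3 : (Nat.card N : ℂ) * (N.index : ℂ) = (Fintype.card G : ℂ) := by
    rw [← Nat.card_eq_fintype_card, ← Subgroup.card_mul_index N]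
    push_cast
    rfl
  have h4 : (Nat.card N : ℂ) ≠ 0 := by
    have : Nat.card N ≠ 0 := Nat.card_pos.ne'
    exact_mod_cast this
  rw [← h3, ← mul_assoc, inv_mul_cancel₀ h4, one_mul]

end H436NM.C2aux

theorem H436NM.tC2 : H436NM.C2.{u} := by
  classical
  intro G _ _ d ρ N lam hN hchar
  have hd : d = N.index := by
    have h1 := hchar 1
    rw [C2aux.indChar_eq N lam hN 1 (Subgroup.one_mem _)] at h1
    have h2 : ρ.character 1 = (d : ℂ) := by
      rw [Representation.char_one]
      simp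
    rw [h2] at h1
    exact_mod_cast h1
  refine ⟨hd, fun x hx => ?_⟩
  set K : Subgroup G := ⁅N, N⁆ with hK
  let ρK : Representation ℂ K (Fin d → ℂ) := ρ.comp K.subtype
  have hcard : (Nat.card K : ℂ) ≠ 0 := by
    have : Nat.card K ≠ 0 := Nat.card_pos.ne'
    exact_mod_cast this
  have : Invertible (Nat.card K : ℂ) := invertibleOfNonzero hcard
  have h1 := Representation.card_inv_mul_sum_char_eq_finrank (k := ℂ) (G := K) (ρ := ρK)
  have h2 : ∀ k : K, ρK.character k = (d : ℂ) := by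
    intro k
    have h3 : ρK.character k = ρ.character (k : G) := rfl
    rw [h3, hchar, C2aux.indChar_eq N lam hN _ k.2, hd]
  rw [Finset.sum_congr rfl (fun k _ => h2 k), Finset.sum_const, Finset.card_univ, nsmul_eq_mul,
    ← Nat.card_eq_fintype_card, ← mul_assoc, inv_mul_cancel₀ hcard, one_mul] at h1
  have h4 : Module.finrank ℂ (Representation.invariants ρK) = Module.finrank ℂ (Fin d → ℂ) := by
    have h5 : d = Module.finrank ℂ (Representation.invariants ρK) := by exact_mod_cast h1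
    rw [← h5]
    simp
  have h5 : Representation.invariants ρK = ⊤ := Submodule.eq_top_of_finrank_eq h4
  apply LinearMap.ext
  intro v
  have h6 : v ∈ Representation.invariants ρK := by
    rw [h5]
    exact Submodule.mem_top
  have h7 := (Representation.mem_invariants ρK v).1 h6 ⟨x, hx⟩
  exact h7

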