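import Pool.Agent.H436R2.NM.Defs

/-! Task C3: separation of elements by linear characters. -/

set_option autoImplicit false

open H436NM
open scoped commutatorElement

universe u

theorem H436NM.tC3 : H436NM.C3.{u} := by
  intro H _ _ B hB hcomm z hz
  have hc : ∀ x y : H ⧸ B, x * y = y * x := by
    intro x y
    induction x using QuotientGroup.induction_on with
    | H x =>
      induction y using QuotientGroup.induction_on with
      | H y =>
        rw [← QuotientGroup.mk_mul, ← QuotientGroup.mk_mul, QuotientGroup.eq]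
        have h1 : ⁅y⁻¹, x⁻¹⁆ ∈ commutator H :=
          Subgroup.commutator_mem_commutator (Subgroup.mem_top _) (Subgroup.mem_top _)
        have h2 : (x * y)⁻¹ * (y * x) = ⁅y⁻¹, x⁻¹⁆ := by
          rw [commutatorElement_def]
          group
        rw [h2]
        exact hcomm h1
  let : CommGroup (H ⧸ B) := { (inferInstance : Group (H ⧸ B)) with mul_comm := hc }
  have hz1 : ((z : H) : H ⧸ B) ≠ 1 := by
    intro h
    exact hz ((QuotientGroup.eq_one_iff z).1 h)
  obtain ⟨φ, hφ⟩ := CommGroup.exists_apply_ne_one_of_hasEnoughRootsOfUnity (H ⧸ B) ℂ hz1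
  refine ⟨φ.comp (QuotientGroup.mk' B), fun b hb => ?_, hφ⟩
  have h1 : (QuotientGroup.mk' B) b = 1 := (QuotientGroup.eq_one_iff b).2 hb
  rw [MonoidHom.comp_apply, h1, map_one]
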