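import Pool.Agent.H436R2.NM.Defs

open H436NM
open scoped commutatorElement

universe u

namespace H436NM

namespace C4aux

variable {Q : Type u} [Group Q]

/-- the subgroup of the commutators `[g, x]` with `x` in an abelian normal subgroup -/
def B (A : Subgroup Q) (hA : A.Normal) (hab : ∀ a ∈ A, ∀ b ∈ A, a * b = b * a) (g : Q) :
    Subgroup Q where
  carrier := {y | ∃ x ∈ A, y = ⁅g, x⁆}
  one_mem' := ⟨1, A.one_mem, by simp⟩
  mul_mem' := by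
    rintro _ _ ⟨x, hx, rfl⟩ ⟨x', hx', rfl⟩
    refine ⟨x * x', A.mul_mem hx hx', ?_⟩
    have h1 : ⁅g, x'⁆ ∈ A := by
      rw [commutatorElement_def]
      exact A.mul_mem (hA.conj_mem x' hx' g) (A.inv_mem hx')
    have h2 := hab x hx _ h1
    have h3 : ⁅g, x * x'⁆ = ⁅g, x⁆ * (x * ⁅g, x'⁆ * x⁻¹) := by
      simp only [commutatorElement_def]
      group
    rw [h3, h2]
    group
  inv_mem' := by
    rintro _ ⟨x, hx, rfl⟩
    refine ⟨x⁻¹, A.inv_mem hx, ?_⟩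
    have h1 : g * x * g⁻¹ ∈ A := hA.conj_mem x hx g
    have h2 := hab _ (A.inv_mem h1) x hx
    simp only [commutatorElement_def]
    have h3 : (g * x * g⁻¹ * x⁻¹)⁻¹ = x * (g * x * g⁻¹)⁻¹ := by group
    rw [h3, ← h2]
    group

theorem mem_B {A : Subgroup Q} {hA : A.Normal} {hab : ∀ a ∈ A, ∀ b ∈ A, a * b = b * a} {g y : Q} :
    y ∈ B A hA hab g ↔ ∃ x ∈ A, y = ⁅g, x⁆ := Iff.rfl

theorem pow_mem (A : Subgroup Q) (hA : A.Normal) (hab : ∀ a ∈ A, ∀ b ∈ A, a * b = b * a) (g : Q)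
    (m : ℕ) : ∀ b ∈ A, ⁅g ^ m, b⁆ ∈ B A hA hab g := by
  induction m with
  | zero =>
    intro b _
    rw [pow_zero, commutatorElement_one_left]
    exact Subgroup.one_mem _
  | succ m ih =>
    intro b hb
    have h1 : g ^ m * b * (g ^ m)⁻¹ ∈ A := hA.conj_mem b hb _
    have h2 : ⁅g ^ (m + 1), b⁆ = ⁅g, g ^ m * b * (g ^ m)⁻¹⁆ * ⁅g ^ m, b⁆ := by
      simp only [commutatorElement_def, pow_succ']
      group
    rw [h2]
    exact Subgroup.mul_mem _ ⟨_, h1, rfl⟩ (ih b hb)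

theorem zpow_mem (A : Subgroup Q) (hA : A.Normal) (hab : ∀ a ∈ A, ∀ b ∈ A, a * b = b * a) (g : Q)
    (m : ℤ) (b : Q) (hb : b ∈ A) : ⁅g ^ m, b⁆ ∈ B A hA hab g := by
  obtain ⟨n, rfl | rfl⟩ := Int.eq_nat_or_neg m
  · rw [zpow_natCast]
    exact pow_mem A hA hab g n b hb
  · have h1 : (g ^ n)⁻¹ * b * (g ^ n)⁻¹⁻¹ ∈ A := hA.conj_mem b hb _
    have h2 := Subgroup.inv_mem _ (pow_mem A hA hab g n _ h1)
    have h3 : ⁅g ^ (-(n : ℤ)), b⁆ = ⁅g ^ n, (g ^ n)⁻¹ * b * (g ^ n)⁻¹⁻¹⁆⁻¹ := by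
      rw [zpow_neg, zpow_natCast]
      simp only [commutatorElement_def]
      group
    rw [h3]
    exact h2

theorem comm_mem (A : Subgroup Q) (hA : A.Normal) (hab : ∀ a ∈ A, ∀ b ∈ A, a * b = b * a) (g : Q) :
    ⁅A ⊔ Subgroup.zpowers g, A ⊔ Subgroup.zpowers g⁆ ≤ B A hA hab g := by
  rw [Subgroup.commutator_le]
  intro h₁ hh₁ h₂ hh₂
  rw [← SetLike.mem_coe, Subgroup.normal_mul, Set.mem_mul] at hh₁ hh₂
  obtain ⟨a, ha, u, hu, rfl⟩ := hh₁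
  obtain ⟨b, hb, v, hv, rfl⟩ := hh₂
  obtain ⟨m, rfl⟩ := Subgroup.mem_zpowers_iff.1 hu
  obtain ⟨n, rfl⟩ := Subgroup.mem_zpowers_iff.1 hv
  have hm : g ^ m * b * (g ^ m)⁻¹ ∈ A := hA.conj_mem b hb _
  have hn : g ^ n * a⁻¹ * (g ^ n)⁻¹ ∈ A := hA.conj_mem _ (A.inv_mem ha) _
  have e1 : ⁅a * g ^ m, b * g ^ n⁆ =
      a * (g ^ m * b * (g ^ m)⁻¹) * (g ^ n * a⁻¹ * (g ^ n)⁻¹) * b⁻¹ := by
    simp only [commutatorElement_def, mul_inv_rev]
    have : g ^ m * (b * g ^ n) * ((g ^ m)⁻¹ * a⁻¹) =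
      g ^ m * b * (g ^ m)⁻¹ * (g ^ n * a⁻¹) := by
      have : g ^ n * (g ^ m)⁻¹ = (g ^ m)⁻¹ * g ^ n := by
        rw [← zpow_neg, ← zpow_add, ← zpow_add, add_comm]
      calc g ^ m * (b * g ^ n) * ((g ^ m)⁻¹ * a⁻¹)
          = g ^ m * b * (g ^ n * (g ^ m)⁻¹) * a⁻¹ := by group
        _ = g ^ m * b * ((g ^ m)⁻¹ * g ^ n) * a⁻¹ := by rw [this]
        _ = _ := by group
    calc a * g ^ m * (b * g ^ n) * ((g ^ m)⁻¹ * a⁻¹) * ((g ^ n)⁻¹ * b⁻¹)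
        = a * (g ^ m * (b * g ^ n) * ((g ^ m)⁻¹ * a⁻¹)) * ((g ^ n)⁻¹ * b⁻¹) := by group
      _ = a * (g ^ m * b * (g ^ m)⁻¹ * (g ^ n * a⁻¹)) * ((g ^ n)⁻¹ * b⁻¹) := by rw [this]
      _ = _ := by group
  have e2 : a * (g ^ m * b * (g ^ m)⁻¹) * (g ^ n * a⁻¹ * (g ^ n)⁻¹) * b⁻¹ =
      ⁅g ^ m, b⁆ * ⁅g ^ n, a⁻¹⁆ := by
    simp only [commutatorElement_def]
    have c1 := hab a ha _ hm
    have c2 := hab a ha _ hn
    have c3 := hab _ hn _ (A.inv_mem hb)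
    have c4 := hab a ha _ (A.inv_mem hb)
    set M := g ^ m * b * (g ^ m)⁻¹
    set N := g ^ n * a⁻¹ * (g ^ n)⁻¹
    calc a * M * N * b⁻¹ = M * a * N * b⁻¹ := by rw [c1]
      _ = M * (a * N) * b⁻¹ := by group
      _ = M * (N * a) * b⁻¹ := by rw [c2]
      _ = M * N * (a * b⁻¹) := by group
      _ = M * N * (b⁻¹ * a) := by rw [c4]
      _ = M * (N * b⁻¹) * a := by group
      _ = M * (b⁻¹ * N) * a := by rw [c3]
      _ = M * b⁻¹ * (N * a⁻¹⁻¹) := by group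
  rw [e1, e2]
  exact Subgroup.mul_mem _ (zpow_mem A hA hab g m b hb) (zpow_mem A hA hab g n _ (A.inv_mem ha))

end C4aux

theorem tC4 : C4.{u} := by
  intro G _ A K g hA hK hKA hAA y hy
  have := hK
  set π : G →* G ⧸ K := QuotientGroup.mk' K with hπ
  have hsurj : Function.Surjective π := QuotientGroup.mk'_surjective K
  have hA' : (A.map π).Normal := hA.map π hsurj
  have hker : ∀ z : G, π z = 1 ↔ z ∈ K := by
    intro z
    rw [hπ, QuotientGroup.mk'_apply]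
    exact QuotientGroup.eq_one_iff z
  have hab : ∀ a ∈ A.map π, ∀ b ∈ A.map π, a * b = b * a := by
    rintro _ ⟨a, ha, rfl⟩ _ ⟨b, hb, rfl⟩
    have h1 : ⁅a, b⁆ ∈ K := hAA (Subgroup.commutator_mem_commutator ha hb)
    have h2 : ⁅π a, π b⁆ = 1 := by
      rw [← map_commutatorElement]
      exact (hker _).2 h1
    exact commutatorElement_eq_one_iff_mul_comm.1 h2
  have hy' : π y ∈ (⁅A ⊔ Subgroup.zpowers g, A ⊔ Subgroup.zpowers g⁆ ⊔ K).map π :=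
    ⟨y, hy, rfl⟩
  have hKbot : K.map π = ⊥ := by
    rw [Subgroup.map_eq_bot_iff]
    intro z hz
    exact (hker z).2 hz
  rw [Subgroup.map_sup, hKbot, sup_bot_eq, Subgroup.map_commutator, Subgroup.map_sup,
    MonoidHom.map_zpowers] at hy'
  obtain ⟨_, ⟨x, hx, rfl⟩, hxy⟩ := C4aux.comm_mem (A.map π) hA' hab (π g) hy'
  refine ⟨x, hx, ⁅g, x⁆⁻¹ * y, ?_, by group⟩
  rw [← hker, map_mul, map_inv, map_commutatorElement, hxy]
  group

end H436NM
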