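import Pool.Agent.H436R2.NM.Defs

/-! Task C5: nM implies the commutator condition. -/

namespace H436NM

open scoped commutatorElement

universe u

/-- If `ρ` is irreducible and there is a functional `φ ≠ 0` invariant under a normal subgroup `K`,
then `K` acts trivially. -/
theorem C5_trivial {G : Type u} [Group G] [Fintype G] {d : ℕ}
    (ρ : Representation ℂ G (Fin d → ℂ)) (hirr : ρ.IsIrreducible) (K : Subgroup G)
    (hK : K.Normal) (φ : (Fin d → ℂ) →ₗ[ℂ] ℂ) (hφ : φ ≠ 0)
    (hinv : ∀ x ∈ K, ∀ v, φ (ρ x v) = φ v) : ∀ x ∈ K, ρ x = 1 := by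
  classical
  -- the fixed vectors
  let W : Subrepresentation ρ :=
    { toSubmodule :=
        { carrier := {v | ∀ x ∈ K, ρ x v = v}
          add_mem' := by
            intro a b ha hb x hx
            rw [map_add, ha x hx, hb x hx]
          zero_mem' := by
            intro x _
            rw [map_zero]
          smul_mem' := by
            intro c a ha x hx
            rw [map_smul, ha x hx] }
      apply_mem_toSubmodule := by
        intro g v hv x hx
        have h1 : x * g = g * (g⁻¹ * x * g) := by group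
        have h2 : g⁻¹ * x * g ∈ K := by
          have := hK.conj_mem x hx g⁻¹
          simpa using this
        have h3 : ρ (x * g) v = ρ (g * (g⁻¹ * x * g)) v := by rw [← h1]
        rw [map_mul, map_mul, Module.End.mul_apply, Module.End.mul_apply] at h3
        rw [h3, hv _ h2] }
  have hmem : ∀ v, v ∈ W ↔ ∀ x ∈ K, ρ x v = v := fun v => Iff.rfl
  obtain ⟨v, hv⟩ : ∃ v, φ v ≠ 0 := by
    by_contra h
    push Not at h
    exact hφ (LinearMap.ext h)
  -- average
  let e : Fin d → ℂ := ∑ x : K, ρ (x : G) v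
  have heW : e ∈ W := by
    rw [hmem]
    intro y hy
    have h1 : ρ y e = ∑ x : K, ρ ((⟨y, hy⟩ * x : K) : G) v := by
      simp only [e]
      rw [map_sum]
      refine Finset.sum_congr rfl fun x _ => ?_
      rw [Subgroup.coe_mul, map_mul, Module.End.mul_apply]
    rw [h1]
    exact Fintype.sum_equiv (Equiv.mulLeft (⟨y, hy⟩ : K)) _ _ (fun x => rfl)
  have hφe : φ e = (Fintype.card K : ℂ) * φ v := by
    simp only [e]
    have h1 : ∀ x : K, φ (ρ (x : G) v) = φ v := fun x => hinv x.1 x.2 v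
    rw [map_sum, Finset.sum_congr rfl (fun (x : K) _ => h1 x)]
    simp
  have he0 : e ≠ 0 := by
    intro h0
    rw [h0, map_zero] at hφe
    have hc : (Fintype.card K : ℂ) ≠ 0 := by
      exact_mod_cast Fintype.card_ne_zero
    exact (mul_ne_zero hc hv) hφe.symm
  have hWtop : W = ⊤ := by
    rcases hirr.eq_bot_or_eq_top W with h | h
    · exfalso
      rw [h] at heW
      exact he0 heW
    · exact h
  intro x hx
  refine LinearMap.ext fun w => ?_
  have hw : w ∈ W := by
    rw [hWtop]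
    trivial
  rw [Module.End.one_apply]
  exact (hmem w).mp hw x hx

theorem tC5 : H436NM.C5.{u} := by
  intro hC1 hC2 hC3 hC4 hG2 hG3 hG4 G _ _ p n hM hNM
  classical
  obtain ⟨hGn, hGnot, -, hGinj, -⟩ := hG3 G p n hM
  have hanti : ∀ a b : ℕ, a ≤ b → gam G b ≤ gam G a := by
    intro a b hab
    unfold gam
    exact Subgroup.lowerCentralSeries_antitone _ (by omega)
  have hnor : ∀ a, (gam G a).Normal := by
    intro a
    unfold gam
    infer_instance
  intro i k hi hk hkn hnot g hg hg'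
  by_contra hcon
  push Not at hcon
  have hik : 2 * i < k := by
    by_contra h
    push Not at h
    exact hnot ((hG2 G i i (by omega) (by omega)).trans (hanti _ _ (by omega)))
  -- the least j
  have hex : ∃ j, 2 ≤ j ∧ ⁅gam G j, gam G j⁆ ≤ gam G k :=
    ⟨k - 1, by omega, (hG2 G (k - 1) (k - 1) (by omega) (by omega)).trans (hanti _ _ (by omega))⟩
  obtain ⟨j, ⟨hj2, hjk⟩, hjmin⟩ : ∃ j, (2 ≤ j ∧ ⁅gam G j, gam G j⁆ ≤ gam G k) ∧
      ∀ l, 2 ≤ l → ⁅gam G l, gam G l⁆ ≤ gam G k → j ≤ l :=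
    ⟨Nat.find hex, Nat.find_spec hex, fun l h1 h2 => Nat.find_min' hex ⟨h1, h2⟩⟩
  have hji : i < j := by
    by_contra h
    push Not at h
    exact hnot ((Subgroup.commutator_mono (hanti _ _ h) (hanti _ _ h)).trans hjk)
  have hjk1 : j ≤ k - 1 := hjmin (k - 1) (by omega)
    ((hG2 G (k - 1) (k - 1) (by omega) (by omega)).trans (hanti _ _ (by omega)))
  have hgA : g ∉ gam G j := fun h => hg' (hanti (i + 1) j (by omega) h)
  obtain ⟨z, hz, hz'⟩ : ∃ z, z ∈ gam G (k - 1) ∧ z ∉ gam G k := by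
    have h := hGnot (k - 1) (by omega) (by omega)
    rw [show k - 1 + 1 = k by omega] at h
    exact SetLike.not_le_iff_exists.mp h
  have hzA : z ∈ gam G j := hanti _ _ hjk1 hz
  have hKA : gam G k ≤ gam G j := hanti _ _ (by omega)
  obtain ⟨H, hHdef⟩ : ∃ H : Subgroup G, H = gam G j ⊔ Subgroup.zpowers g := ⟨_, rfl⟩
  have hAH : gam G j ≤ H := by rw [hHdef]; exact le_sup_left
  have hgH : g ∈ H := by
    rw [hHdef]
    exact Subgroup.mem_sup_right (Subgroup.mem_zpowers g)
  have hzB : z ∉ ⁅H, H⁆ ⊔ gam G k := by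
    intro h
    rw [hHdef] at h
    obtain ⟨x, hx, c, hc, hxc⟩ := hC4 G (gam G j) (gam G k) g (hnor j) (hnor k) hKA hjk z h
    have h1 : ⁅g, x⁆ = z * c⁻¹ := by rw [hxc]; group
    have h2 : ⁅g, x⁆ ∈ gam G (k - 1) := by
      rw [h1]
      exact mul_mem hz (inv_mem (hanti _ _ (by omega) hc))
    have h3 := hcon x (hanti (i + 1) j (by omega) hx) h2
    exact hz' (by rw [hxc]; exact mul_mem h3 hc)
  -- the linear character
  have hKn := hnor k
  have hBn : (commutator ↥H ⊔ (gam G k).subgroupOf H).Normal := by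
    have : ((gam G k).subgroupOf H).Normal := inferInstance
    infer_instance
  have hzB' : (⟨z, hAH hzA⟩ : H) ∉ commutator ↥H ⊔ (gam G k).subgroupOf H := by
    intro h
    have h1 : H.subtype ⟨z, hAH hzA⟩ ∈
        (commutator ↥H ⊔ (gam G k).subgroupOf H).map H.subtype :=
      Subgroup.mem_map_of_mem _ h
    rw [Subgroup.map_sup, Subgroup.map_subtype_commutator, Subgroup.subgroupOf_map_subtype] at h1
    have h2 : ⁅H, H⁆ ⊔ gam G k ⊓ H ≤ ⁅H, H⁆ ⊔ gam G k :=
      sup_le le_sup_left (inf_le_left.trans le_sup_right)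
    exact hzB (h2 h1)
  obtain ⟨mu, hmuB, hmuz⟩ := hC3 H (commutator ↥H ⊔ (gam G k).subgroupOf H) hBn le_sup_left
    ⟨z, hAH hzA⟩ hzB'
  obtain ⟨d, ρ, hirr, hdH, φ, hφ, hφmu⟩ := hC1 G H mu
  have hinv : ∀ x ∈ gam G k, ∀ v, φ (ρ x v) = φ v := by
    intro x hx v
    have hxH : x ∈ H := hAH (hKA hx)
    rw [hφmu x hxH v, hmuB ⟨x, hxH⟩ (Subgroup.mem_sup_right (by
      rw [Subgroup.mem_subgroupOf]; exact hx))]
    simp
  have hKtriv := C5_trivial ρ hirr (gam G k) (hnor k) φ hφ hinv
  have hzact : ρ z ≠ 1 := by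
    intro h1
    obtain ⟨v, hv⟩ : ∃ v, φ v ≠ 0 := by
      by_contra h
      push Not at h
      exact hφ (LinearMap.ext h)
    have h2 := hφmu z (hAH hzA) v
    rw [h1, Module.End.one_apply] at h2
    have h3 : ((mu ⟨z, hAH hzA⟩ : ℂˣ) : ℂ) = 1 := by
      have h4 : (((mu ⟨z, hAH hzA⟩ : ℂˣ) : ℂ) - 1) * φ v = 0 := by
        rw [sub_mul, ← h2]; ring
      rcases mul_eq_zero.mp h4 with h5 | h5
      · exact sub_eq_zero.mp h5
      · exact absurd h5 hv
    exact hmuz (Units.ext h3)
  -- nM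
  obtain ⟨N, hNn, lam, hlam⟩ := hNM d ρ hirr
  obtain ⟨hdN, hNtriv⟩ := hC2 G d ρ N lam hNn hlam
  have hker : ∀ x, x ∈ (MonoidHom.ker ρ) ↔ ρ x = 1 := fun x => MonoidHom.mem_ker
  have hLle : MonoidHom.ker ρ ≤ gam G k := by
    rcases hG4 G p n hM (MonoidHom.ker ρ) (MonoidHom.normal_ker ρ) with h | ⟨l, hl2, hln, hl⟩
    · exfalso
      exact hzact ((hker z).mp (h (hanti 2 (k - 1) (by omega) hz)))
    · rw [hl]
      apply hanti
      by_contra hlk
      push Not at hlk
      apply hzact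
      rw [← hker, hl]
      exact hanti l (k - 1) (by omega) hz
  have hNk : ⁅N, N⁆ ≤ gam G k := fun x hx => hLle ((hker x).mpr (hNtriv x hx))
  rcases hG4 G p n hM N hNn with h | ⟨l, hl2, hln, hl⟩
  · exact hnot ((Subgroup.commutator_mono ((hanti 2 i hi).trans h) ((hanti 2 i hi).trans h)).trans
      hNk)
  · have hjl : j ≤ l := hjmin l hl2 (by rw [← hl]; exact hNk)
    have hNA : N ≤ gam G j := by rw [hl]; exact hanti _ _ hjl
    have h1 : (gam G j).index ≤ N.index :=
      Nat.le_of_dvd (Nat.pos_of_ne_zero Subgroup.index_ne_zero_of_finite)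
        (Subgroup.index_dvd_of_le hNA)
    have h2 : H.index < (gam G j).index :=
      Subgroup.index_strictAnti (lt_of_le_of_ne hAH (fun h => hgA (by rw [h]; exact hgH)))
    omega

end H436NM
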