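import Pool.Agent.H436R2.NM.LCAux

/-! Task D1: leading coefficients. -/

open H436NM

open scoped commutatorElement

universe u

open H436NM.TU2 in
theorem H436NM.LCAux.cyc_gam {G : Type u} [Group G] {p n : ℕ} (hG : MC p n G) {j : ℕ}
    (hj : 2 ≤ j) (hjn : j < n) {x : G} (hx : x ∈ gam G j) (hx' : x ∉ gam G (j + 1)) :
    (∀ y ∈ gam G j, ∃ t : ℕ, y * (x ^ t)⁻¹ ∈ gam G (j + 1)) ∧ x ^ p ∈ gam G (j + 1) := by
  have := hG.fin
  refine H436NM.LCAux.cyc hG.pr (norm_gam (j + 1)) (gam_le j) ?_ hx hx'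
  rw [hG.card_gam j hj (by omega), hG.card_gam (j + 1) (by omega) (by omega), ← pow_succ']
  congr 1
  omega

open H436NM.TU2 in
theorem H436NM.tD1 : H436NM.D1.{u} := by
  intro G _ p n m s hG hm hU
  have := hG.fin
  have hx0 : ∃ x0 : G, (2 < m → x0 ∈ gam G 2) ∧ (2 < m → x0 ∉ gam G (2 + 1)) := by
    by_cases h : 2 < m
    · obtain ⟨x, h1, h2⟩ := exists_mem hG (le_refl 2) (by omega)
      exact ⟨x, fun _ => h1, fun _ => h2⟩
    · exact ⟨1, fun h' => absurd h' h, fun h' => absurd h' h⟩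
  obtain ⟨x0, h1, h2⟩ := hx0
  refine H436NM.LCAux.main hG.pr 2 m (gam G) s x0 (fun j => norm_gam j) (fun j => gam_le j)
    (fun i j hi hj => tG2 G i j hi hj) ?_ ?_ ?_ h1 h2
  · intro j hj _ g x hx
    exact comm_mem (by omega) hx g
  · intro j hj hjm x hx hx'
    exact H436NM.LCAux.cyc_gam hG hj (by omega) hx hx'
  · intro j hj hjm x hx hx'
    exact hU j hj (by omega) x hx hx'
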