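import Pool.Agent.H436R2.NM.LCAux
import Pool.Agent.H436R2.NM.TD1

/-! Task D2: leading coefficients including `C_2`. -/

open H436NM

open scoped commutatorElement

universe u

namespace H436NM.LCAux

open H436NM.TU2

variable {G : Type u} [Group G]

theorem norm_CS (j : ℕ) : (CS G j).Normal := by
  constructor
  intro g hg h
  rw [mem_CS] at hg ⊢
  intro x hx
  have h1 : h⁻¹ * x * h ∈ gam G j := by
    have := (norm_gam (G := G) j).conj_mem x hx h⁻¹
    simpa using this
  have h2 := hg _ h1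
  have h3 := (norm_gam (G := G) (j + 2)).conj_mem _ h2 h
  have e : h * ⁅h⁻¹ * x * h, g⁆ * h⁻¹ = ⁅x, h * g * h⁻¹⁆ := by
    simp only [commutatorElement_def]
    group
  rw [e] at h3
  exact h3

theorem gam2_le_CS : gam G 2 ≤ CS G 2 := by
  intro g hg
  rw [mem_CS]
  intro x hx
  exact tG2 G 2 2 (by norm_num) (by norm_num) (Subgroup.commutator_mem_commutator hx hg)

theorem top_comm {x y : G} : ⁅x, y⁆ ∈ gam G 2 := by
  have h : x ∈ gam G 1 := Subgroup.mem_top x
  exact comm_mem (le_refl 1) h y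

theorem card_CS {p n : ℕ} (hG : MC p n G) (hn : 4 ≤ n) {s : G} (hs : ¬ Cen G 2 s) :
    Nat.card G = p * Nat.card (CS G 2) ∧ Nat.card (CS G 2) = p * Nat.card (gam G 2) := by
  have := hG.fin
  have hi : (CS G 2).index = p := by
    rcases (Nat.dvd_prime hG.pr).1 (index_CS2 hG hn) with h | h
    · exfalso
      apply hs
      rw [← mem_CS, Subgroup.index_eq_one.1 h]
      exact Subgroup.mem_top s
    · exact h
  have h1 : Nat.card (CS G 2) * p = Nat.card G := by
    rw [← hi]
    exact Subgroup.card_mul_index _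
  constructor
  · rw [← h1, mul_comm]
  · have h2 : Nat.card (gam G 2) = p ^ (n - 2) := hG.card_gam 2 (le_refl 2) (by omega)
    rw [h2, ← pow_succ']
    rw [hG.card] at h1
    have h3 : p ^ n = p ^ (n - 2 + 1) * p := by
      rw [← pow_succ]
      congr 1
      omega
    rw [h3] at h1
    exact Nat.eq_of_mul_eq_mul_right hG.pr.pos h1

theorem unif1 {p n : ℕ} (hG : MC p n G) (hn : 4 ≤ n) {s : G} (hs : ¬ Cen G 2 s) {x : G}
    (hx : x ∈ CS G 2) (hx' : x ∉ gam G 2) : ⁅x, s⁆ ∉ gam G 3 := by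
  have := hG.fin
  intro hcon
  obtain ⟨hc1, hc2⟩ := card_CS hG hn hs
  have hsP : s ∉ CS G 2 := by rwa [mem_CS]
  have k1 := (cyc hG.pr (H := ⊤) (norm_CS 2) le_top (by rw [Subgroup.card_top]; exact hc1)
    (Subgroup.mem_top s) hsP).1
  have k2 := (cyc hG.pr (norm_gam 2) gam2_le_CS hc2 hx hx').1
  set π := QuotientGroup.mk' (gam G 3) with hπ
  have hker : π.ker = gam G 3 := QuotientGroup.ker_mk' _
  have hcomm : ∀ a b : G, (π a * π b = π b * π a ↔ ⁅a, b⁆ ∈ gam G 3) := by
    intro a b
    have h1 : ⁅a, b⁆ ∈ gam G 3 ↔ π ⁅a, b⁆ = 1 := by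
      rw [← MonoidHom.mem_ker, hker]
    rw [h1, map_commutatorElement, commutatorElement_eq_one_iff_mul_comm]
  have hcen : ∀ z ∈ gam G 2, ∀ g : G, Commute (π z) (π g) := by
    intro z hz g
    exact (hcomm z g).2 (comm_mem (by norm_num) hz g)
  have hxs : Commute (π x) (π s) := (hcomm x s).2 hcon
  -- every element is `z x^u s^t`
  have hdec : ∀ g : G, ∃ z ∈ gam G 2, ∃ u t : ℕ, g = z * x ^ u * s ^ t := by
    intro g
    obtain ⟨t, ht⟩ := k1 g (Subgroup.mem_top g)
    obtain ⟨u, hu⟩ := k2 _ ht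
    refine ⟨_, hu, u, t, ?_⟩
    group
  have hs_c : ∀ g : G, Commute (π g) (π s) := by
    intro g
    obtain ⟨z, hz, u, t, rfl⟩ := hdec g
    rw [map_mul, map_mul, map_pow, map_pow]
    exact ((hcen z hz s).mul_left (hxs.pow_left u)).mul_left ((Commute.refl _).pow_left t)
  have hx_c : ∀ g : G, Commute (π g) (π x) := by
    intro g
    obtain ⟨z, hz, u, t, rfl⟩ := hdec g
    rw [map_mul, map_mul, map_pow, map_pow]
    exact ((hcen z hz x).mul_left ((Commute.refl _).pow_left u)).mul_left (hxs.symm.pow_left t)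
  have hall : ∀ g h : G, ⁅g, h⁆ ∈ gam G 3 := by
    intro g h
    rw [← hcomm]
    obtain ⟨z, hz, u, t, rfl⟩ := hdec h
    rw [map_mul π (z * x ^ u), map_mul π z, map_pow, map_pow]
    exact (((hcen z hz g).symm.mul_right ((hx_c g).pow_right u)).mul_right
      ((hs_c g).pow_right t)).eq
  obtain ⟨y, hy, hy'⟩ := exists_mem hG (le_refl 2) (by omega)
  apply hy'
  have h1 : gam G 2 ≤ gam G 3 := by
    rw [gam_succ (le_refl 1), Subgroup.commutator_le]
    intro a _ b _
    exact hall a b
  exact h1 hy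

end H436NM.LCAux

open H436NM.TU2 H436NM.LCAux in
theorem H436NM.tD2 : H436NM.D2.{u} := by
  classical
  intro G _ p n m s hG hn hm hU hs
  have := hG.fin
  refine ⟨CS G 2, fun g => mem_CS 2 g, ?_⟩
  obtain ⟨hc1, hc2⟩ := card_CS hG hn hs
  set Γ : ℕ → Subgroup G := fun j => if j ≤ 1 then CS G 2 else gam G j with hΓ
  have hΓ1 : ∀ j, j ≤ 1 → Γ j = CS G 2 := fun j hj => by
    rw [hΓ]
    simp only
    rw [if_pos hj]
  have hΓ2 : ∀ j, 2 ≤ j → Γ j = gam G j := fun j hj => by
    rw [hΓ]
    simp only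
    rw [if_neg (by omega)]
  have hx0 : ∃ x0 : G, x0 ∈ CS G 2 ∧ x0 ∉ gam G 2 := by
    by_contra hcon
    push Not at hcon
    have h1 : CS G 2 ≤ gam G 2 := hcon
    have h2 := Nat.le_of_dvd Nat.card_pos (Subgroup.card_dvd_of_le h1)
    have h3 : 0 < Nat.card (gam G 2) := Nat.card_pos
    have h4 := hG.pr.two_le
    rw [hc2] at h2
    nlinarith
  obtain ⟨x0, hx1, hx2⟩ := hx0
  obtain ⟨lc, hlc⟩ := H436NM.LCAux.main hG.pr 1 m Γ s x0
    (by
      intro j
      rcases Nat.lt_or_ge j 2 with h | h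
      · rw [hΓ1 j (by omega)]
        exact norm_CS 2
      · rw [hΓ2 j h]
        exact norm_gam j)
    (by
      intro j
      rcases Nat.lt_or_ge j 1 with h | h
      · rw [hΓ1 j (by omega), hΓ1 (j + 1) (by omega)]
      · rcases Nat.lt_or_ge j 2 with h' | h'
        · rw [hΓ1 j (by omega), hΓ2 (j + 1) (by omega)]
          have : j = 1 := by omega
          subst this
          exact gam2_le_CS
        · rw [hΓ2 j h', hΓ2 (j + 1) (by omega)]
          exact gam_le j)
    (by
      intro i j hi hj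
      have hle : ∀ k, 1 ≤ k → Γ k ≤ gam G k := by
        intro k hk
        rcases Nat.lt_or_ge k 2 with h | h
        · have : k = 1 := by omega
          subst this
          intro g _
          exact Subgroup.mem_top g
        · rw [hΓ2 k h]
      rw [hΓ2 (i + j) (by omega)]
      exact (Subgroup.commutator_mono (hle i hi) (hle j hj)).trans (tG2 G i j hi hj))
    (by
      intro j hj _ g x hx
      rw [hΓ2 (j + 1) (by omega)]
      rcases Nat.lt_or_ge j 2 with h | h
      · have : j = 1 := by omega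
        subst this
        exact top_comm
      · rw [hΓ2 j h] at hx
        exact comm_mem (by omega) hx g)
    (by
      intro j hj hjm x hx hx'
      rw [hΓ2 (j + 1) (by omega)] at hx' ⊢
      rcases Nat.lt_or_ge j 2 with h | h
      · have : j = 1 := by omega
        subst this
        rw [hΓ1 1 (le_refl 1)] at hx ⊢
        exact cyc hG.pr (norm_gam 2) gam2_le_CS hc2 hx hx'
      · rw [hΓ2 j h] at hx ⊢
        exact cyc_gam hG h (by omega) hx hx')
    (by
      intro j hj hjm x hx hx'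
      rw [hΓ2 (j + 1) (by omega)] at hx'
      rw [hΓ2 (j + 2) (by omega)]
      rcases Nat.lt_or_ge j 2 with h | h
      · have : j = 1 := by omega
        subst this
        rw [hΓ1 1 (le_refl 1)] at hx
        exact unif1 hG hn hs hx hx'
      · rw [hΓ2 j h] at hx
        exact hU j h (by omega) x hx hx')
    (fun _ => by rw [hΓ1 1 (le_refl 1)]; exact hx1)
    (fun _ => by rw [hΓ2 (1 + 1) (le_refl 2)]; exact hx2)
  exact ⟨lc, hlc⟩
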