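import Pool.Agent.H436R2.NM.TD1

/-! Task D2 (second version): leading coefficients including `P = C_2`. -/

open H436NM

open scoped commutatorElement

universe u

namespace H436NM.D2b

open H436NM.TU2

variable {G : Type u} [Group G]

theorem CS_normal (j : ℕ) : (CS G j).Normal := by
  refine ⟨fun g hg h => ?_⟩
  rw [mem_CS] at hg ⊢
  intro x hx
  have hx2 : h⁻¹ * x * h ∈ gam G j := by
    have := (norm_gam (G := G) j).conj_mem x hx h⁻¹
    simpa using this
  have h1 := hg _ hx2
  have h2 := (norm_gam (G := G) (j + 2)).conj_mem _ h1 h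
  have e : h * ⁅h⁻¹ * x * h, g⁆ * h⁻¹ = ⁅x, h * g * h⁻¹⁆ := by
    simp only [commutatorElement_def]
    group
  rwa [e] at h2

theorem comm_mem_two (x g : G) : ⁅x, g⁆ ∈ gam G 2 := by
  have h1 : x ∈ gam G 1 := by
    show x ∈ (⊤ : Subgroup G).lowerCentralSeries 0
    simp
  exact comm_mem (le_refl 1) h1 g

theorem gam_two_le_CS : gam G 2 ≤ CS G 2 := by
  intro g hg
  rw [mem_CS]
  intro x hx
  exact tG2 G 2 2 (by norm_num) (by norm_num) (Subgroup.commutator_mem_commutator hx hg)

end H436NM.D2b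

open H436NM.TU2 H436NM.D2b in
theorem H436NM.tD2b : H436NM.D2.{u} := by
  intro G _ p n m s hG hn hm hU hs
  classical
  have hfin := hG.fin
  have hp := hG.pr
  have hPn : (CS G 2).Normal := CS_normal 2
  have hsP : s ∉ CS G 2 := fun h => hs ((mem_CS 2 s).1 h)
  have hidx : (CS G 2).index = p := by
    rcases (Nat.dvd_prime hp).1 (index_CS2 hG hn) with h | h
    · exact absurd (Subgroup.index_eq_one.1 h ▸ Subgroup.mem_top s) hsP
    · exact h
  have hcardP : Nat.card (CS G 2) = p * Nat.card (gam G 2) := by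
    have h1 := Subgroup.card_mul_index (CS G 2)
    rw [hidx, hG.card] at h1
    have h2 : p ^ n = p ^ (n - 2) * p * p := by
      rw [← pow_succ, ← pow_succ]
      congr 1
      omega
    rw [h2] at h1
    rw [hG.card_gam 2 (le_refl 2) (by omega), mul_comm p]
    exact Nat.eq_of_mul_eq_mul_right hp.pos h1
  have hcycP : ∀ x ∈ CS G 2, x ∉ gam G 2 →
      (∀ y ∈ CS G 2, ∃ t : ℕ, y * (x ^ t)⁻¹ ∈ gam G 2) ∧ x ^ p ∈ gam G 2 := fun x hx hx' =>
    H436NM.LCAux.cyc hp (norm_gam 2) gam_two_le_CS hcardP hx hx'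
  -- a subgroup containing gam 2, x, s is everything
  have hL : ∀ x ∈ CS G 2, x ∉ gam G 2 → ∀ C : Subgroup G, gam G 2 ≤ C → x ∈ C → s ∈ C →
      C = ⊤ := by
    intro x hx hx' C hC hxC hsC
    have hle : CS G 2 ≤ C := by
      intro y hy
      obtain ⟨t, ht⟩ := (hcycP x hx hx').1 y hy
      have e : y = (y * (x ^ t)⁻¹) * x ^ t := by group
      rw [e]
      exact C.mul_mem (hC ht) (C.pow_mem hxC t)
    have h1 : C.index ∣ p := hidx ▸ Subgroup.index_dvd_of_le hle
    rcases (Nat.dvd_prime hp).1 h1 with h | h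
    · exact Subgroup.index_eq_one.1 h
    · exfalso
      apply hsP
      have h2 : C ≤ CS G 2 := by
        rw [← Subgroup.relIndex_eq_one]
        have h9 := Subgroup.relIndex_mul_index hle
        rw [h, hidx] at h9
        exact Nat.eq_of_mul_eq_mul_right hp.pos (by rw [h9, one_mul])
      exact h2 hsC
  have hunif1 : ∀ x ∈ CS G 2, x ∉ gam G 2 → ⁅x, s⁆ ∉ gam G 3 := by
    intro x hx hx' hcon
    -- centralizers modulo gam 3
    let Cg : G → Subgroup G := fun g =>
      (Subgroup.centralizer {(QuotientGroup.mk' (gam G 3)) g}).comap (QuotientGroup.mk' (gam G 3))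
    have hCg : ∀ g y, y ∈ Cg g ↔ ⁅y, g⁆ ∈ gam G 3 := fun g y => mem_comap_cent y g
    have hsym : ∀ a b : G, ⁅a, b⁆ ∈ gam G 3 → ⁅b, a⁆ ∈ gam G 3 := by
      intro a b h
      rw [← inv_mem_iff, commutatorElement_inv]
      exact h
    have h2 : ∀ g, gam G 2 ≤ Cg g := fun g y hy => (hCg g y).2 (comm_mem (by norm_num) hy g)
    have hself : ∀ a : G, ⁅a, a⁆ ∈ gam G 3 := by
      intro a
      rw [commutatorElement_self]
      exact one_mem _
    have hx1 : Cg x = ⊤ := hL x hx hx' _ (h2 x) ((hCg x x).2 (hself x)) ((hCg x s).2 (hsym _ _ hcon))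
    have hs1 : Cg s = ⊤ := hL x hx hx' _ (h2 s) ((hCg s x).2 hcon) ((hCg s s).2 (hself s))
    have hall : ∀ g, Cg g = ⊤ := by
      intro g
      refine hL x hx hx' _ (h2 g) ((hCg g x).2 ?_) ((hCg g s).2 ?_)
      · exact hsym _ _ ((hCg x g).1 (hx1 ▸ Subgroup.mem_top g))
      · exact hsym _ _ ((hCg s g).1 (hs1 ▸ Subgroup.mem_top g))
    have h3 : gam G 2 ≤ gam G 3 := by
      rw [show gam G 2 = ⁅gam G 1, (⊤ : Subgroup G)⁆ from gam_succ (le_refl 1),
        Subgroup.commutator_le]
      intro y _ g _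
      exact (hCg g y).1 (hall g ▸ Subgroup.mem_top y)
    obtain ⟨z, hz, hz'⟩ := exists_mem hG (j := 2) (le_refl 2) (by omega)
    exact hz' (h3 hz)
  refine ⟨CS G 2, fun g => mem_CS 2 g, ?_⟩
  have hx0 : ∃ x0 ∈ CS G 2, x0 ∉ gam G 2 := by
    by_contra hcon
    push Not at hcon
    have h1 : CS G 2 ≤ gam G 2 := hcon
    have h2 := Nat.le_of_dvd Nat.card_pos (Subgroup.card_dvd_of_le h1)
    rw [hcardP] at h2
    have h3 : 0 < Nat.card (gam G 2) := Nat.card_pos
    have h4 := hp.two_le
    nlinarith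
  obtain ⟨x0, hx0, hx0'⟩ := hx0
  refine H436NM.LCAux.main hp 1 m _ s x0 ?_ ?_ ?_ ?_ ?_ ?_ (fun _ => ?_) (fun _ => ?_)
  · intro j
    try dsimp only
    split_ifs
    · exact hPn
    · exact norm_gam j
  · intro j
    rcases j with _ | _ | j
    · simp
    · simpa using (gam_two_le_CS (G := G))
    · simpa using (gam_le (G := G) (j + 2))
  · intro i j hi hj
    try dsimp only
    rw [if_neg (show ¬ (i + j ≤ 1) by omega)]
    by_cases h1 : i ≤ 1
    · have hi1 : i = 1 := by omega
      subst hi1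
      rw [if_pos h1]
      by_cases h2 : j ≤ 1
      · have hj1 : j = 1 := by omega
        subst hj1
        rw [if_pos h2, Subgroup.commutator_le]
        intro a _ b _
        exact comm_mem_two a b
      · rw [if_neg h2, Subgroup.commutator_le]
        intro a _ b hb
        rw [← inv_mem_iff, commutatorElement_inv, add_comm 1 j]
        exact comm_mem hj hb a
    · rw [if_neg h1]
      by_cases h2 : j ≤ 1
      · have hj1 : j = 1 := by omega
        subst hj1
        rw [if_pos h2, Subgroup.commutator_le]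
        intro a ha b _
        exact comm_mem hi ha b
      · rw [if_neg h2]
        exact tG2 G i j hi hj
  · intro j hj _ g x hx
    try dsimp only at hx ⊢
    rw [if_neg (show ¬ (j + 1 ≤ 1) by omega)]
    by_cases h1 : j ≤ 1
    · have hj1 : j = 1 := by omega
      subst hj1
      exact comm_mem_two x g
    · rw [if_neg h1] at hx
      exact comm_mem hj hx g
  · intro j hj hjm x hx hx'
    try dsimp only at hx hx' ⊢
    rw [if_neg (show ¬ (j + 1 ≤ 1) by omega)] at hx' ⊢
    by_cases h1 : j ≤ 1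
    · have hj1 : j = 1 := by omega
      subst hj1
      rw [if_pos h1] at hx ⊢
      exact hcycP x hx hx'
    · rw [if_neg h1] at hx ⊢
      exact H436NM.LCAux.cyc_gam hG (by omega) (by omega) hx hx'
  · intro j hj hjm x hx hx'
    try dsimp only at hx hx' ⊢
    rw [if_neg (show ¬ (j + 1 ≤ 1) by omega)] at hx'
    rw [if_neg (show ¬ (j + 2 ≤ 1) by omega)]
    by_cases h1 : j ≤ 1
    · have hj1 : j = 1 := by omega
      subst hj1
      rw [if_pos h1] at hx
      exact hunif1 x hx hx'
    · rw [if_neg h1] at hx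
      exact hU j (by omega) (by omega) x hx hx'
  · simpa using hx0
  · simpa using hx0'
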