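import Pool.Agent.H436R2.NM.Defs

set_option autoImplicit false

namespace H436NM

open scoped commutatorElement

universe u

section
variable {G : Type u} [Group G] {i0 p m : ℕ} {Γ : ℕ → Subgroup G} {s : G} {lc : ℕ → G → ZMod p}

theorem TE1_one (gd : GD i0 p m Γ s lc) {t : ℕ} (h0 : i0 ≤ t) (h1 : t < m) : lc t 1 = 0 :=
  (gd.lc_ker t h0 h1 1 (Γ t).one_mem).2 (Γ (t + 1)).one_mem

theorem TE1_inv (gd : GD i0 p m Γ s lc) {t : ℕ} (h0 : i0 ≤ t) (h1 : t < m) {x : G} (hx : x ∈ Γ t) :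
    lc t x⁻¹ = - lc t x := by
  have h := gd.lc_mul t h0 h1 x hx x⁻¹ ((Γ t).inv_mem hx)
  rw [mul_inv_cancel, TE1_one gd h0 h1] at h
  exact (neg_eq_of_add_eq_zero_right h.symm).symm

theorem TE1_conj (gd : GD i0 p m Γ s lc) {t : ℕ} (h0 : i0 ≤ t) (h1 : t < m) {z : G} (hz : z ∈ Γ t)
    (g : G) : lc t (g * z * g⁻¹) = lc t z := by
  have h2 : ⁅z, g⁆ ∈ Γ (t + 1) := gd.act t h0 h1 g z hz
  have h3 : ⁅g, z⁆ ∈ Γ (t + 1) := by
    rw [← commutatorElement_inv]; exact (Γ (t + 1)).inv_mem h2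
  have h4 : ⁅g, z⁆ ∈ Γ t := gd.anti t h3
  have h5 : g * z * g⁻¹ = ⁅g, z⁆ * z := by
    rw [commutatorElement_def]; group
  rw [h5, gd.lc_mul t h0 h1 _ h4 _ hz, (gd.lc_ker t h0 h1 _ h4).2 h3, zero_add]

theorem TE1_lin (hp : p.Prime) (gd : GD i0 p m Γ s lc) {j : ℕ} (h0 : i0 ≤ j) (h1 : j < m)
    (f : G → ZMod p) (hadd : ∀ x ∈ Γ j, ∀ y ∈ Γ j, f (x * y) = f x + f y)
    (hker : ∀ x ∈ Γ (j + 1), f x = 0) {u : G} (hu : u ∈ Γ j) (hu1 : lc j u = 1) :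
    ∀ x ∈ Γ j, f x = lc j x * f u := by
  intro x hx
  have : NeZero p := ⟨hp.ne_zero⟩
  have hone : f 1 = 0 := hker 1 (Γ (j + 1)).one_mem
  have hpow : ∀ a : ℕ, f (u ^ a) = a * f u := by
    intro a
    induction a with
    | zero => simp [hone]
    | succ a ih =>
      rw [pow_succ, hadd _ ((Γ j).pow_mem hu a) _ hu, ih]
      push_cast; ring
  have hlpow : ∀ a : ℕ, lc j (u ^ a) = a := by
    intro a
    induction a with
    | zero => simp [TE1_one gd h0 h1]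
    | succ a ih =>
      rw [pow_succ, gd.lc_mul j h0 h1 _ ((Γ j).pow_mem hu a) _ hu, ih, hu1]
      push_cast; ring
  have hua : u ^ (lc j x).val ∈ Γ j := (Γ j).pow_mem hu _
  have hx' : (u ^ (lc j x).val)⁻¹ * x ∈ Γ j := (Γ j).mul_mem ((Γ j).inv_mem hua) hx
  have hx'' : (u ^ (lc j x).val)⁻¹ * x ∈ Γ (j + 1) := by
    rw [← gd.lc_ker j h0 h1 _ hx', gd.lc_mul j h0 h1 _ ((Γ j).inv_mem hua) _ hx,
      TE1_inv gd h0 h1 hua, hlpow, ZMod.natCast_zmod_val]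
    ring
  have hxe : x = u ^ (lc j x).val * ((u ^ (lc j x).val)⁻¹ * x) := by group
  calc f x = f (u ^ (lc j x).val * ((u ^ (lc j x).val)⁻¹ * x)) := by rw [← hxe]
    _ = f (u ^ (lc j x).val) + f ((u ^ (lc j x).val)⁻¹ * x) := hadd _ hua _ hx'
    _ = lc j x * f u := by rw [hpow, hker _ hx'', ZMod.natCast_zmod_val, add_zero]

end

theorem tE1 : E1.{u} := by
  intro G _ i0 p k i q Γ s lc hp gd h1 hi deg
  classical
  have hu : ∀ j, ∃ x : G, i0 ≤ j → j < k → x ∈ Γ j ∧ lc j x = 1 := by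
    intro j
    by_cases h : i0 ≤ j ∧ j < k
    · obtain ⟨x, hx, hx1⟩ := gd.lc_surj j h.1 h.2
      exact ⟨x, fun _ _ => ⟨hx, hx1⟩⟩
    · exact ⟨1, fun a b => absurd ⟨a, b⟩ h⟩
  choose u hu using hu
  refine ⟨fun j l => lc (j + l + q) ⁅u j, u l⁆, ?_⟩
  intro j l hj hl ht x hx y hy
  have hj0 : i0 ≤ j := hi.trans hj
  have hl0 : i0 ≤ l := hi.trans hl
  have hjk : j < k := by omega
  have hlk : l < k := by omega
  have ht0 : i0 ≤ j + l + q := by omega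
  obtain ⟨huj, huj1⟩ := hu j hj0 hjk
  obtain ⟨hul, hul1⟩ := hu l hl0 hlk
  have hmem : ∀ a ∈ Γ j, ∀ b ∈ Γ l, ⁅a, b⁆ ∈ Γ (j + l + q) := fun a ha b hb =>
    deg j l hj hl ht.le (Subgroup.commutator_mem_commutator ha hb)
  have hfirst : ∀ y ∈ Γ l, ∀ x ∈ Γ j,
      lc (j + l + q) ⁅x, y⁆ = lc j x * lc (j + l + q) ⁅u j, y⁆ := by
    intro y hy
    refine TE1_lin hp gd hj0 hjk (fun x => lc (j + l + q) ⁅x, y⁆) ?_ ?_ huj huj1
    · intro x hx x' hx'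
      have e : ⁅x * x', y⁆ = (x * ⁅x', y⁆ * x⁻¹) * ⁅x, y⁆ := by
        simp only [commutatorElement_def]; group
      have hc : x * ⁅x', y⁆ * x⁻¹ ∈ Γ (j + l + q) :=
        (gd.nor (j + l + q)).conj_mem _ (hmem x' hx' y hy) x
      show lc (j + l + q) ⁅x * x', y⁆ = lc (j + l + q) ⁅x, y⁆ + lc (j + l + q) ⁅x', y⁆
      rw [e, gd.lc_mul _ ht0 ht _ hc _ (hmem x hx y hy), TE1_conj gd ht0 ht (hmem x' hx' y hy),
        add_comm]
    · intro x hx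
      have h2 : ⁅x, y⁆ ∈ Γ (j + 1 + l + q) :=
        deg (j + 1) l (by omega) hl (by omega) (Subgroup.commutator_mem_commutator hx hy)
      have h3 : j + 1 + l + q = j + l + q + 1 := by omega
      rw [h3] at h2
      exact (gd.lc_ker _ ht0 ht _ (hmem x (gd.anti j hx) y hy)).2 h2
  have hsecond : ∀ y ∈ Γ l,
      lc (j + l + q) ⁅u j, y⁆ = lc l y * lc (j + l + q) ⁅u j, u l⁆ := by
    refine TE1_lin hp gd hl0 hlk (fun y => lc (j + l + q) ⁅u j, y⁆) ?_ ?_ hul hul1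
    · intro y hy y' hy'
      have e : ⁅u j, y * y'⁆ = ⁅u j, y⁆ * (y * ⁅u j, y'⁆ * y⁻¹) := by
        simp only [commutatorElement_def]; group
      have hc : y * ⁅u j, y'⁆ * y⁻¹ ∈ Γ (j + l + q) :=
        (gd.nor (j + l + q)).conj_mem _ (hmem _ huj y' hy') y
      show lc (j + l + q) ⁅u j, y * y'⁆ = lc (j + l + q) ⁅u j, y⁆ + lc (j + l + q) ⁅u j, y'⁆
      rw [e, gd.lc_mul _ ht0 ht _ (hmem _ huj y hy) _ hc, TE1_conj gd ht0 ht (hmem _ huj y' hy')]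
    · intro y hy
      have h2 : ⁅u j, y⁆ ∈ Γ (j + (l + 1) + q) :=
        deg j (l + 1) hj (by omega) (by omega) (Subgroup.commutator_mem_commutator huj hy)
      have h3 : j + (l + 1) + q = j + l + q + 1 := by omega
      rw [h3] at h2
      exact (gd.lc_ker _ ht0 ht _ (hmem _ huj y (gd.anti l hy))).2 h2
  rw [hfirst y hy x hx, hsecond y hy]
  ring

end H436NM
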