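import Pool.Agent.H436R2.NM.Defs

open H436NM
open scoped commutatorElement

universe u

theorem H436NM.tE2 : H436NM.E2.{u} := by
  intro G _ i0 p k i q Γ s lc c hp hG hi0 hi hD hB
  have lc_one : ∀ j, i0 ≤ j → j < k → lc j 1 = 0 := by
    intro j h1 h2
    exact (hG.lc_ker j h1 h2 1 (Γ j).one_mem).2 (Γ (j + 1)).one_mem
  constructor
  · intro j l hj hl hjl
    obtain ⟨x, hx, hx1⟩ := hG.lc_surj j (by omega) (by omega)
    obtain ⟨y, hy, hy1⟩ := hG.lc_surj l (by omega) (by omega)
    have h1 : ⁅x, y⁆ ∈ Γ (j + l + q) :=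
      hD j l hj hl (by omega) (Subgroup.commutator_mem_commutator hx hy)
    have h2 : ⁅y, x⁆ ∈ Γ (j + l + q) := by
      rw [← commutatorElement_inv]
      exact (Γ (j + l + q)).inv_mem h1
    have h3 : ⁅x, y⁆ * ⁅y, x⁆ = 1 := by
      rw [← commutatorElement_inv x y, mul_inv_cancel]
    have h4 := hG.lc_mul (j + l + q) (by omega) (by omega) _ h1 _ h2
    rw [h3, lc_one (j + l + q) (by omega) (by omega)] at h4
    have h5 := hB j l hj hl hjl x hx y hy
    have h6 := hB l j hl hj (by omega) y hy x hx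
    rw [Nat.add_comm l j] at h6
    rw [h5, h6, hx1, hy1, mul_one, mul_one, mul_one, mul_one] at h4
    exact eq_neg_of_add_eq_zero_left h4.symm
  · intro j hj hjj
    obtain ⟨x, hx, hx1⟩ := hG.lc_surj j (by omega) (by omega)
    have h5 := hB j j hj hj (by omega) x hx x hx
    rw [commutatorElement_self, lc_one (j + j + q) (by omega) (by omega), hx1, mul_one,
      mul_one] at h5
    exact h5.symm
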