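import Pool.Agent.H436R2.NM.Defs

set_option autoImplicit false

namespace H436NM

open scoped commutatorElement

universe u

namespace E3aux

theorem ident {G : Type u} [Group G] (x y s : G) :
    ⁅⁅x, y⁆, s⁆ = (⁅x, y⁆ * (⁅⁅x, s⁆⁻¹, ⁅y, s⁆⁻¹⁆ * (⁅y, s⁆⁻¹ * ⁅⁅x, s⁆⁻¹, y⁆ * ⁅y, s⁆⁻¹⁻¹))⁻¹ *
      ⁅x, y⁆⁻¹) * ⁅⁅x, y⁆, ⁅x, s⁆⁻¹ * ⁅y, s⁆⁻¹⁆ * (⁅x, s⁆⁻¹ * ⁅x, ⁅y, s⁆⁻¹⁆ * ⁅x, s⁆⁻¹⁻¹)⁻¹ := by
  simp only [commutatorElement_def]
  group

end E3aux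

theorem tE3 : E3.{u} := by
  intro G _ i0 p k i q Γ s lc c hp hG hi0 hi hD hB j l hj hl ht
  obtain ⟨x, hx, hx1⟩ := hG.lc_surj j (by omega) (by omega)
  obtain ⟨y, hy, hy1⟩ := hG.lc_surj l (by omega) (by omega)
  have anti : ∀ a b, a ≤ b → Γ b ≤ Γ a := fun a b hab =>
    antitone_nat_of_succ_le hG.anti hab
  have mem_comm : ∀ a b, i ≤ a → i ≤ b → a + b + q ≤ k → ∀ u ∈ Γ a, ∀ v ∈ Γ b,
      ⁅u, v⁆ ∈ Γ (a + b + q) := fun a b h1 h2 h3 u hu v hv =>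
    hD a b h1 h2 h3 (Subgroup.commutator_mem_commutator hu hv)
  have lc_one : ∀ r, i0 ≤ r → r < k → lc r 1 = 0 := by
    intro r h1 h2
    have := hG.lc_mul r h1 h2 1 (one_mem _) 1 (one_mem _)
    rw [mul_one] at this
    simpa using this
  have lc_inv : ∀ r, i0 ≤ r → r < k → ∀ u ∈ Γ r, lc r u⁻¹ = - lc r u := by
    intro r h1 h2 u hu
    have := hG.lc_mul r h1 h2 u hu u⁻¹ (inv_mem hu)
    rw [mul_inv_cancel, lc_one r h1 h2] at this
    linear_combination -this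
  have h0 : i0 ≤ j + l + q + 1 := by omega
  have lc_zero : ∀ u ∈ Γ (j + l + q + 1 + 1), lc (j + l + q + 1) u = 0 := fun u hu =>
    (hG.lc_ker _ h0 ht u (hG.anti _ hu)).2 hu
  have conj_mem : ∀ r (g : G), ∀ u ∈ Γ r, g * u * g⁻¹ ∈ Γ r := fun r g u hu =>
    (hG.nor r).conj_mem u hu g
  have lc_conj : ∀ g : G, ∀ u ∈ Γ (j + l + q + 1),
      lc (j + l + q + 1) (g * u * g⁻¹) = lc (j + l + q + 1) u := by
    intro g u hu
    have h1 : ⁅u, g⁆ ∈ Γ (j + l + q + 1 + 1) := hG.act _ h0 ht g u hu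
    have h2 : g * u * g⁻¹ = ⁅u, g⁆⁻¹ * u := by
      simp only [commutatorElement_def]
      group
    rw [h2, hG.lc_mul _ h0 ht _ (inv_mem (hG.anti _ h1)) _ hu, lc_zero _ (inv_mem h1), zero_add]
  -- the elements
  have ha : ⁅x, s⁆⁻¹ ∈ Γ (j + 1) := inv_mem (hG.act j (by omega) (by omega) s x hx)
  have hb : ⁅y, s⁆⁻¹ ∈ Γ (l + 1) := inv_mem (hG.act l (by omega) (by omega) s y hy)
  have hla : lc (j + 1) ⁅x, s⁆⁻¹ = -1 := by
    rw [lc_inv _ (by omega) (by omega) _ (hG.act j (by omega) (by omega) s x hx),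
      hG.lc_s j (by omega) (by omega) x hx, hx1]
  have hlb : lc (l + 1) ⁅y, s⁆⁻¹ = -1 := by
    rw [lc_inv _ (by omega) (by omega) _ (hG.act l (by omega) (by omega) s y hy),
      hG.lc_s l (by omega) (by omega) y hy, hy1]
  have hu : ⁅x, y⁆ ∈ Γ (j + l + q) := mem_comm j l hj hl (by omega) x hx y hy
  have hlu : lc (j + l + q) ⁅x, y⁆ = c j l := by
    rw [hB j l hj hl (by omega) x hx y hy, hx1, hy1, mul_one, mul_one]
  generalize hadef : ⁅x, s⁆⁻¹ = a at ha hla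
  generalize hbdef : ⁅y, s⁆⁻¹ = b at hb hlb
  have hay : ⁅a, y⁆ ∈ Γ (j + l + q + 1) := by
    have := mem_comm (j + 1) l (by omega) hl (by omega) a ha y hy
    rwa [show j + 1 + l + q = j + l + q + 1 by omega] at this
  have hlay : lc (j + l + q + 1) ⁅a, y⁆ = - c (j + 1) l := by
    have := hB (j + 1) l (by omega) hl (by omega) a ha y hy
    rw [show j + 1 + l + q = j + l + q + 1 by omega, hla, hy1] at this
    rw [this]
    ring
  have hxb : ⁅x, b⁆ ∈ Γ (j + l + q + 1) := by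
    have := mem_comm j (l + 1) hj (by omega) (by omega) x hx b hb
    rwa [show j + (l + 1) + q = j + l + q + 1 by omega] at this
  have hlxb : lc (j + l + q + 1) ⁅x, b⁆ = - c j (l + 1) := by
    have := hB j (l + 1) hj (by omega) (by omega) x hx b hb
    rw [show j + (l + 1) + q = j + l + q + 1 by omega, hx1, hlb] at this
    rw [this]
    ring
  have hab : ⁅a, b⁆ ∈ Γ (j + l + q + 1 + 1) := by
    have := mem_comm (j + 1) (l + 1) (by omega) (by omega) (by omega) a ha b hb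
    rwa [show j + 1 + (l + 1) + q = j + l + q + 1 + 1 by omega] at this
  have hug : ⁅⁅x, y⁆, a * b⁆ ∈ Γ (j + l + q + 1 + 1) := by
    have e1 : ⁅⁅x, y⁆, a * b⁆ = ⁅⁅x, y⁆, a⁆ * (a * ⁅⁅x, y⁆, b⁆ * a⁻¹) := by
      simp only [commutatorElement_def]
      group
    rw [e1]
    refine mul_mem ?_ (conj_mem _ a _ ?_)
    · have := hG.comm (j + l + q) (j + 1) (by omega) (by omega)
        (Subgroup.commutator_mem_commutator hu ha)
      exact anti _ _ (by omega) this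
    · have := hG.comm (j + l + q) (l + 1) (by omega) (by omega)
        (Subgroup.commutator_mem_commutator hu hb)
      exact anti _ _ (by omega) this
  have hlhs : lc (j + l + q + 1) ⁅⁅x, y⁆, s⁆ = c j l := by
    rw [hG.lc_s (j + l + q) (by omega) ht _ hu, hlu]
  have hid := E3aux.ident x y s
  rw [hadef, hbdef] at hid
  have hQ : ⁅a, b⁆ * (b * ⁅a, y⁆ * b⁻¹) ∈ Γ (j + l + q + 1) :=
    mul_mem (hG.anti _ hab) (conj_mem _ b _ hay)
  have hlQ : lc (j + l + q + 1) (⁅a, b⁆ * (b * ⁅a, y⁆ * b⁻¹)) = - c (j + 1) l := by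
    rw [hG.lc_mul _ h0 ht _ (hG.anti _ hab) _ (conj_mem _ b _ hay), lc_zero _ hab, zero_add,
      lc_conj b _ hay, hlay]
  have hP : a * ⁅x, b⁆ * a⁻¹ ∈ Γ (j + l + q + 1) := conj_mem _ a _ hxb
  have hlP : lc (j + l + q + 1) (a * ⁅x, b⁆ * a⁻¹) = - c j (l + 1) := by
    rw [lc_conj a _ hxb, hlxb]
  have m1 := conj_mem _ ⁅x, y⁆ _ (inv_mem hQ)
  have m2 := hG.anti _ hug
  rw [hid, hG.lc_mul _ h0 ht _ (mul_mem m1 m2) _ (inv_mem hP), hG.lc_mul _ h0 ht _ m1 _ m2,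
    lc_conj _ _ (inv_mem hQ), lc_inv _ h0 ht _ hQ, lc_inv _ h0 ht _ hP, hlQ, hlP,
    lc_zero _ hug] at hlhs
  rw [← hlhs]
  ring

end H436NM
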