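import Pool.Agent.H436R2.NM.Defs

set_option autoImplicit false

namespace H436NM

open scoped commutatorElement

universe u

section
variable {G : Type u} [Group G] {i0 p m : ℕ} {Γ : ℕ → Subgroup G} {s : G} {lc : ℕ → G → ZMod p}

theorem TE4_one (gd : GD i0 p m Γ s lc) {t : ℕ} (h0 : i0 ≤ t) (h1 : t < m) : lc t 1 = 0 :=
  (gd.lc_ker t h0 h1 1 (Γ t).one_mem).2 (Γ (t + 1)).one_mem

theorem TE4_inv (gd : GD i0 p m Γ s lc) {t : ℕ} (h0 : i0 ≤ t) (h1 : t < m) {x : G} (hx : x ∈ Γ t) :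
    lc t x⁻¹ = - lc t x := by
  have h := gd.lc_mul t h0 h1 x hx x⁻¹ ((Γ t).inv_mem hx)
  rw [mul_inv_cancel, TE4_one gd h0 h1] at h
  exact (neg_eq_of_add_eq_zero_right h.symm).symm

theorem TE4_conj (gd : GD i0 p m Γ s lc) {t : ℕ} (h0 : i0 ≤ t) (h1 : t < m) {z : G} (hz : z ∈ Γ t)
    (g : G) : lc t (g * z * g⁻¹) = lc t z := by
  have h2 : ⁅z, g⁆ ∈ Γ (t + 1) := gd.act t h0 h1 g z hz
  have h3 : ⁅g, z⁆ ∈ Γ (t + 1) := by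
    rw [← commutatorElement_inv]; exact (Γ (t + 1)).inv_mem h2
  have h4 : ⁅g, z⁆ ∈ Γ t := gd.anti t h3
  have h5 : g * z * g⁻¹ = ⁅g, z⁆ * z := by
    rw [commutatorElement_def]; group
  rw [h5, gd.lc_mul t h0 h1 _ h4 _ hz, (gd.lc_ker t h0 h1 _ h4).2 h3, zero_add]

end

theorem tE4 : E4.{u} := by
  intro G _ i0 p k i q Γ s lc c hp gd h1 hi deg bil j k' l hj hk hl hT
  have hmem : ∀ a b, i ≤ a → i ≤ b → a + b + q ≤ k → ∀ x ∈ Γ a, ∀ y ∈ Γ b,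
      ⁅x, y⁆ ∈ Γ (a + b + q) := fun a b ha hb hab x hx y hy =>
    deg a b ha hb hab (Subgroup.commutator_mem_commutator hx hy)
  -- value of lc on double commutators
  have hdbl : ∀ a b d, i ≤ a → i ≤ b → i ≤ d → a + b + d + 2 * q = j + k' + l + 2 * q →
      ∀ x ∈ Γ a, ∀ y ∈ Γ b, ∀ z ∈ Γ d,
      ⁅⁅x, y⁆, z⁆ ∈ Γ (j + k' + l + 2 * q) ∧
      lc (j + k' + l + 2 * q) ⁅⁅x, y⁆, z⁆ =
        c (a + b + q) d * (c a b * lc a x * lc b y) * lc d z := by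
    intro a b d ha hb hd he x hx y hy z hz
    have hab : ⁅x, y⁆ ∈ Γ (a + b + q) := hmem a b ha hb (by omega) x hx y hy
    have h2 : ⁅⁅x, y⁆, z⁆ ∈ Γ (a + b + q + d + q) :=
      hmem (a + b + q) d (by omega) hd (by omega) _ hab z hz
    have h3 := bil (a + b + q) d (by omega) hd (by omega) _ hab z hz
    rw [bil a b ha hb (by omega) x hx y hy] at h3
    have h4 : a + b + q + d + q = j + k' + l + 2 * q := by omega
    rw [h4] at h2 h3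
    exact ⟨h2, h3⟩
  obtain ⟨x, hx, hx1⟩ := gd.lc_surj j (hi.trans hj) (by omega)
  obtain ⟨y, hy, hy1⟩ := gd.lc_surj k' (hi.trans hk) (by omega)
  obtain ⟨z, hz, hz1⟩ := gd.lc_surj l (hi.trans hl) (by omega)
  have hT0 : i0 ≤ j + k' + l + 2 * q := by omega
  have hxi := TE4_inv gd (hi.trans hj) (by omega) hx
  have hyi := TE4_inv gd (hi.trans hk) (by omega) hy
  have hzi := TE4_inv gd (hi.trans hl) (by omega) hz
  rw [hx1] at hxi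
  rw [hy1] at hyi
  rw [hz1] at hzi
  obtain ⟨m1, e1⟩ := hdbl j k' l hj hk hl (by omega) x hx y hy z hz
  obtain ⟨m2, e2⟩ := hdbl l j k' hl hj hk (by omega) z⁻¹ ((Γ l).inv_mem hz) x⁻¹
    ((Γ j).inv_mem hx) y hy
  obtain ⟨m3, e3⟩ := hdbl k' l j hk hl hj (by omega) y⁻¹ ((Γ k').inv_mem hy) z hz x⁻¹
    ((Γ j).inv_mem hx)
  have key : ⁅⁅x, y⁆, z⁆⁻¹ = ((x * z) * ⁅⁅z⁻¹, x⁻¹⁆, y⁆ * (x * z)⁻¹) *
      ((x * y) * ⁅⁅y⁻¹, z⁆, x⁻¹⁆ * (x * y)⁻¹) := by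
    simp only [commutatorElement_def]; group
  have hc2 : (x * z) * ⁅⁅z⁻¹, x⁻¹⁆, y⁆ * (x * z)⁻¹ ∈ Γ (j + k' + l + 2 * q) :=
    (gd.nor _).conj_mem _ m2 _
  have hc3 : (x * y) * ⁅⁅y⁻¹, z⁆, x⁻¹⁆ * (x * y)⁻¹ ∈ Γ (j + k' + l + 2 * q) :=
    (gd.nor _).conj_mem _ m3 _
  have hfin := congrArg (lc (j + k' + l + 2 * q)) key
  rw [TE4_inv gd hT0 hT m1, gd.lc_mul _ hT0 hT _ hc2 _ hc3, TE4_conj gd hT0 hT m2,
    TE4_conj gd hT0 hT m3, e1, e2, e3, hx1, hy1, hz1, hxi, hyi, hzi] at hfin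
  linear_combination -hfin
end H436NM
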