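import Pool.Agent.H436R2.NM.Defs

set_option autoImplicit false

open H436NM
open scoped commutatorElement

universe u

namespace H436NM

theorem tF0 : F0.{u} := by
  intro G _ i0 p k i Γ s lc hp hGD hi hik
  have hpf : Fact p.Prime := ⟨hp⟩
  have : NeZero p := ⟨hp.ne_zero⟩
  have hn1 := hGD.nor i
  have hn2 := hGD.nor (i + 1)
  obtain ⟨u, hu, hu1⟩ := hGD.lc_surj i hi hik
  have hone : lc i 1 = 0 := by
    have h := hGD.lc_mul i hi hik 1 (one_mem _) 1 (one_mem _)
    rw [mul_one] at h
    have h' : lc i 1 + 0 = lc i 1 + lc i 1 := by rw [add_zero]; exact h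
    exact (add_left_cancel h').symm
  have hpow : ∀ a : ℕ, lc i (u ^ a) = a := by
    intro a
    induction a with
    | zero => rw [pow_zero, hone]; simp
    | succ a ih =>
      rw [pow_succ, hGD.lc_mul i hi hik _ (pow_mem hu a) _ hu, ih, hu1]
      push_cast
      ring
  have hdec : ∀ x ∈ Γ i, ∃ (a : ℕ) (x' : G), x' ∈ Γ (i + 1) ∧ x = u ^ a * x' := by
    intro x hx
    refine ⟨(lc i x).val, (u ^ (lc i x).val)⁻¹ * x, ?_, by group⟩
    have hm : (u ^ (lc i x).val)⁻¹ * x ∈ Γ i := mul_mem (inv_mem (pow_mem hu _)) hx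
    rw [← hGD.lc_ker i hi hik _ hm]
    have h := hGD.lc_mul i hi hik (u ^ (lc i x).val) (pow_mem hu _) _ hm
    rw [mul_inv_cancel_left, hpow, ZMod.natCast_zmod_val] at h
    have h' : lc i x + 0 = lc i x + lc i ((u ^ (lc i x).val)⁻¹ * x) := by
      rw [add_zero]; exact h
    exact (add_left_cancel h').symm
  set M : Subgroup G := ⁅Γ i, Γ (i + 1)⁆ with hM
  have hMn : M.Normal := by rw [hM]; infer_instance
  have hcomm : ∀ g ∈ Γ i, ∀ h ∈ Γ (i + 1),
      Commute (QuotientGroup.mk' M g) (QuotientGroup.mk' M h) := by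
    intro g hg h hh
    have h1 : ⁅g, h⁆ ∈ M := Subgroup.commutator_mem_commutator hg hh
    rw [← commutatorElement_eq_one_iff_commute, ← map_commutatorElement]
    exact (QuotientGroup.eq_one_iff _).2 h1
  rw [Subgroup.commutator_le]
  intro x hx y hy
  obtain ⟨a, x', hx', rfl⟩ := hdec x hx
  obtain ⟨b, y', hy', rfl⟩ := hdec y hy
  have hx'i : x' ∈ Γ i := hGD.anti i hx'
  have hy'i : y' ∈ Γ i := hGD.anti i hy'
  have key : Commute (QuotientGroup.mk' M (u ^ a * x')) (QuotientGroup.mk' M (u ^ b * y')) := by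
    rw [map_mul, map_mul, map_pow, map_pow]
    have c1 := hcomm u hu y' hy'
    have c2 := hcomm u hu x' hx'
    have c3 := hcomm x' hx'i y' hy'
    have d1 : Commute (QuotientGroup.mk' M u ^ a) (QuotientGroup.mk' M u ^ b) :=
      (Commute.refl _).pow_pow a b
    exact ((d1.mul_right (c1.pow_left a))).mul_left ((c2.symm.pow_right b).mul_right c3)
  rw [← commutatorElement_eq_one_iff_commute, ← map_commutatorElement] at key
  exact (QuotientGroup.eq_one_iff _).1 key

end H436NM
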