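import Pool.Agent.H436R2.NM.Defs

open H436NM

open scoped commutatorElement

theorem H436NM.tF1 : H436NM.F1 := by
  intro p q i N c hA M hM h1
  have key : ∀ d j : ℕ, i ≤ j → 2 * j + d + q ≤ M → c j (j + d) = 0 := by
    intro d
    induction d using Nat.twoStepInduction with
    | zero =>
      intro j hj hl
      exact hA.diag j hj (by omega)
    | one =>
      intro j hj hl
      exact h1 j hj (by omega)
    | more d ih1 ih2 =>
      intro j hj hl
      have hD := hA.D j (j + (d + 1)) hj (by omega) (by omega)
      have e1 := ih2 j hj (by omega)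
      have e2 := ih1 (j + 1) (by omega) (by omega)
      rw [show j + 1 + d = j + (d + 1) by ring] at e2
      rw [e1, e2, zero_add] at hD
      exact hD.symm
  intro j l hj hl hjl
  rcases le_total j l with h | h
  · obtain ⟨d, rfl⟩ := Nat.exists_eq_add_of_le h
    exact key d j hj (by omega)
  · obtain ⟨d, rfl⟩ := Nat.exists_eq_add_of_le h
    rw [hA.skew _ _ hj hl (by omega), key d l hl (by omega), neg_zero]
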