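import Pool.Agent.H436R2.NM.Defs

open H436NM
open scoped commutatorElement

universe u

theorem H436NM.tF2 : H436NM.F2.{u} := by
  intro e1 e2 e3 e4 f0 f1 G _ i0 p k i Γ s lc hp hGD hi01 hi0 hik hnot
  classical
  have hi1 : 1 ≤ i := le_trans hi01 hi0
  have hanti : ∀ a b : ℕ, a ≤ b → Γ b ≤ Γ a := by
    intro a b hab
    induction hab with
    | refl => exact le_rfl
    | step _ ih => exact le_trans (hGD.anti _) ih
  have h0 : ¬ ⁅Γ i, Γ (i + 1)⁆ ≤ Γ k := by
    intro h
    exact hnot (le_trans (f0 G i0 p k i Γ s lc hp hGD hi0 hik) h)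
  have h1 : 2 * i + 1 < k := by
    by_contra hcon
    push Not at hcon
    apply h0
    refine le_trans (hGD.comm i (i + 1) hi1 (by omega)) ?_
    exact hanti k (i + (i + 1)) (by omega)
  have hD0 : Deg Γ k i 0 := by
    intro j l hj hl _
    exact hGD.comm j l (le_trans hi1 hj) (le_trans hi1 hl)
  obtain ⟨q, hq1, hq2, hq3⟩ : ∃ q, 2 * i + 1 + q ≤ k ∧ Deg Γ k i q ∧
      ¬ (2 * i + 1 + (q + 1) ≤ k ∧ Deg Γ k i (q + 1)) := by
    by_contra hcon
    push Not at hcon
    have hall : ∀ q, 2 * i + 1 + q ≤ k ∧ Deg Γ k i q := by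
      intro q
      induction q with
      | zero => exact ⟨by omega, hD0⟩
      | succ q ih =>
        exact hcon q ih.1 ih.2
    have := (hall k).1
    omega
  have hq4 : 2 * i + 1 + q < k := by
    rcases lt_or_eq_of_le hq1 with h | h
    · exact h
    · exfalso
      apply h0
      have := hq2 i (i + 1) le_rfl (by omega) (by omega)
      have e : i + (i + 1) + q = k := by omega
      rw [e] at this
      exact this
  have hq5 : ¬ Deg Γ k i (q + 1) := fun h => hq3 ⟨by omega, h⟩
  obtain ⟨c, hc⟩ := e1 G i0 p k i q Γ s lc hp hGD hi01 hi0 hq2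
  obtain ⟨s1, s2⟩ := e2 G i0 p k i q Γ s lc c hp hGD hi01 hi0 hq2 hc
  have s3 := e3 G i0 p k i q Γ s lc c hp hGD hi01 hi0 hq2 hc
  have s4 := e4 G i0 p k i q Γ s lc c hp hGD hi01 hi0 hq2 hc
  have hArr : Arr p q i (k - 1) c :=
    { skew := fun j l hj hl h => s1 j l hj hl (by omega)
      diag := fun j hj h => s2 j hj (by omega)
      D := fun j l hj hl h => s3 j l hj hl (by omega)
      jac := fun j k' l hj hk hl h => s4 j k' l hj hk hl (by omega) }
  have hex : ∃ j, i ≤ j ∧ 2 * j + 1 + q < k ∧ c j (j + 1) ≠ 0 := by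
    by_contra hcon
    push Not at hcon
    have hz := f1 p q i (k - 1) c hArr (k - 1) le_rfl
      (fun j hj h => hcon j hj (by omega))
    apply hq5
    intro j l hj hl hjl
    rw [Subgroup.commutator_le]
    intro x hx y hy
    have m1 : ⁅x, y⁆ ∈ Γ (j + l + q) :=
      hq2 j l hj hl (by omega) (Subgroup.commutator_mem_commutator hx hy)
    have m2 : lc (j + l + q) ⁅x, y⁆ = 0 := by
      rw [hc j l hj hl (by omega) x hx y hy, hz j l hj hl (by omega)]
      ring
    exact (hGD.lc_ker (j + l + q) (by omega) (by omega) _ m1).mp m2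
  refine ⟨q, Nat.find hex, c, hq2, hc, hArr, (Nat.find_spec hex).1, (Nat.find_spec hex).2.1,
    (Nat.find_spec hex).2.2, ?_⟩
  intro j hj hjb
  by_contra hne
  have := Nat.find_min hex hjb
  apply this
  refine ⟨hj, ?_, hne⟩
  have := (Nat.find_spec hex).2.1
  omega
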