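import Pool.Agent.H436R2.NM.Defs

set_option autoImplicit false

open H436NM
open scoped commutatorElement

universe u

theorem H436NM.tF3 : H436NM.F3.{u} := by
  intro G _ p n k i q b s lc c hMC hNM hkn hGD hi hDeg hBil hib hb hc
  haveI : Fact p.Prime := ⟨hMC.pr⟩
  have anti : ∀ j j' : ℕ, j ≤ j' → gam G j' ≤ gam G j := by
    intro j j' h
    induction h with
    | refl => exact le_rfl
    | step _ ih => exact (hGD.anti _).trans ih
  have hb2 : 2 ≤ b := hi.trans hib
  obtain ⟨g, hg, hg1⟩ := hGD.lc_surj b hb2 (by omega)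
  have hgn : g ∉ gam G (b + 1) := by
    intro h
    have := (hGD.lc_ker b hb2 (by omega) g hg).2 h
    rw [hg1] at this
    exact one_ne_zero this
  obtain ⟨x1, hx1, hx11⟩ := hGD.lc_surj (b + 1) (by omega) (by omega)
  have hbr := hBil b (b + 1) hib (by omega) (by omega) g hg x1 hx1
  rw [hg1, hx11, mul_one, mul_one] at hbr
  have hgx1 : ⁅g, x1⁆ ∉ gam G (b + (b + 1) + q + 1) := by
    intro h
    have hm : ⁅g, x1⁆ ∈ gam G (b + (b + 1) + q) := anti _ _ (Nat.le_succ _) h
    have := (hGD.lc_ker (b + (b + 1) + q) (by omega) (by omega) _ hm).2 h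
    rw [hbr] at this
    exact hc this
  intro t
  induction t using Nat.strong_induction_on with
  | _ t ih =>
    intro ht htk hct
    have hnle : ¬ ⁅gam G b, gam G b⁆ ≤ gam G (b + t + q + 1) := by
      intro h
      apply hgx1
      apply anti (b + (b + 1) + q + 1) (b + t + q + 1) (by omega)
      exact h (Subgroup.commutator_mem_commutator hg (anti b (b + 1) (Nat.le_succ _) hx1))
    obtain ⟨x, hx, hgx, hgxn⟩ := hNM b (b + t + q + 1) hb2 (by omega) (by omega) hnle g hg hgn
    rw [Nat.add_sub_cancel] at hgx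
    have hxt : x ∉ gam G (t + 1) := by
      intro h
      apply hgxn
      have h1 := hDeg b (t + 1) hib (by omega) (by omega)
      have h2 := h1 (Subgroup.commutator_mem_commutator hg h)
      have h3 : b + (t + 1) + q = b + t + q + 1 := by omega
      rw [h3] at h2
      exact h2
    have hex : ∃ r, b + 1 ≤ r ∧ r ≤ t ∧ x ∈ gam G r ∧ x ∉ gam G (r + 1) := by
      by_contra hcon
      push Not at hcon
      have : ∀ r, b + 1 ≤ r → r ≤ t + 1 → x ∈ gam G r := by
        intro r hr
        induction r, hr using Nat.le_induction with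
        | base => intro _; exact hx
        | succ r hr ih2 =>
          intro hrt
          exact hcon r hr (by omega) (ih2 (by omega))
      exact hxt (this (t + 1) (by omega) le_rfl)
    obtain ⟨r, hr1, hr2, hxr, hxrn⟩ := hex
    have hlr : lc r x ≠ 0 := fun h => hxrn ((hGD.lc_ker r (by omega) (by omega) x hxr).1 h)
    have hbl := hBil b r hib (by omega) (by omega) g hg x hxr
    rw [hg1, mul_one] at hbl
    have hmem : ⁅g, x⁆ ∈ gam G (b + r + q) :=
      hDeg b r hib (by omega) (by omega) (Subgroup.commutator_mem_commutator hg hxr)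
    rcases lt_or_eq_of_le hr2 with hlt | heq
    · have hcr := ih r hlt hr1 (by omega)
      have h1 : ⁅g, x⁆ ∈ gam G (b + r + q + 1) := anti _ (b + t + q) (by omega) hgx
      have h2 := (hGD.lc_ker (b + r + q) (by omega) (by omega) _ hmem).2 h1
      rw [hbl] at h2
      exact (mul_ne_zero hcr hlr) h2
    · subst heq
      rw [hct, zero_mul] at hbl
      exact hgxn ((hGD.lc_ker (b + r + q) (by omega) (by omega) _ hmem).1 hbl)
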