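import Pool.Agent.H436R2.NM.Defs
set_option autoImplicit false

open H436NM
open scoped commutatorElement

universe u

theorem H436NM.tF4 : H436NM.F4.{u} := by
  intro hG4 hF0 G _ p n k i q b s lc c hMC hkn hGD hi hDeg hBil hib hbk hc
  haveI := hMC.fin
  have hanti : Antitone (gam G) := antitone_nat_of_succ_le hGD.anti
  haveI hnor : ∀ j, (gam G j).Normal := hGD.nor
  set m : ℕ := 2 * b + 1 + q with hm
  have hmm : b + (b + 1) + q = m := by omega
  have hle : ⁅gam G b, gam G b⁆ ≤ gam G m := by
    refine (hF0 G 2 p k b (gam G) s lc hMC.pr hGD (hi.trans hib) (by omega)).trans ?_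
    have := hDeg b (b + 1) hib (by omega) (by omega)
    rw [hmm] at this
    exact this
  have hnle : ¬ ⁅gam G b, gam G b⁆ ≤ gam G (m + 1) := by
    intro h
    obtain ⟨x, hx, hx1⟩ := hGD.lc_surj b (by omega) (by omega)
    obtain ⟨y, hy, hy1⟩ := hGD.lc_surj (b + 1) (by omega) (by omega)
    have hxy : ⁅x, y⁆ ∈ ⁅gam G b, gam G b⁆ :=
      Subgroup.commutator_mem_commutator hx (hGD.anti b hy)
    have h1 := hBil b (b + 1) hib (by omega) (by omega) x hx y hy
    rw [hmm, hx1, hy1, mul_one, mul_one] at h1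
    have h2 := (hGD.lc_ker m (by omega) (by omega) ⁅x, y⁆ (hle hxy)).mpr (h hxy)
    rw [h1] at h2
    exact hc h2
  have hp1 : 1 < p := hMC.pr.one_lt
  have hcard : ∀ a d, 2 ≤ a → a < d → d ≤ n → ¬ gam G a ≤ gam G d := by
    intro a d ha had hdn h
    have h1 : Nat.card (gam G a) ≤ Nat.card (gam G d) :=
      Nat.card_le_card_of_injective (Subgroup.inclusion h) (Subgroup.inclusion_injective h)
    rw [hMC.card_gam a ha (by omega), hMC.card_gam d (by omega) hdn] at h1
    have h2 := (Nat.pow_le_pow_iff_right hp1).mp h1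
    omega
  haveI hN : (⁅gam G b, gam G b⁆ : Subgroup G).Normal := by
    haveI := hnor b
    infer_instance
  rcases hG4 G p n hMC ⁅gam G b, gam G b⁆ hN with h | ⟨j, hj2, hjn, hj⟩
  · exact absurd (h.trans hle) (hcard 2 m le_rfl (by omega) (by omega))
  · rw [hj]
    rw [hj] at hle hnle
    have h1 : j ≤ m := by
      by_contra hlt
      exact hnle (hanti (by omega))
    rcases h1.lt_or_eq with h2 | h2
    · exact absurd hle (hcard j m hj2 h2 (by omega))
    · rw [h2]
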