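import Pool.Agent.H436R2.NM.Defs

open scoped commutatorElement

universe u

namespace H436NM

theorem unif_exists (hU1 : U1.{u}) (G : Type u) [Group G] (p n m : ℕ) (hMC : MC p n G)
    (hmn : m ≤ n) (hmp : m ≤ p) : ∃ s : G, Unif G m s := by
  obtain ⟨s, hs⟩ := hU1 G p n hMC (Finset.Icc 2 (m - 2)) (by
    rw [Nat.card_Icc]; omega) (by
    intro j hj
    rw [Finset.mem_Icc] at hj
    omega)
  refine ⟨s, ?_⟩
  intro j h2 hjm x hx hx'
  exact hs j (by rw [Finset.mem_Icc]; omega) x hx hx'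

theorem log_bound (t S : ℕ) (hS : 1 ≤ S)
    (ht : t ≤ Nat.log 2 (S + 2) + Nat.log 2 (29 + 2 * S) + 6) :
    ((t + 4 : ℕ) : ℝ) ≤ (2 / Real.log 2) * Real.log (S : ℝ) + ((Real.log 3 + Real.log 31) / Real.log 2 + 10) := by
  have hl2 : 0 < Real.log 2 := Real.log_pos (by norm_num)
  have hS' : (1 : ℝ) ≤ S := by exact_mod_cast hS
  have key : ∀ x : ℕ, 1 ≤ x → ((Nat.log 2 x : ℕ) : ℝ) ≤ Real.log x / Real.log 2 := by
    intro x hx
    rw [le_div_iff₀ hl2, ← Real.log_pow]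
    apply Real.log_le_log (by positivity)
    exact_mod_cast Nat.pow_log_le_self 2 (by omega)
  have h1 := key (S + 2) (by omega)
  have h2 := key (29 + 2 * S) (by omega)
  have h3 : Real.log ((S + 2 : ℕ) : ℝ) ≤ Real.log 3 + Real.log S := by
    rw [← Real.log_mul (by norm_num) (by positivity)]
    apply Real.log_le_log (by positivity)
    push_cast
    linarith
  have h4 : Real.log ((29 + 2 * S : ℕ) : ℝ) ≤ Real.log 31 + Real.log S := by
    rw [← Real.log_mul (by norm_num) (by positivity)]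
    apply Real.log_le_log (by positivity)
    push_cast
    linarith
  have h5 : Real.log ((S + 2 : ℕ) : ℝ) / Real.log 2 ≤ (Real.log 3 + Real.log S) / Real.log 2 := by
    gcongr
  have h6 : Real.log ((29 + 2 * S : ℕ) : ℝ) / Real.log 2 ≤ (Real.log 31 + Real.log S) / Real.log 2 := by
    gcongr
  have h7 : ((t + 4 : ℕ) : ℝ) ≤ (Nat.log 2 (S + 2) : ℝ) + (Nat.log 2 (29 + 2 * S) : ℝ) + 10 := by
    have : t + 4 ≤ Nat.log 2 (S + 2) + Nat.log 2 (29 + 2 * S) + 10 := by omega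
    exact_mod_cast this
  have e1 : (2 / Real.log 2) * Real.log (S : ℝ) + ((Real.log 3 + Real.log 31) / Real.log 2 + 10)
      = (Real.log 3 + Real.log S) / Real.log 2 + (Real.log 31 + Real.log S) / Real.log 2 + 10 := by
    field_simp
    ring
  rw [e1]
  linarith

theorem tFin1 : Fin1.{u} := by
  intro hX3 hX2 hX1 hV2 hV1 hC5 hB1 hB2 hB3 hG hE hA hP hC
  obtain ⟨hG1, hG2, hG3, hG4, hG5, hU1, hU2, hD1, hD2⟩ := hG
  obtain ⟨hE1, hE2, hE3, hE4, hF0, hF1, hF2, hF3, hF4⟩ := hE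
  obtain ⟨hA1, hT1, hT2, hT3, hT4, hT5, hBLA, hBLO⟩ := hA
  obtain ⟨hP1, hP2, hP3, hP4⟩ := hP
  obtain ⟨hC1, hC2, hC3, hC4⟩ := hC
  -- uniform elements
  have hUn : ∀ (G : Type u) [Group G] (p n : ℕ), MC p n G → ∃ s, Unif G n s := by
    apply hB3 hU1 hU2
    intro G _ p n i hMC h3 hin hj g hg
    by_cases hi : i < 2 * p
    · exact hB1 hBLA hBLO hD2 ⟨hE1, hE2, hE3, hE4, hF0, hF1⟩ hU1 hU2 hG3 G p n i hMC h3 hi hin hj g hg
    · exact hB2 hP4 ⟨hP1, hP2, hP3, hG2, hG5⟩ hU1 hU2 hG3 G p n i hMC h3 (by omega) hin hj g hg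
  have hVV : ∀ (G : Type u) [Group G] (p n : ℕ), MC p n G → NMC n G → 6 * p ≤ n →
      ⁅gam G (p + 1), gam G (p + 1)⁆ ≤ gam G (n + 6 - 3 * p) := by
    intro G _ p n hMC hN h6
    obtain ⟨s, hs⟩ := hUn G p n hMC
    obtain ⟨lc, hlc⟩ := hD1 G p n n s hMC le_rfl hs
    exact hV1 hP4 ⟨hP1, hP2, hP3, hG2, hG3, hG5⟩ hF2 ⟨hE1, hE2, hE3, hE4, hF0, hF1⟩ hF3 G p n s lc
      hMC hN h6 hs hlc
  refine ⟨2 / Real.log 2, (Real.log 3 + Real.log 31) / Real.log 2 + 10, ?_⟩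
  intro G _ _ p n hp h2 hcard hcl hNM
  have hMC : MC p n G := hG1 G p n hp h2 hcard hcl
  have hNMC : NMC n G := hC5 hC1 hC2 hC3 hC4 hG2 hG3 hG4 G p n hMC hNM
  have hm2 : 2 ≤ min n p := le_min h2 hp.two_le
  have hmn : min n p ≤ n := min_le_left _ _
  have hmp : min n p ≤ p := min_le_right _ _
  obtain ⟨s, hs⟩ := unif_exists hU1 G p n (min n p) hMC hmn hmp
  obtain ⟨lc, hlc⟩ := hD1 G p n (min n p) s hMC hmn hs
  obtain ⟨t, ht, htb⟩ := hX3 hG2 hG3 G p n (min n p) hMC hm2 hmn (by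
    intro i v hi hv hiv hiv'
    apply hX2 hG3 G p n (min n p) i v hMC hmn hi hv
    exact hX1 hF2 ⟨hE1, hE2, hE3, hE4, hF0, hF1⟩ hF3 hF4 hG4 hA1 hT5 ⟨hT1, hT2, hT3, hT4⟩ G p n
      (min n p) i v s lc hMC hNMC hmn hmp hlc hi hv hiv hiv')
  have hbot := hV2 hG2 hG3 hVV G p n t hMC hNMC ht
  have hdl : dl G ≤ t + 4 := Nat.sInf_le hbot
  have hfin : (derSet G n).Finite := Set.toFinite _
  have hne : 1 ≤ (derSet G n).ncard := by
    have : (derSet G n).Nonempty := ⟨_, 1, le_rfl, by omega, rfl⟩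
    exact (Set.ncard_pos hfin).mpr this
  have h := log_bound t _ hne htb
  have h' : (dl G : ℝ) ≤ ((t + 4 : ℕ) : ℝ) := by exact_mod_cast hdl
  exact h'.trans h

end H436NM
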