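import Pool.Agent.H436R2.NM.Defs

set_option autoImplicit false

open H436NM
open scoped commutatorElement

universe u

namespace H436NM

/-- If `G / γ_2` is cyclic then `γ_2 = γ_3`. -/
theorem tG1_cyc (G : Type u) [Group G] (hc : IsCyclic (G ⧸ (⊤ : Subgroup G).lowerCentralSeries 1)) :
    (⊤ : Subgroup G).lowerCentralSeries 1 ≤ (⊤ : Subgroup G).lowerCentralSeries 2 := by
  set L1 := (⊤ : Subgroup G).lowerCentralSeries 1 with hL1
  set L2 := (⊤ : Subgroup G).lowerCentralSeries 2 with hL2
  have h21 : L2 ≤ L1 := Subgroup.lowerCentralSeries_antitone _ (by norm_num)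
  haveI : L1.Normal := by rw [hL1]; infer_instance
  haveI : L2.Normal := by rw [hL2]; infer_instance
  let f : G ⧸ L2 →* G ⧸ L1 := QuotientGroup.map L2 L1 (MonoidHom.id G) (by simpa using h21)
  have hf : f.ker ≤ Subgroup.center (G ⧸ L2) := by
    intro x hx
    obtain ⟨g, rfl⟩ := QuotientGroup.mk_surjective x
    have hg : g ∈ L1 := by
      have h : f (QuotientGroup.mk g) = 1 := hx
      have h' : (QuotientGroup.mk g : G ⧸ L1) = 1 := h
      exact (QuotientGroup.eq_one_iff g).1 h'
    rw [Subgroup.mem_center_iff]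
    intro y
    obtain ⟨h, rfl⟩ := QuotientGroup.mk_surjective y
    have hmem : ⁅g, h⁆ ∈ L2 := Subgroup.commutator_mem_commutator hg (Subgroup.mem_top h)
    have hq : (QuotientGroup.mk ⁅g, h⁆ : G ⧸ L2) = 1 := (QuotientGroup.eq_one_iff _).2 hmem
    have hq' : ⁅(QuotientGroup.mk g : G ⧸ L2), (QuotientGroup.mk h : G ⧸ L2)⁆ = 1 := hq
    exact (commutatorElement_eq_one_iff_mul_comm.1 hq').symm
  have hcomm : ∀ a b : G ⧸ L2, a * b = b * a :=
    fun a b => (f.isMulCommutative_of_isCyclic_of_ker_le_center hf).is_comm.comm a b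
  change ⁅(⊤ : Subgroup G), (⊤ : Subgroup G)⁆ ≤ L2
  rw [Subgroup.commutator_le]
  intro a _ b _
  have : ⁅(QuotientGroup.mk a : G ⧸ L2), (QuotientGroup.mk b : G ⧸ L2)⁆ = 1 :=
    commutatorElement_eq_one_iff_mul_comm.2 (hcomm _ _)
  exact (QuotientGroup.eq_one_iff _).1 this

theorem tG1 : G1.{u} := by
  intro G _ _ p n hp hn hcard hcl
  haveI := Fact.mk hp
  have hpg : IsPGroup p G := IsPGroup.of_card hcard
  haveI : Group.IsNilpotent G := hpg.isNilpotent
  obtain ⟨L, hL⟩ : ∃ L : ℕ → Subgroup G, L = fun k => (⊤ : Subgroup G).lowerCentralSeries k := ⟨_, rfl⟩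
  have hbot : L (n - 1) = ⊥ := by
    rw [hL]
    exact Subgroup.lowerCentralSeries_eq_bot_iff_nilpotencyClass_le.2 (by rw [hcl])
  have hne : ∀ k, k < n - 1 → L k ≠ ⊥ := by
    intro k hk h
    rw [hL] at h
    have := Subgroup.lowerCentralSeries_eq_bot_iff_nilpotencyClass_le.1 h
    omega
  have hanti : Antitone L := by rw [hL]; exact Subgroup.lowerCentralSeries_antitone _
  have hsucc : ∀ k, L (k + 1) = ⁅L k, (⊤ : Subgroup G)⁆ := by intro k; rw [hL]; rfl
  have hstab : ∀ k, L (k + 1) = L k → ∀ m, k ≤ m → L m = L k := by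
    intro k h m hm
    induction m, hm using Nat.le_induction with
    | base => rfl
    | succ m hm ih => rw [hsucc, ih, ← hsucc, h]
  have hne2 : ∀ k, k < n - 1 → L (k + 1) ≠ L k := by
    intro k hk h
    apply hne k hk
    rw [← hstab k h (n - 1) hk.le]
    exact hbot
  have hex : ∀ k, ∃ e ≤ n, Nat.card (L k) = p ^ e := by
    intro k
    have := Subgroup.card_subgroup_dvd_card (L k)
    rw [hcard] at this
    exact (Nat.dvd_prime_pow hp).1 this
  choose e he1 he using hex
  have hpow : ∀ a b : ℕ, p ^ a ≤ p ^ b → a ≤ b := fun a b h => (Nat.pow_le_pow_iff_right hp.one_lt).1 h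
  have he0 : e 0 = n := by
    have h0 : L 0 = ⊤ := by rw [hL]; rfl
    have h := he 0
    rw [h0, Subgroup.card_top, hcard] at h
    exact (Nat.pow_right_injective hp.two_le h).symm
  have helt : ∀ k, k < n - 1 → e (k + 1) < e k := by
    intro k hk
    by_contra h
    push Not at h
    apply hne2 k hk
    apply Subgroup.eq_of_le_of_card_ge (hanti (Nat.le_succ k))
    rw [he, he]
    exact Nat.pow_le_pow_right hp.pos h
  have heend : e (n - 1) = 0 := by
    have h := he (n - 1)
    rw [hbot, Subgroup.card_bot] at h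
    have h2 : p ^ 0 = p ^ e (n - 1) := by rw [pow_zero]; exact h
    exact (Nat.pow_right_injective hp.two_le h2).symm
  have hlow : ∀ d, d ≤ n - 1 → d ≤ e (n - 1 - d) := by
    intro d
    induction d with
    | zero => intro _; omega
    | succ d ih =>
      intro hd
      have h1 := ih (by omega)
      have h2 := helt (n - 1 - (d + 1)) (by omega)
      have h3 : n - 1 - (d + 1) + 1 = n - 1 - d := by omega
      rw [h3] at h2
      omega
  have he1n : e 1 + 2 ≤ n := by
    by_contra hcon
    push Not at hcon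
    have hlt0 := helt 0 (by omega)
    simp only [zero_add] at hlt0
    rw [he0] at hlt0
    have he1' : e 1 = n - 1 := by omega
    -- index is p
    have hidx : (L 1).index = p := by
      have h := Subgroup.card_mul_index (L 1)
      rw [he 1, he1', hcard] at h
      have h2 : p ^ n = p ^ (n - 1) * p := by rw [← pow_succ]; congr 1; omega
      rw [h2] at h
      exact Nat.eq_of_mul_eq_mul_left (pow_pos hp.pos _) h
    have hcyc : IsCyclic (G ⧸ (⊤ : Subgroup G).lowerCentralSeries 1) := by
      apply isCyclic_of_prime_card (p := p)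
      have h : Nat.card (G ⧸ L 1) = p := by rw [← Subgroup.index_eq_card]; exact hidx
      rw [hL] at h
      exact h
    have h12 := tG1_cyc G hcyc
    have h21 : L 2 = L 1 := by
      apply le_antisymm (hanti (by norm_num))
      rw [hL]
      exact h12
    by_cases h1 : 1 < n - 1
    · exact hne2 1 h1 h21
    · have : n = 2 := by omega
      subst this
      have : e 1 = 0 := heend
      omega
  have hup : ∀ k, 1 ≤ k → k ≤ n - 1 → e k + k + 1 ≤ n := by
    intro k hk
    induction k, hk using Nat.le_induction with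
    | base => intro _; omega
    | succ k hk ih =>
      intro h
      have h1 := ih (by omega)
      have h2 := helt k (by omega)
      omega
  refine ⟨hp, inferInstance, hn, hcard, ?_⟩
  intro j hj2 hjn
  have hg : gam G j = L (j - 1) := by rw [hL]; rfl
  rw [hg, he]
  congr 1
  have h1 := hup (j - 1) (by omega) (by omega)
  have h2 := hlow (n - j) (by omega)
  have h3 : n - 1 - (n - j) = j - 1 := by omega
  rw [h3] at h2
  omega

end H436NM
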