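import Pool.Agent.H436R2.NM.Defs

open H436NM

open scoped commutatorElement

universe u

namespace H436NM

theorem tG3_anti (G : Type u) [Group G] {i j : ℕ} (h : i ≤ j) : gam G j ≤ gam G i := by
  unfold gam
  exact Subgroup.lowerCentralSeries_antitone _ (by omega)

theorem tG3_normal (G : Type u) [Group G] (j : ℕ) : (gam G j).Normal := by
  unfold gam
  infer_instance

theorem tG3_card (G : Type u) [Group G] (p n : ℕ) (h : MC p n G) (j : ℕ) (hj : 1 ≤ j)
    (hjn : j < n) : ¬ gam G j ≤ gam G (j + 1) := by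
  intro hle
  have := h.fin
  have h1 : Nat.card (gam G j) ≤ Nat.card (gam G (j + 1)) :=
    Subgroup.card_le_of_le hle
  rw [h.card_gam (j + 1) (by omega) (by omega)] at h1
  have hp := h.pr.one_lt
  rcases Nat.lt_or_ge 1 j with h2 | h2
  · rw [h.card_gam j (by omega) (by omega)] at h1
    have := (Nat.pow_le_pow_iff_right hp).mp h1
    omega
  · have hj1 : j = 1 := le_antisymm h2 hj
    subst hj1
    have h3 : gam G 1 = ⊤ := rfl
    rw [h3, Subgroup.card_top, h.card] at h1
    have := (Nat.pow_le_pow_iff_right hp).mp h1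
    omega

theorem tG3_index (G : Type u) [Group G] (p n : ℕ) (h : MC p n G) (j : ℕ) (hj : 2 ≤ j)
    (hjn : j < n) : ((gam G (j + 1)).subgroupOf (gam G j)).index = p := by
  have := h.fin
  have h1 := Subgroup.card_mul_index ((gam G (j + 1)).subgroupOf (gam G j))
  have h2 : Nat.card ((gam G (j + 1)).subgroupOf (gam G j)) = Nat.card (gam G (j + 1)) :=
    Nat.card_congr (Subgroup.subgroupOfEquivOfLe (tG3_anti G (Nat.le_succ j))).toEquiv
  rw [h2, h.card_gam (j + 1) (by omega) (by omega), h.card_gam j hj (by omega)] at h1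
  have h3 : p ^ (n - j) = p ^ (n - (j + 1)) * p := by
    rw [← pow_succ]
    congr 1
    omega
  rw [h3] at h1
  exact Nat.eq_of_mul_eq_mul_left (Nat.pow_pos h.pr.pos) h1

end H436NM

theorem H436NM.tG3 : H436NM.G3.{u} := by
  intro G _ p n h
  have := h.fin
  have : Fact p.Prime := ⟨h.pr⟩
  refine ⟨?_, fun j hj hjn => tG3_card G p n h j hj hjn, ?_, ?_, ?_⟩
  · rw [← Subgroup.card_eq_one, h.card_gam n h.two_le le_rfl, Nat.sub_self, pow_zero]
  · intro j hj hjn x hx hx' y hy
    have := tG3_normal G (j + 1)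
    have : ((gam G (j + 1)).subgroupOf (gam G j)).Normal := inferInstance
    have hcard : Nat.card (gam G j ⧸ (gam G (j + 1)).subgroupOf (gam G j)) = p := by
      rw [← Subgroup.index_eq_card]
      exact tG3_index G p n h j hj hjn
    have hne : ((⟨x, hx⟩ : gam G j) : gam G j ⧸ (gam G (j + 1)).subgroupOf (gam G j)) ≠ 1 := by
      rw [Ne, QuotientGroup.eq_one_iff, Subgroup.mem_subgroupOf]
      exact hx'
    obtain ⟨t, ht⟩ := mem_powers_of_prime_card hcard hne
      (g' := ((⟨y, hy⟩ : gam G j) : gam G j ⧸ (gam G (j + 1)).subgroupOf (gam G j)))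
    refine ⟨t, ?_⟩
    have ht' : ((⟨x, hx⟩ ^ t : gam G j) : gam G j ⧸ (gam G (j + 1)).subgroupOf (gam G j)) =
        ((⟨y, hy⟩ : gam G j) : gam G j ⧸ (gam G (j + 1)).subgroupOf (gam G j)) := ht
    have h1 : ((⟨y, hy⟩ * (⟨x, hx⟩ ^ t)⁻¹ : gam G j) :
        gam G j ⧸ (gam G (j + 1)).subgroupOf (gam G j)) = 1 := by
      rw [QuotientGroup.mk_mul, QuotientGroup.mk_inv, ht', mul_inv_cancel]
    rw [QuotientGroup.eq_one_iff, Subgroup.mem_subgroupOf] at h1
    exact h1
  · intro i j hi hj hin hjn hij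
    rcases lt_trichotomy i j with h1 | h1 | h1
    · exfalso
      refine tG3_card G p n h i hi (by omega) ?_
      rw [hij]
      exact tG3_anti G (by omega)
    · exact h1
    · exfalso
      refine tG3_card G p n h j hj (by omega) ?_
      rw [← hij]
      exact tG3_anti G (by omega)
  · intro j hj hjn x hx
    have := tG3_normal G (j + 1)
    have : ((gam G (j + 1)).subgroupOf (gam G j)).Normal := inferInstance
    have hcard : Nat.card (gam G j ⧸ (gam G (j + 1)).subgroupOf (gam G j)) = p := by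
      rw [← Subgroup.index_eq_card]
      exact tG3_index G p n h j hj hjn
    have h1 : ((⟨x, hx⟩ ^ p : gam G j) : gam G j ⧸ (gam G (j + 1)).subgroupOf (gam G j)) = 1 := by
      rw [QuotientGroup.mk_pow]
      have := pow_card_eq_one' (x := ((⟨x, hx⟩ : gam G j) :
        gam G j ⧸ (gam G (j + 1)).subgroupOf (gam G j)))
      rwa [hcard] at this
    rw [QuotientGroup.eq_one_iff, Subgroup.mem_subgroupOf] at h1
    exact h1
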