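import Pool.Agent.H436R2.NM.Defs

/-! # G4: normal subgroups of a group of maximal class -/

namespace H436NM

open scoped commutatorElement

universe u

/-- if all commutators are trivial modulo `K` then `γ_2 ≤ K` -/
theorem g4_two {G : Type u} [Group G] (K : Subgroup G) [K.Normal]
    (h : ∀ a b : G ⧸ K, a * b = b * a) : gam G 2 ≤ K := by
  show (⊤ : Subgroup G).lowerCentralSeries (0 + 1) ≤ K
  rw [Subgroup.lowerCentralSeries_succ, Subgroup.commutator_le]
  intro a _ b _
  rw [← QuotientGroup.eq_one_iff, commutatorElement_def]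
  have h1 := h (a : G ⧸ K) (b : G ⧸ K)
  simp only [QuotientGroup.mk_mul, QuotientGroup.mk_inv]
  rw [h1]
  group

/-- a central subgroup of order `p` -/
theorem g4_central {Q : Type u} [Group Q] [Finite Q] (p i : ℕ) [hp : Fact p.Prime]
    (hQ : Nat.card Q = p ^ (i + 1)) :
    ∃ Z : Subgroup Q, (∀ z ∈ Z, ∀ x : Q, z * x = x * z) ∧ Nat.card Z = p := by
  classical
  have hpg : IsPGroup p Q := IsPGroup.of_card hQ
  have hnt : Nontrivial Q := by
    have h1 : 1 < Nat.card Q := by
      rw [hQ]
      exact Nat.one_lt_pow (Nat.succ_ne_zero i) hp.out.one_lt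
    exact Finite.one_lt_card_iff_nontrivial.1 h1
  have hc : Nontrivial (Subgroup.center Q) := hpg.center_nontrivial
  have hcp : IsPGroup p (Subgroup.center Q) := hpg.to_subgroup _
  obtain ⟨k, hk⟩ := (IsPGroup.iff_card (G := Subgroup.center Q)).1 hcp
  have hk0 : k ≠ 0 := by
    intro h0
    rw [h0, pow_zero] at hk
    have := Finite.one_lt_card_iff_nontrivial.2 hc
    omega
  have hdvd : p ∣ Nat.card (Subgroup.center Q) := by
    rw [hk]
    exact dvd_pow_self p hk0
  obtain ⟨z, hz⟩ := exists_prime_orderOf_dvd_card' p hdvd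
  refine ⟨Subgroup.zpowers (z : Q), ?_, ?_⟩
  · intro w hw x
    obtain ⟨m, rfl⟩ := Subgroup.mem_zpowers_iff.1 hw
    have h1 : (z : Q) ^ m ∈ Subgroup.center Q := Subgroup.zpow_mem _ z.2 m
    exact (Subgroup.mem_center_iff.1 h1 x).symm
  · rw [Nat.card_zpowers]
    rw [← hz]
    exact Subgroup.orderOf_coe z

theorem g4_main {G : Type u} [Group G] [Finite G] (p : ℕ) [hp : Fact p.Prime] :
    ∀ i, ∀ K : Subgroup G, K.Normal → K.index = p ^ (i + 2) → gam G (i + 2) ≤ K := by
  intro i
  induction i with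
  | zero =>
    intro K hK hi
    refine g4_two K ?_
    refine IsPGroup.commutative_of_card_eq_prime_sq (p := p) ?_
    rw [← Subgroup.index_eq_card]
    exact hi
  | succ i ih =>
    intro K hK hi
    have hQ : Nat.card (G ⧸ K) = p ^ (i + 2 + 1) := by
      rw [← Subgroup.index_eq_card]
      exact hi
    obtain ⟨Z, hZc, hZp⟩ := g4_central p (i + 2) hQ
    have hZn : Z.Normal := by
      refine ⟨fun z hz g => ?_⟩
      rw [← hZc z hz g, mul_assoc, mul_inv_cancel, mul_one]
      exact hz
    have hKn : (Z.comap (QuotientGroup.mk' K)).Normal := hZn.comap _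
    have hidx : (Z.comap (QuotientGroup.mk' K)).index = p ^ (i + 2) := by
      rw [Subgroup.index_comap_of_surjective _ (QuotientGroup.mk'_surjective K)]
      have h1 := Subgroup.card_mul_index Z
      rw [hZp, hQ, pow_succ p (i + 2), mul_comm (p ^ (i + 2)) p] at h1
      exact Nat.eq_of_mul_eq_mul_left hp.out.pos h1
    have h2 := ih _ hKn hidx
    show (⊤ : Subgroup G).lowerCentralSeries (i + 1 + 1) ≤ K
    rw [Subgroup.lowerCentralSeries_succ, Subgroup.commutator_le]
    intro a ha b _
    have h3 : (a : G ⧸ K) ∈ Z := h2 ha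
    have h4 := hZc _ h3 (b : G ⧸ K)
    rw [← QuotientGroup.eq_one_iff, commutatorElement_def]
    simp only [QuotientGroup.mk_mul, QuotientGroup.mk_inv]
    rw [h4]
    group

theorem tG4 : G4.{u} := by
  intro G _ p n hM N hN
  have hp : Fact p.Prime := ⟨hM.pr⟩
  have hfin : Finite G := hM.fin
  have hmul := Subgroup.card_mul_index N
  rw [hM.card] at hmul
  obtain ⟨i, hin, hi⟩ := (Nat.dvd_prime_pow hM.pr).1 (Dvd.intro_left _ hmul)
  rcases Nat.lt_or_ge i 2 with h2 | h2
  · left
    refine g4_two N ?_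
    have hcyc : IsCyclic (G ⧸ N) := by
      rcases Nat.lt_or_ge i 1 with h1 | h1
      · have h0 : i = 0 := by omega
        rw [h0, pow_zero] at hi
        have hc : Nat.card (G ⧸ N) = 1 := by
          rw [← Subgroup.index_eq_card]; exact hi
        have : Subsingleton (G ⧸ N) := (Nat.card_eq_one_iff_unique.1 hc).1
        exact isCyclic_of_subsingleton
      · have h0 : i = 1 := by omega
        rw [h0, pow_one] at hi
        have hc : Nat.card (G ⧸ N) = p := by
          rw [← Subgroup.index_eq_card]; exact hi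
        exact isCyclic_of_prime_card hc
    intro a b
    obtain ⟨g, hg⟩ := hcyc.exists_generator
    obtain ⟨x, rfl⟩ := Subgroup.mem_zpowers_iff.1 (hg a)
    obtain ⟨y, rfl⟩ := Subgroup.mem_zpowers_iff.1 (hg b)
    rw [← zpow_add, ← zpow_add, add_comm]
  · right
    refine ⟨i, h2, hin, ?_⟩
    obtain ⟨j, rfl⟩ : ∃ j, i = j + 2 := ⟨i - 2, by omega⟩
    have hle := g4_main p j N hN hi
    symm
    refine Subgroup.eq_of_le_of_card_ge hle ?_
    rw [hM.card_gam (j + 2) h2 hin]
    have hpos : 0 < p ^ (j + 2) := pow_pos hM.pr.pos _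
    rw [hi] at hmul
    have h5 : p ^ n = p ^ (n - (j + 2)) * p ^ (j + 2) := by
      rw [← pow_add]
      congr 1
      omega
    rw [h5] at hmul
    exact (Nat.eq_of_mul_eq_mul_right hpos hmul).le

end H436NM
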