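import Mathlib
import Pool.Agent.H436R2.NM.Defs

set_option autoImplicit false

open H436NM
open scoped commutatorElement

universe u

theorem H436NM.tG5 : H436NM.G5.{u} := by
  intro G _ p n hMC hn g
  have hp := hMC.pr
  have hfin := hMC.fin
  have hc2 : Nat.card (gam G 2) = p ^ (n - 2) := hMC.card_gam 2 le_rfl (by omega)
  have hc3 : Nat.card (gam G 3) = p ^ (n - 3) := hMC.card_gam 3 (by omega) hn
  have hcG := hMC.card
  have hn2 : (gam G 2).Normal :=
    inferInstanceAs (((⊤ : Subgroup G).lowerCentralSeries (2 - 1)).Normal)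
  have hn3 : (gam G 3).Normal :=
    inferInstanceAs (((⊤ : Subgroup G).lowerCentralSeries (3 - 1)).Normal)
  have h32 : gam G 3 ≤ gam G 2 :=
    (⊤ : Subgroup G).lowerCentralSeries_antitone (by omega : 2 - 1 ≤ 3 - 1)
  have hcomm2 : ∀ x y : G, ⁅x, y⁆ ∈ gam G 2 := fun x y =>
    Subgroup.commutator_mem_commutator (Subgroup.mem_top x) (Subgroup.mem_top y)
  have hcomm3 : ∀ x ∈ gam G 2, ∀ y : G, ⁅x, y⁆ ∈ gam G 3 := fun x hx y =>
    Subgroup.commutator_mem_commutator (H₁ := (⊤ : Subgroup G).lowerCentralSeries 1) hx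
      (Subgroup.mem_top y)
  by_contra hg
  -- the quotient by `gam 2` has order `p ^ 2`
  have hQ : Nat.card (G ⧸ gam G 2) = p ^ 2 := by
    have h1 := Subgroup.card_eq_card_quotient_mul_card_subgroup (gam G 2)
    rw [hcG, hc2] at h1
    have h2 : p ^ n = p ^ 2 * p ^ (n - 2) := by
      rw [← pow_add]
      congr 1
      omega
    rw [h2] at h1
    exact (Nat.eq_of_mul_eq_mul_right (pow_pos hp.pos _) h1).symm
  have hfQ : Finite (G ⧸ gam G 2) := inferInstance
  have hord : orderOf (QuotientGroup.mk g : G ⧸ gam G 2) = p ^ 2 := by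
    have h1 : orderOf (QuotientGroup.mk g : G ⧸ gam G 2) ∣ p ^ 2 := by
      rw [← hQ]
      exact orderOf_dvd_natCard _
    obtain ⟨k, hk, hk2⟩ := (Nat.dvd_prime_pow hp).1 h1
    have hk3 : k = 2 := by
      by_contra hne
      have hk4 : k ≤ 1 := by omega
      apply hg
      have h3 : orderOf (QuotientGroup.mk g : G ⧸ gam G 2) ∣ p := by
        rw [hk2]
        calc p ^ k ∣ p ^ 1 := pow_dvd_pow p hk4
          _ = p := pow_one p
      have h4 : (QuotientGroup.mk g : G ⧸ gam G 2) ^ p = 1 := orderOf_dvd_iff_pow_eq_one.1 h3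
      rw [← QuotientGroup.mk_pow, QuotientGroup.eq_one_iff] at h4
      exact h4
    rw [hk2, hk3]
  have hcyc : IsCyclic (G ⧸ gam G 2) :=
    isCyclic_of_orderOf_eq_card (QuotientGroup.mk g : G ⧸ gam G 2) (by rw [hord, hQ])
  -- the quotient by `gam 3` is abelian
  let f : G ⧸ gam G 3 →* G ⧸ gam G 2 :=
    QuotientGroup.map (gam G 3) (gam G 2) (MonoidHom.id G) (by
      intro x hx
      exact h32 hx)
  have hker : f.ker ≤ Subgroup.center (G ⧸ gam G 3) := by
    intro x hx
    obtain ⟨x, rfl⟩ := QuotientGroup.mk_surjective x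
    have hx2 : x ∈ gam G 2 := by
      have h1 : (QuotientGroup.mk x : G ⧸ gam G 2) = 1 := hx
      exact (QuotientGroup.eq_one_iff x).1 h1
    rw [Subgroup.mem_center_iff]
    intro y
    obtain ⟨y, rfl⟩ := QuotientGroup.mk_surjective y
    rw [← QuotientGroup.mk_mul, ← QuotientGroup.mk_mul, QuotientGroup.eq]
    have h1 := hcomm3 x⁻¹ (inv_mem hx2) y⁻¹
    have h2 : (y * x)⁻¹ * (x * y) = ⁅x⁻¹, y⁻¹⁆ := by
      rw [commutatorElement_def]
      group
    rw [h2]
    exact h1
  have hab : ∀ x y : G ⧸ gam G 3, x * y = y * x :=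
    commutative_of_cyclic_center_quotient f hker
  have h23 : gam G 2 ≤ gam G 3 := by
    have h1 : ⁅(⊤ : Subgroup G), ⊤⁆ ≤ gam G 3 := by
      rw [Subgroup.commutator_le]
      intro x _ y _
      have h2 := hab (QuotientGroup.mk y) (QuotientGroup.mk x)
      rw [← QuotientGroup.mk_mul, ← QuotientGroup.mk_mul, QuotientGroup.eq] at h2
      have h3 := hn3.conj_mem _ h2 (y * x)
      have h4 : y * x * ((y * x)⁻¹ * (x * y)) * (y * x)⁻¹ = ⁅x, y⁆ := by
        rw [commutatorElement_def]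
        group
      rwa [h4] at h3
    exact h1
  have hle := Nat.card_mono (Set.toFinite _) h23
  have hle' : Nat.card (gam G 2) ≤ Nat.card (gam G 3) := hle
  rw [hc2, hc3] at hle'
  have hlt : p ^ (n - 3) < p ^ (n - 2) := Nat.pow_lt_pow_right hp.one_lt (by omega)
  omega
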