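import Pool.Agent.H436R2.NM.Defs

open H436NM

open scoped commutatorElement

universe u

theorem H436NM.tP1 : H436NM.P1.{u} := by
  intro hG5 G _ p n m s hMC hm hmn hU
  by_contra hcon
  have h2 : s ^ p ∈ gam G 2 := hG5 G p n hMC (by omega) s
  have key : ∀ d : ℕ, d + 3 ≤ m → s ^ p ∈ gam G (2 + d) := by
    intro d
    induction d with
    | zero => exact fun _ => h2
    | succ d ih =>
      intro hd
      by_contra hc
      have h3 := hU (2 + d) (by omega) (by omega) (s ^ p) (ih (by omega)) hc
      apply h3
      have h4 : ⁅s ^ p, s⁆ = 1 := by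
        rw [commutatorElement_eq_one_iff_mul_comm]
        exact (Commute.refl s).pow_left p
      rw [h4]
      exact Subgroup.one_mem _
  apply hcon
  have := key (m - 3) (by omega)
  rwa [show 2 + (m - 3) = m - 1 by omega] at this
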