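import Pool.Agent.H436R2.NM.Defs

/-!
Task P2 of the project NM (helper436): successive approximation of `s * a` by conjugates of `s`.
-/

universe u

open H436NM
open scoped commutatorElement

namespace H436NM

theorem tP2_aux {Q : Type*} [Group Q] (T W U Z : Q) (k : ℕ) (hU : ∀ g : Q, U * g = g * U)
    (hdef : T⁻¹ * W⁻¹ * T * W = U) (hZ : Z = U ^ k) :
    ((W ^ k)⁻¹ * T * W ^ k)⁻¹ * (T * Z) = 1 := by
  have h1 : T⁻¹ * W⁻¹ * T = U * W⁻¹ := by
    rw [← hdef]; group
  have h2 : (T⁻¹ * W⁻¹ * T) ^ k = T⁻¹ * (W ^ k)⁻¹ * T := by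
    have := conj_pow (i := k) (a := T⁻¹) (b := W⁻¹)
    rw [inv_inv] at this
    rw [this, inv_pow]
  have hc : Commute U W⁻¹ := hU W⁻¹
  have h3 : (U * W⁻¹) ^ k = U ^ k * (W ^ k)⁻¹ := by
    rw [hc.mul_pow, inv_pow]
  have h4 : T⁻¹ * (W ^ k)⁻¹ * T = U ^ k * (W ^ k)⁻¹ := by
    rw [← h2, h1, h3]
  have h5 : T⁻¹ * W ^ k * T = W ^ k * (U ^ k)⁻¹ := by
    have := congrArg (·⁻¹) h4
    simp only [mul_inv_rev, inv_inv] at this
    rw [← this]; group
  calc ((W ^ k)⁻¹ * T * W ^ k)⁻¹ * (T * Z)
      = (W ^ k)⁻¹ * (T⁻¹ * W ^ k * T) * Z := by group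
    _ = 1 := by rw [h5, hZ]; group

theorem tP2_normal (G : Type u) [Group G] (j : ℕ) : (gam G j).Normal := by
  unfold gam
  infer_instance

theorem tP2 : H436NM.P2.{u} := by
  intro hG2 hG3 G _ p n m j s hMC hmn hU hj a ha
  have hnor : ∀ i, (gam G i).Normal := tP2_normal G
  obtain ⟨-, hlt, hcyc, -, -⟩ := hG3 G p n hMC
  have hone : ∀ g : G, g ∈ gam G 1 := by
    intro g
    simp [gam]
  have hact : ∀ i, 1 ≤ i → ∀ x ∈ gam G i, ∀ g : G, ⁅x, g⁆ ∈ gam G (i + 1) := by
    intro i hi x hx g
    exact hG2 G i 1 hi le_rfl (Subgroup.commutator_mem_commutator hx (hone g))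
  -- main induction
  have key : ∀ t, j ≤ t → t ≤ m → ∃ y : G, (y⁻¹ * s * y)⁻¹ * (s * a) ∈ gam G t := by
    intro t hjt
    induction t, hjt using Nat.le_induction with
    | base =>
      intro _
      refine ⟨1, ?_⟩
      have : ((1 : G)⁻¹ * s * 1)⁻¹ * (s * a) = a := by group
      rw [this]
      exact ha
    | succ t hjt ih =>
      intro htm
      obtain ⟨y, hy⟩ := ih (by omega)
      set z : G := (y⁻¹ * s * y)⁻¹ * (s * a) with hz
      have hsa : s * a = (y⁻¹ * s * y) * z := by rw [hz]; group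
      -- choose w0
      obtain ⟨w0, hw0, hw0'⟩ : ∃ w ∈ gam G (t - 1), w ∉ gam G t := by
        have h := hlt (t - 1) (by omega) (by omega)
        have h' : t - 1 + 1 = t := by omega
        rw [h'] at h
        exact SetLike.not_le_iff_exists.mp h
      have hw0t : w0⁻¹ ∈ gam G (t - 1) := (gam G (t - 1)).inv_mem hw0
      have : (gam G (t + 1)).Normal := hnor (t + 1)
      let f : G →* G ⧸ gam G (t + 1) := QuotientGroup.mk' (gam G (t + 1))
      have hf : ∀ x : G, f x = 1 ↔ x ∈ gam G (t + 1) := by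
        intro x
        exact QuotientGroup.eq_one_iff x
      have hfs : Function.Surjective f := QuotientGroup.mk'_surjective _
      -- u0
      set T : G := y⁻¹ * s * y with hT
      set u0 : G := T⁻¹ * w0⁻¹ * T * w0 with hu0
      have hu0t : u0 ∈ gam G t := by
        have h1 := hact (t - 1) (by omega) w0⁻¹ hw0t T⁻¹
        have h' : t - 1 + 1 = t := by omega
        rw [h'] at h1
        have h2 := (gam G t).inv_mem h1
        have h3 : (⁅w0⁻¹, T⁻¹⁆)⁻¹ = u0 := by
          rw [hu0, commutatorElement_def]; group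
        rw [h3] at h2
        exact h2
      have hcomm : ∀ x y : G, f x * f y = f y * f x ↔ ⁅x, y⁆ ∈ gam G (t + 1) := by
        intro x y
        rw [← hf, map_commutatorElement, commutatorElement_eq_one_iff_mul_comm]
      have hu0n : u0 ∉ gam G (t + 1) := by
        intro hmem
        have hfu : f u0 = 1 := (hf _).2 hmem
        have hWT : f w0 * f T = f T * f w0 := by
          have : f T⁻¹ * f w0⁻¹ * f T * f w0 = 1 := by
            rw [← map_mul, ← map_mul, ← map_mul]
            exact hfu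
          rw [map_inv, map_inv] at this
          have h5 : f w0 * f T * ((f T)⁻¹ * (f w0)⁻¹ * f T * f w0) = f T * f w0 := by group
          rw [this, mul_one] at h5
          exact h5
        -- c
        have hc : ⁅s⁻¹, y⁻¹⁆ ∈ gam G 2 := hact 1 le_rfl s⁻¹ (hone _) y⁻¹
        have hTs : T = s * ⁅s⁻¹, y⁻¹⁆ := by
          rw [hT, commutatorElement_def]; group
        have hWC : f w0 * f ⁅s⁻¹, y⁻¹⁆ = f ⁅s⁻¹, y⁻¹⁆ * f w0 := by
          rw [hcomm]
          have h6 := hG2 G (t - 1) 2 (by omega) (by omega)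
            (Subgroup.commutator_mem_commutator hw0 hc)
          have h' : t - 1 + 2 = t + 1 := by omega
          rw [h'] at h6
          exact h6
        have hWS : f w0 * f s = f s * f w0 := by
          have hs : f s = f T * (f ⁅s⁻¹, y⁻¹⁆)⁻¹ := by
            rw [hTs, map_mul]; group
          have c1 : Commute (f w0) (f T) := hWT
          have c2 : Commute (f w0) (f ⁅s⁻¹, y⁻¹⁆) := hWC
          rw [hs]
          exact (c1.mul_right c2.inv_right)
        have h7 := (hcomm w0 s).1 hWS
        have h8 := hU (t - 1) (by omega) (by omega) w0 hw0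
        have h' : t - 1 + 1 = t := by omega
        have h'' : t - 1 + 2 = t + 1 := by omega
        rw [h', h''] at h8
        exact h8 hw0' h7
      obtain ⟨k, hk⟩ := hcyc t (by omega) (by omega) u0 hu0t hu0n z hy
      refine ⟨y * w0 ^ k, ?_⟩
      rw [← hf]
      have e1 : ((y * w0 ^ k)⁻¹ * s * (y * w0 ^ k))⁻¹ * (s * a)
          = ((w0 ^ k)⁻¹ * T * w0 ^ k)⁻¹ * (T * z) := by
        rw [hsa, hT]; group
      rw [e1]
      have e2 : f (((w0 ^ k)⁻¹ * T * w0 ^ k)⁻¹ * (T * z))
          = (((f w0) ^ k)⁻¹ * f T * (f w0) ^ k)⁻¹ * (f T * f z) := by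
        simp only [map_mul, map_inv, map_pow]
      rw [e2]
      refine tP2_aux (f T) (f w0) (f u0) (f z) k ?_ ?_ ?_
      · intro g
        obtain ⟨g, rfl⟩ := hfs g
        rw [hcomm]
        exact hact t (by omega) u0 hu0t g
      · rw [hu0]
        simp only [map_mul, map_inv]
      · have h9 := (hf _).2 hk
        rw [map_mul, map_inv, map_pow, mul_inv_eq_one] at h9
        exact h9
  rcases le_total m j with hmj | hjm
  · refine ⟨1, ?_⟩
    have e : ((1 : G)⁻¹ * s * 1)⁻¹ * (s * a) = a := by group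
    rw [e]
    have hanti : gam G j ≤ gam G m := by
      unfold gam
      exact Subgroup.lowerCentralSeries_antitone _ (by omega)
    exact hanti ha
  · exact key m hjm le_rfl

end H436NM
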