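import Pool.Agent.H436R2.NM.Defs

open H436NM
open scoped commutatorElement

namespace H436NM

universe u

/-- Pascal in a commutative group -/
theorem P3_pascal {B : Type*} [CommGroup B] (D : B →* B) (a : B) (N : ℕ) :
    ∏ k ∈ Finset.range (N + 1), (D^[k] a) ^ ((N + 1).choose (k + 1)) =
      (∏ k ∈ Finset.range N, (D^[k] a) ^ (N.choose (k + 1))) *
        D (∏ k ∈ Finset.range N, (D^[k] a) ^ (N.choose (k + 1))) * a := by
  have h1 : D (∏ k ∈ Finset.range N, (D^[k] a) ^ (N.choose (k + 1))) =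
      ∏ k ∈ Finset.range N, (D^[k + 1] a) ^ (N.choose (k + 1)) := by
    rw [map_prod]
    refine Finset.prod_congr rfl fun k _ => ?_
    rw [map_pow, Function.iterate_succ_apply']
  rw [h1]
  have h2 : ∀ k ∈ Finset.range (N + 1), (D^[k] a) ^ ((N + 1).choose (k + 1)) =
      (D^[k] a) ^ (N.choose k) * (D^[k] a) ^ (N.choose (k + 1)) := by
    intro k _
    rw [← pow_add, Nat.choose_succ_succ]
  rw [Finset.prod_congr rfl h2, Finset.prod_mul_distrib]
  have h3 : ∏ k ∈ Finset.range (N + 1), (D^[k] a) ^ (N.choose (k + 1)) =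
      ∏ k ∈ Finset.range N, (D^[k] a) ^ (N.choose (k + 1)) := by
    rw [Finset.prod_range_succ, Nat.choose_succ_self, pow_zero, mul_one]
  have h4 : ∏ k ∈ Finset.range (N + 1), (D^[k] a) ^ (N.choose k) =
      (∏ k ∈ Finset.range N, (D^[k + 1] a) ^ (N.choose (k + 1))) * a := by
    rw [Finset.prod_range_succ']
    simp
  rw [h3, h4]
  rw [mul_comm, mul_assoc]

theorem P3_main {Q : Type*} [Group Q] (B : Subgroup Q) (hB : B.Normal)
    (hc : ∀ x ∈ B, ∀ y ∈ B, x * y = y * x) (s a : Q) (ha : a ∈ B) (N : ℕ) :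
    (s * a) ^ N = s ^ N * ((List.range N).map
      (fun k => ((fun x => x⁻¹ * (s⁻¹ * x * s))^[k] a) ^ (N.choose (k + 1)))).prod := by
  let _ : CommGroup B := { (inferInstance : Group B) with
    mul_comm := fun x y => Subtype.ext (hc x.1 x.2 y.1 y.2) }
  have hconj : ∀ x ∈ B, s⁻¹ * x * s ∈ B := by
    intro x hx
    have := hB.conj_mem x hx s⁻¹
    rwa [inv_inv] at this
  let D : B →* B :=
    { toFun := fun x => ⟨x.1⁻¹ * (s⁻¹ * x.1 * s), B.mul_mem (B.inv_mem x.2) (hconj x.1 x.2)⟩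
      map_one' := by
        apply Subtype.ext
        show (1 : Q)⁻¹ * (s⁻¹ * 1 * s) = 1
        simp
      map_mul' := by
        intro x y
        apply Subtype.ext
        show (x.1 * y.1)⁻¹ * (s⁻¹ * (x.1 * y.1) * s) =
          (x.1⁻¹ * (s⁻¹ * x.1 * s)) * (y.1⁻¹ * (s⁻¹ * y.1 * s))
        have h1 : (x.1 * y.1)⁻¹ = x.1⁻¹ * y.1⁻¹ := by
          rw [mul_inv_rev]
          exact hc _ (B.inv_mem y.2) _ (B.inv_mem x.2)
        have h2 : s⁻¹ * (x.1 * y.1) * s = (s⁻¹ * x.1 * s) * (s⁻¹ * y.1 * s) := by group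
        have h3 : y.1⁻¹ * (s⁻¹ * x.1 * s) = (s⁻¹ * x.1 * s) * y.1⁻¹ :=
          hc _ (B.inv_mem y.2) _ (hconj x.1 x.2)
        rw [h1, h2]
        calc x.1⁻¹ * y.1⁻¹ * ((s⁻¹ * x.1 * s) * (s⁻¹ * y.1 * s))
            = x.1⁻¹ * (y.1⁻¹ * (s⁻¹ * x.1 * s)) * (s⁻¹ * y.1 * s) := by group
          _ = x.1⁻¹ * ((s⁻¹ * x.1 * s) * y.1⁻¹) * (s⁻¹ * y.1 * s) := by rw [h3]
          _ = (x.1⁻¹ * (s⁻¹ * x.1 * s)) * (y.1⁻¹ * (s⁻¹ * y.1 * s)) := by group }
  let a' : B := ⟨a, ha⟩
  have hiter : ∀ k, ((D^[k] a' : B) : Q) = (fun x => x⁻¹ * (s⁻¹ * x * s))^[k] a := by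
    intro k
    induction k with
    | zero => rfl
    | succ k ih =>
      rw [Function.iterate_succ_apply', Function.iterate_succ_apply', ← ih]
      rfl
  have hlist : ∀ (f : ℕ → B) (M : ℕ), ((∏ k ∈ Finset.range M, f k : B) : Q) =
      ((List.range M).map (fun k => (f k : Q))).prod := by
    intro f M
    induction M with
    | zero => simp
    | succ M ih =>
      rw [Finset.prod_range_succ, List.range_succ, List.map_append, List.prod_append, ← ih]
      simp
  have hP : ∀ M : ℕ, (s * a) ^ M = s ^ M *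
      ((∏ k ∈ Finset.range M, (D^[k] a') ^ (M.choose (k + 1)) : B) : Q) := by
    intro M
    induction M with
    | zero => simp
    | succ M ih =>
      rw [P3_pascal D a' M, pow_succ, ih]
      obtain ⟨P, hPdef⟩ : ∃ P : B, P = ∏ k ∈ Finset.range M, (D^[k] a') ^ (M.choose (k + 1)) :=
        ⟨_, rfl⟩
      rw [← hPdef]
      show s ^ M * (P : Q) * (s * a) = s ^ (M + 1) * ((P : Q) * ((P : Q)⁻¹ * (s⁻¹ * P * s)) * a)
      rw [pow_succ]
      group
  rw [hP N, hlist]
  congr 2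
  refine List.map_congr_left fun k _ => ?_
  rw [← hiter k]
  rfl

theorem tP3 : P3.{u} := by
  intro G _ A K s a N hA hK hKA hAA ha
  have hKn : K.Normal := hK
  let π : G →* G ⧸ K := QuotientGroup.mk' K
  have hsurj : Function.Surjective π := QuotientGroup.mk'_surjective K
  have hB : (A.map π).Normal := hA.map π hsurj
  have hc : ∀ x ∈ A.map π, ∀ y ∈ A.map π, x * y = y * x := by
    rintro _ ⟨x, hx, rfl⟩ _ ⟨y, hy, rfl⟩
    have h1 : ⁅x, y⁆ ∈ K := hAA (Subgroup.commutator_mem_commutator hx hy)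
    have h2 : π ⁅x, y⁆ = 1 := (QuotientGroup.eq_one_iff _).2 h1
    rw [map_commutatorElement, commutatorElement_eq_one_iff_mul_comm] at h2
    exact h2
  have h := P3_main (A.map π) hB hc (π s) (π a) (Subgroup.mem_map_of_mem π ha) N
  have hsemi : ∀ k, π ((fun x => x⁻¹ * (s⁻¹ * x * s))^[k] a) =
      (fun x => x⁻¹ * ((π s)⁻¹ * x * π s))^[k] (π a) := by
    intro k
    induction k with
    | zero => rfl
    | succ k ih =>
      rw [Function.iterate_succ_apply', Function.iterate_succ_apply', ← ih]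
      simp
  have h3 : π (s ^ N * ((List.range N).map
      (fun k => ((fun x => x⁻¹ * (s⁻¹ * x * s))^[k] a) ^ (N.choose (k + 1)))).prod) =
      π ((s * a) ^ N) := by
    rw [map_mul, map_pow, map_list_prod, List.map_map, map_pow, map_mul, h]
    congr 2
    refine List.map_congr_left fun k _ => ?_
    show π (((fun x => x⁻¹ * (s⁻¹ * x * s))^[k] a) ^ (N.choose (k + 1))) = _
    rw [map_pow, hsemi]
  have h4 : π ((s ^ N * ((List.range N).map
      (fun k => ((fun x => x⁻¹ * (s⁻¹ * x * s))^[k] a) ^ (N.choose (k + 1)))).prod)⁻¹ *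
      (s * a) ^ N) = 1 := by
    rw [map_mul, map_inv, h3, inv_mul_cancel]
  exact (QuotientGroup.eq_one_iff _).1 h4

end H436NM
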