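import Pool.Agent.H436R2.NM.Defs

set_option autoImplicit false

open H436NM
open scoped commutatorElement

universe u

namespace H436NM.P3b

/-- Pascal's rule in a commutative group -/
theorem pascal {C : Type*} [CommGroup C] (φ : C →* C) (a : C) (N : ℕ) :
    ∏ k ∈ Finset.range (N + 1), ((fun x => x⁻¹ * φ x)^[k] a) ^ ((N + 1).choose (k + 1)) =
      φ (∏ k ∈ Finset.range N, ((fun x => x⁻¹ * φ x)^[k] a) ^ (N.choose (k + 1))) * a := by
  set d : C → C := fun x => x⁻¹ * φ x with hd
  have h1 : ∀ x, φ x = x * d x := fun x => by simp [hd]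
  have h2 : φ (∏ k ∈ Finset.range N, (d^[k] a) ^ (N.choose (k + 1))) =
      (∏ k ∈ Finset.range N, (d^[k] a) ^ (N.choose (k + 1))) *
        ∏ k ∈ Finset.range N, (d^[k + 1] a) ^ (N.choose (k + 1)) := by
    rw [map_prod, ← Finset.prod_mul_distrib]
    refine Finset.prod_congr rfl fun k _ => ?_
    rw [map_pow, h1, mul_pow, Function.iterate_succ_apply']
  rw [h2]
  have h3 : ∏ k ∈ Finset.range (N + 1), (d^[k] a) ^ ((N + 1).choose (k + 1)) =
      (∏ k ∈ Finset.range (N + 1), (d^[k] a) ^ (N.choose k)) *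
        ∏ k ∈ Finset.range (N + 1), (d^[k] a) ^ (N.choose (k + 1)) := by
    rw [← Finset.prod_mul_distrib]
    refine Finset.prod_congr rfl fun k _ => ?_
    rw [← pow_add, Nat.choose_succ_succ]
  rw [h3, Finset.prod_range_succ' (fun k => (d^[k] a) ^ (N.choose k)),
    Finset.prod_range_succ (fun k => (d^[k] a) ^ (N.choose (k + 1)))]
  simp only [Nat.choose_succ_self, pow_zero, mul_one, Nat.choose_zero_right, pow_one,
    Function.iterate_zero, id_eq]
  rw [mul_assoc, mul_comm a, ← mul_assoc, mul_comm (∏ k ∈ Finset.range N, _ ^ _)]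

theorem key {Q : Type*} [Group Q] (A : Subgroup Q) (hn : A.Normal)
    (hc : ∀ x ∈ A, ∀ y ∈ A, x * y = y * x) (s a : Q) (ha : a ∈ A) (N : ℕ) :
    s ^ N * ((List.range N).map
      (fun k => ((fun x => x⁻¹ * (s⁻¹ * x * s))^[k] a) ^ (N.choose (k + 1)))).prod =
      (s * a) ^ N := by
  letI : CommGroup A :=
    { (inferInstance : Group A) with mul_comm := fun x y => Subtype.ext (hc x.1 x.2 y.1 y.2) }
  let φ : A →* A :=
    { toFun := fun x => ⟨s⁻¹ * x.1 * s, by
        have := hn.conj_mem x.1 x.2 s⁻¹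
        rwa [inv_inv] at this⟩
      map_one' := Subtype.ext (by simp)
      map_mul' := fun x y => Subtype.ext (by
        show s⁻¹ * (x.1 * y.1) * s = s⁻¹ * x.1 * s * (s⁻¹ * y.1 * s)
        group) }
  have hit : ∀ k : ℕ, (((fun x : A => x⁻¹ * φ x)^[k] ⟨a, ha⟩ : A) : Q) =
      (fun x => x⁻¹ * (s⁻¹ * x * s))^[k] a := by
    intro k
    induction k with
    | zero => rfl
    | succ k ih =>
      rw [Function.iterate_succ_apply', Function.iterate_succ_apply', ← ih]
      rfl
  have hlist : ∀ (f : ℕ → A) (M : ℕ), ((List.range M).map (fun k => (f k : Q))).prod =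
      ((∏ k ∈ Finset.range M, f k : A) : Q) := by
    intro f M
    induction M with
    | zero => simp
    | succ M ih =>
      rw [List.range_succ, List.map_append, List.prod_append, ih, Finset.prod_range_succ]
      simp
  have hP : ∀ M : ℕ, ((List.range M).map
      (fun k => ((fun x => x⁻¹ * (s⁻¹ * x * s))^[k] a) ^ (M.choose (k + 1)))).prod =
      ((∏ k ∈ Finset.range M, ((fun x : A => x⁻¹ * φ x)^[k] ⟨a, ha⟩) ^ (M.choose (k + 1)) : A) :
        Q) := by
    intro M
    rw [← hlist]
    congr 1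
    refine List.map_congr_left fun k _ => ?_
    rw [← hit k]
    rfl
  induction N with
  | zero => simp
  | succ N ih =>
    rw [pow_succ (s * a), ← ih, hP, hP, pascal φ ⟨a, ha⟩ N]
    set PN : A := ∏ k ∈ Finset.range N, ((fun x : A => x⁻¹ * φ x)^[k] ⟨a, ha⟩) ^
      (N.choose (k + 1)) with hPN
    show s ^ (N + 1) * ((s⁻¹ * PN.1 * s) * a) = s ^ N * PN.1 * (s * a)
    rw [pow_succ]
    group

end H436NM.P3b

theorem H436NM.tP3b : H436NM.P3.{u} := by
  intro G _ A K s a N hA hK hKA hAA ha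
  rw [← QuotientGroup.eq_one_iff (N := K), QuotientGroup.mk_mul, QuotientGroup.mk_inv,
    inv_mul_eq_one]
  have hsurj : Function.Surjective (QuotientGroup.mk' K) := QuotientGroup.mk'_surjective K
  have hn : (A.map (QuotientGroup.mk' K)).Normal := hA.map _ hsurj
  have hc : ∀ x ∈ A.map (QuotientGroup.mk' K), ∀ y ∈ A.map (QuotientGroup.mk' K),
      x * y = y * x := by
    rintro x ⟨x', hx', rfl⟩ y ⟨y', hy', rfl⟩
    rw [← map_mul, ← map_mul]
    have h1 : ⁅x', y'⁆ ∈ K := hAA (Subgroup.commutator_mem_commutator hx' hy')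
    have h2 : (QuotientGroup.mk' K) ⁅x', y'⁆ = 1 := (QuotientGroup.eq_one_iff _).mpr h1
    rw [commutatorElement_def] at h2
    rw [map_mul, map_mul, map_mul, map_inv, map_inv] at h2
    rw [map_mul, map_mul]
    have h3 := mul_inv_eq_one.mp h2
    exact mul_inv_eq_iff_eq_mul.mp h3
  have hmain := P3b.key (A.map (QuotientGroup.mk' K)) hn hc (QuotientGroup.mk' K s)
    (QuotientGroup.mk' K a) ⟨a, ha, rfl⟩ N
  have hit : ∀ k : ℕ, (fun x => x⁻¹ * ((QuotientGroup.mk' K s)⁻¹ * x * QuotientGroup.mk' K s))^[k]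
      (QuotientGroup.mk' K a) = QuotientGroup.mk' K ((fun x => x⁻¹ * (s⁻¹ * x * s))^[k] a) := by
    intro k
    induction k with
    | zero => rfl
    | succ k ih =>
      rw [Function.iterate_succ_apply', Function.iterate_succ_apply', ih]
      simp only [map_mul, map_inv]
  have h5 : ((QuotientGroup.mk' K) ((s * a) ^ N)) = (QuotientGroup.mk' K s * QuotientGroup.mk' K a) ^ N := by
    rw [map_pow, map_mul]
  show (QuotientGroup.mk' K) _ = (QuotientGroup.mk' K) _
  rw [h5, ← hmain, map_mul, map_pow, map_list_prod, List.map_map]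
  congr 2
  refine List.map_congr_left fun k _ => ?_
  rw [hit k, Function.comp_apply, map_pow]
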