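import Pool.Agent.H436R2.NM.Defs

open H436NM
open scoped commutatorElement

universe u

namespace H436NM.TP4

variable {G : Type u} [Group G]

theorem gam_normal (j : ℕ) : (gam G j).Normal := by
  unfold gam
  infer_instance

theorem gam_anti {i j : ℕ} (h : i ≤ j) : gam G j ≤ gam G i := by
  unfold gam
  exact Subgroup.lowerCentralSeries_antitone _ (by omega)

theorem gam_one : gam G 1 = ⊤ := rfl

theorem d_mem (g2 : G2.{u}) (s x : G) (r : ℕ) (hr : 1 ≤ r) (hx : x ∈ gam G r) :
    x⁻¹ * (s⁻¹ * x * s) ∈ gam G (r + 1) := by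
  have h : x⁻¹ * (s⁻¹ * x * s) = ⁅x⁻¹, s⁻¹⁆ := by
    rw [commutatorElement_def]; group
  rw [h]
  apply g2 G r 1 hr le_rfl
  apply Subgroup.commutator_mem_commutator (inv_mem hx)
  rw [gam_one]
  exact Subgroup.mem_top _

theorem dit_mem (g2 : G2.{u}) (s a : G) (r : ℕ) (hr : 1 ≤ r) (ha : a ∈ gam G r) (k : ℕ) :
    ((fun x => x⁻¹ * (s⁻¹ * x * s))^[k] a) ∈ gam G (r + k) := by
  induction k with
  | zero => exact ha
  | succ k ih =>
    rw [Function.iterate_succ_apply']
    exact d_mem g2 s _ (r + k) (by omega) ih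

theorem d_iff (s x : G) (N : Subgroup G) (hN : N.Normal) :
    x⁻¹ * (s⁻¹ * x * s) ∈ N ↔ ⁅x, s⁆ ∈ N := by
  have h : ⁅x, s⁆ = (s * x) * (x⁻¹ * (s⁻¹ * x * s)) * (s * x)⁻¹ := by
    rw [commutatorElement_def]; group
  rw [h]
  constructor
  · intro hx
    exact hN.conj_mem _ hx _
  · intro hx
    have := hN.conj_mem _ hx (s * x)⁻¹
    have e : (s * x)⁻¹ * ((s * x) * (x⁻¹ * (s⁻¹ * x * s)) * (s * x)⁻¹) * (s * x)⁻¹⁻¹ =
        x⁻¹ * (s⁻¹ * x * s) := by group
    rwa [e] at this

theorem prod_split (f : ℕ → G) (r : ℕ) (L : Subgroup G) (hL : L.Normal)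
    (hmid : ∀ k, k < r → f (k + 1) ∈ L) (hall : ((List.range (r + 2)).map f).prod ∈ L) :
    f 0 * f (r + 1) ∈ L := by
  have e : ((List.range (r + 2)).map f).prod =
      f 0 * ((List.range r).map (fun k => f (k + 1))).prod * f (r + 1) := by
    rw [List.range_succ, List.map_append, List.prod_append, List.range_succ_eq_map,
      List.map_cons, List.prod_cons, List.map_map]
    simp [Function.comp_def]
  have hM : ((List.range r).map (fun k => f (k + 1))).prod ∈ L := by
    apply Subgroup.list_prod_mem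
    intro x hx
    rw [List.mem_map] at hx
    obtain ⟨k, hk, rfl⟩ := hx
    exact hmid k (List.mem_range.mp hk)
  rw [e] at hall
  have e2 : f 0 * f (r + 1) = (f 0 * ((List.range r).map (fun k => f (k + 1))).prod * f (r + 1)) *
      ((f (r + 1))⁻¹ * (((List.range r).map (fun k => f (k + 1))).prod)⁻¹ *
        ((f (r + 1))⁻¹)⁻¹) := by group
  rw [e2]
  exact L.mul_mem hall (hL.conj_mem _ (inv_mem hM) _)

/-- the product lies in `K = gam T` -/
theorem Qmem (p1 : P1.{u}) (p2 : P2.{u}) (p3 : P3.{u}) (g2 : G2.{u}) (g3 : G3.{u}) (g5 : G5.{u})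
    (p n m : ℕ) (s : G) (hMC : MC p n G) (hm3 : 3 ≤ m) (hmn : m ≤ n) (hU : Unif G m s)
    (j : ℕ) (hj3 : 3 ≤ j) (hpj : p ≤ j) (hjm : j < m) (a : G) (ha : a ∈ gam G j) :
    ((List.range p).map (fun k => ((fun x => x⁻¹ * (s⁻¹ * x * s))^[k] a) ^
      (p.choose (k + 1)))).prod ∈ gam G (min (j + p) m) := by
  have hT : j ≤ min (j + p) m := by omega
  have hK := gam_normal (G := G) (min (j + p) m)
  have hcomm : ⁅gam G j, gam G j⁆ ≤ gam G (min (j + p) m) :=
    le_trans (g2 G j j (by omega) (by omega)) (gam_anti (by omega))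
  have h3 := p3 G (gam G j) (gam G (min (j + p) m)) s a p (gam_normal j) hK (gam_anti hT) hcomm ha
  set Q := ((List.range p).map (fun k => ((fun x => x⁻¹ * (s⁻¹ * x * s))^[k] a) ^
      (p.choose (k + 1)))).prod with hQ
  obtain ⟨y, hy⟩ := p2 g2 g3 G p n m j s hMC hmn hU hj3 a ha
  have hs := p1 g5 G p n m s hMC hm3 hmn hU
  have := hK
  let π := QuotientGroup.mk' (gam G (min (j + p) m))
  have hker : ∀ x, x ∈ gam G (min (j + p) m) → π x = 1 := fun x hx =>
    (QuotientGroup.eq_one_iff x).mpr hx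
  have hmK : gam G m ≤ gam G (min (j + p) m) := gam_anti (by omega)
  have e1 : π (s * a) = π (y⁻¹ * s * y) := by
    have := hker _ (hmK hy)
    rw [map_mul, map_inv, inv_mul_eq_one] at this
    exact this.symm
  have e2 : π (y⁻¹ * s * y) ^ p = π (s ^ p) := by
    rw [← map_pow]
    have e3 : (y⁻¹ * s * y) ^ p = y⁻¹ * s ^ p * y := by
      have := conj_pow (i := p) (a := y⁻¹) (b := s)
      rw [inv_inv] at this
      exact this
    rw [e3]
    have hc : ⁅s ^ p, y⁆ ∈ gam G m := by
      have h1 : ⁅s ^ p, y⁆ ∈ ⁅gam G (m - 1), gam G 1⁆ := by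
        apply Subgroup.commutator_mem_commutator hs
        rw [gam_one]; exact Subgroup.mem_top _
      have h2 := g2 G (m - 1) 1 (by omega) le_rfl h1
      have h3 : m - 1 + 1 = m := by omega
      rwa [h3] at h2
    have h4 := hker _ (hmK hc)
    rw [commutatorElement_def] at h4
    simp only [map_mul, map_inv] at h4 ⊢
    have h5 : π (s ^ p) * π y = π y * π (s ^ p) := by
      have := mul_inv_eq_one.mp h4
      rw [mul_inv_eq_iff_eq_mul] at this
      exact this
    rw [mul_assoc, h5, inv_mul_cancel_left]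
  have e4 : π ((s * a) ^ p) = π (s ^ p) := by
    rw [map_pow, e1, e2]
  have e5 := hker _ h3
  rw [map_mul, map_inv, map_mul, e4, inv_mul_eq_one, mul_eq_left] at e5
  exact (QuotientGroup.eq_one_iff Q).mp e5

end H436NM.TP4

open H436NM.TP4 in
theorem H436NM.tP4 : H436NM.P4.{u} := by
  intro p1 p2 p3 g2 g3 g5 G _ p n m s hMC hm3 hmn hU j hj3 hpj
  by_cases hjm : m ≤ j
  · intro a ha
    refine ⟨fun t _ htm => ?_, fun h => ?_⟩
    · exact pow_mem (gam_anti (le_trans htm hjm) ha) p
    · have := hMC.pr.pos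
      omega
  push Not at hjm
  have hp := hMC.pr
  obtain ⟨r, hr⟩ : ∃ r, p = r + 2 := ⟨p - 2, by have := hp.two_le; omega⟩
  set T := min (j + p) m with hT
  -- the downward induction
  have key : ∀ e j', j ≤ j' → T ≤ j' + e → ∀ a ∈ gam G j',
      a ^ p ∈ gam G (min (j' + p - 1) T) ∧
      a ^ p * ((fun x => x⁻¹ * (s⁻¹ * x * s))^[p - 1] a) ∈ gam G (min (j' + p) T) := by
    intro e
    induction e with
    | zero =>
      intro j' hj' hTj a ha
      have h1 : a ^ p ∈ gam G T := pow_mem (gam_anti (by omega) ha) p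
      have h2 : ((fun x => x⁻¹ * (s⁻¹ * x * s))^[p - 1] a) ∈ gam G T :=
        gam_anti (by omega) (dit_mem g2 s a j' (by omega) ha (p - 1))
      exact ⟨gam_anti (by omega) h1, gam_anti (by omega) (mul_mem h1 h2)⟩
    | succ e ih =>
      intro j' hj' hTj a ha
      have haj : a ∈ gam G j := gam_anti hj' ha
      have hQ := Qmem p1 p2 p3 g2 g3 g5 p n m s hMC hm3 hmn hU j hj3 hpj hjm a haj
      have hL := gam_normal (G := G) (min (j' + p) T)
      have hII : a ^ p * ((fun x => x⁻¹ * (s⁻¹ * x * s))^[p - 1] a) ∈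
          gam G (min (j' + p) T) := by
        have hQ2 := gam_anti (G := G) (i := min (j' + p) T) (j := min (j + p) m) (by omega) hQ
        have hf := prod_split (fun k => ((fun x => x⁻¹ * (s⁻¹ * x * s))^[k] a) ^
          (p.choose (k + 1))) r (gam G (min (j' + p) T)) hL ?_ (by rw [hr] at hQ2 ⊢; exact hQ2)
        · have e1 : p - 1 = r + 1 := by omega
          have e2 : p.choose (r + 1 + 1) = 1 := by rw [hr]; exact Nat.choose_self _
          simp only [Function.iterate_zero, id_eq, zero_add, Nat.choose_one_right, e2,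
            pow_one] at hf
          rw [e1]
          exact hf
        · intro k hk
          obtain ⟨c, hc⟩ := hp.dvd_choose_self (k := k + 1 + 1) (by omega) (by omega)
          rw [hc, pow_mul]
          apply pow_mem
          have hd := dit_mem g2 s a j' (by omega) ha (k + 1)
          have := (ih (j' + (k + 1)) (by omega) (by omega) _ hd).1
          exact gam_anti (by omega) this
      refine ⟨?_, hII⟩
      have h1 : a ^ p * ((fun x => x⁻¹ * (s⁻¹ * x * s))^[p - 1] a) ∈
          gam G (min (j' + p - 1) T) := gam_anti (by omega) hII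
      have h2 : ((fun x => x⁻¹ * (s⁻¹ * x * s))^[p - 1] a) ∈ gam G (min (j' + p - 1) T) :=
        gam_anti (by omega) (dit_mem g2 s a j' (by omega) ha (p - 1))
      have h3 := mul_mem h1 (inv_mem h2)
      rwa [mul_inv_cancel_right] at h3
  intro a ha
  obtain ⟨k1, k2⟩ := key T j le_rfl (by omega) a ha
  constructor
  · intro t ht htm
    exact gam_anti (by omega) k1
  · intro hjpm hna hcon
    have hT2 : T = j + p := by omega
    have hk : ∀ k, k ≤ p - 1 → ((fun x => x⁻¹ * (s⁻¹ * x * s))^[k] a) ∉ gam G (j + k + 1) := by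
      intro k
      induction k with
      | zero => intro _; exact hna
      | succ k ih =>
        intro hk2 hmem
        rw [Function.iterate_succ_apply'] at hmem
        rw [d_iff s _ _ (gam_normal _)] at hmem
        have := hU (j + k) (by omega) (by omega) _ (dit_mem g2 s a j (by omega) ha k)
          (ih (by omega))
        apply this
        have e : j + (k + 1) + 1 = j + k + 2 := by omega
        rw [e] at hmem
        exact hmem
    apply hk (p - 1) le_rfl
    have e : j + (p - 1) + 1 = j + p := by have := hp.two_le; omega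
    rw [e]
    have h1 : a ^ p * ((fun x => x⁻¹ * (s⁻¹ * x * s))^[p - 1] a) ∈ gam G (j + p) :=
      gam_anti (by omega) k2
    have h3 := mul_mem (inv_mem hcon) h1
    rwa [inv_mul_cancel_left] at h3
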