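import Pool.Agent.H436R2.NM.Defs

/-!
# The array: first recursion
-/

open H436NM

namespace H436NM

theorem tT1 : T1 := by
  intro p q i b' N c hp hN hA hi hib h0 hne k hk hkN
  have e1 : b' + 1 + k + q = k + (b' + 1 + q) := by omega
  have e2 : k + b' + q = k + (b' + q) := by omega
  have hj := hA.jac b' (b' + 1) k hib (by omega) (by omega) (by omega)
  have hs1 := hA.skew (b' + 1 + k + q) b' (by omega) hib (by omega)
  have hs2 := hA.skew k b' (by omega) hib (by omega)
  have hs3 := hA.skew (k + b' + q) (b' + 1) (by omega) (by omega) (by omega)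
  rw [h0, hs1, hs2, hs3, e1, e2] at hj
  have hD := hA.D b' (k + (b' + q)) hib (by omega) (by omega)
  have e3 : k + (b' + q) + 1 = k + (b' + 1 + q) := by omega
  rw [e3] at hD
  have h1 : c (b' + 1) k * c b' (k + (b' + 1 + q)) = c b' k * c (b' + 1) (k + (b' + q)) := by
    linear_combination -hj
  refine ⟨h1, ?_⟩
  rw [hD]
  linear_combination -h1

end H436NM
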