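import Pool.Agent.H436R2.NM.Defs

/-! (T2) array: initial constancy (helper303) -/

set_option autoImplicit false

open H436NM

theorem H436NM.tT2 : H436NM.T2 := by
  intro hT1 p q i b' N c hp hNp hA hi1 hib hc0 hne hN
  haveI : Fact p.Prime := ⟨hp⟩
  have hT := hT1 p q i b' N c hp hNp hA hi1 hib hc0 hne
  have hR2 : 2 ≤ b' + 1 + q := by omega
  -- S (b+1) = 0
  have hS0 : c b' (b' + 2) = 0 := by
    have h1 := hA.D b' (b' + 1) hib (by omega) (by omega)
    have h2 := hA.diag (b' + 1) (by omega) (by omega)
    rw [hc0, h2, zero_add] at h1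
    exact h1.symm
  -- part A
  have hAz : ∀ t, t ≤ 13 → c b' (b' + 2 + t * (b' + 1 + q)) = 0 := by
    intro t
    induction t with
    | zero => intro _; simpa using hS0
    | succ t ih =>
      intro ht
      have h1 := ih (by omega)
      have h2 : (t + 2) * (b' + 1 + q) ≤ 14 * (b' + 1 + q) := Nat.mul_le_mul_right _ (by omega)
      have h3 : (t + 2) * (b' + 1 + q) = t * (b' + 1 + q) + 2 * (b' + 1 + q) := by ring
      have h4 : (t + 1) * (b' + 1 + q) = t * (b' + 1 + q) + (b' + 1 + q) := by ring
      have h5 := (hT (b' + 2 + t * (b' + 1 + q)) (by omega) (by omega)).1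
      rw [h1, zero_mul] at h5
      have h6 := hne (b' + 2 + t * (b' + 1 + q)) (by omega) (by omega)
      rw [h4, ← add_assoc]
      exact (mul_eq_zero.mp h5).resolve_left h6
  -- part B
  have hB : ∀ j u, u + j ≤ 13 → - c b' (b' + 2 + u + j + u * (b' + q)) =
      (j : ZMod p) * c (b' + 1) (b' + 2 + u + j + u * (b' + q)) := by
    intro j
    induction j with
    | zero =>
      intro u hu
      have h1 := hAz u (by omega)
      have h2 : b' + 2 + u + 0 + u * (b' + q) = b' + 2 + u * (b' + 1 + q) := by ring
      rw [h2, h1]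
      simp
    | succ j ih =>
      intro u hu
      have h1 := ih (u + 1) (by omega)
      set k := b' + 2 + u + (j + 1) + u * (b' + q) with hk
      have h2 : b' + 2 + (u + 1) + j + (u + 1) * (b' + q) = k + (b' + q) := by rw [hk]; ring
      rw [h2] at h1
      have h3 : (u + 2) * (b' + q) ≤ 14 * (b' + q) := Nat.mul_le_mul_right _ (by omega)
      have h4 : (u + 2) * (b' + q) = u * (b' + q) + 2 * (b' + q) := by ring
      have hkl : k + 2 * (b' + 1 + q) ≤ N + 1 := by omega
      have h5 := (hT k (by omega) hkl).2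
      have h6 := hne (k + (b' + q)) (by omega) (by omega)
      rw [h1] at h5
      have h7 : (- c b' k) * c (b' + 1) (k + (b' + q)) =
          (((j + 1 : ℕ) : ZMod p) * c (b' + 1) k) * c (b' + 1) (k + (b' + q)) := by
        push_cast
        linear_combination (-1 : ZMod p) * h5
      exact mul_right_cancel₀ h6 h7
  have hC : ∀ t, t ≤ 13 → - c b' (b' + 2 + t) = (t : ZMod p) * c (b' + 1) (b' + 2 + t) := by
    intro t ht
    have := hB t 0 (by omega)
    simpa using this
  -- constancy
  have hstep : ∀ t, t ≤ 12 → c (b' + 1) (b' + 2 + (t + 1)) = c (b' + 1) (b' + 2 + t) := by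
    intro t ht
    have h1 := hC t (by omega)
    have h2 := hC (t + 1) (by omega)
    have h3 := hA.D b' (b' + 2 + t) hib (by omega) (by nlinarith)
    have h4 : b' + 2 + t + 1 = b' + 2 + (t + 1) := by ring
    rw [h4] at h3
    have h5 : ((t + 1 : ℕ) : ZMod p) ≠ 0 := by
      rw [Ne, ZMod.natCast_eq_zero_iff]
      intro hd
      have := Nat.le_of_dvd (by omega) hd
      omega
    have h6 : ((t + 1 : ℕ) : ZMod p) * c (b' + 1) (b' + 2 + (t + 1)) =
        ((t + 1 : ℕ) : ZMod p) * c (b' + 1) (b' + 2 + t) := by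
      push_cast at h2 ⊢
      linear_combination h1 + h3 - h2
    exact mul_left_cancel₀ h5 h6
  have hall : ∀ t, t ≤ 13 → c (b' + 1) (b' + 2 + t) = c (b' + 1) (b' + 2) := by
    intro t
    induction t with
    | zero => intro _; rfl
    | succ t ih =>
      intro ht
      rw [hstep t (by omega), ih (by omega)]
  refine ⟨?_, hS0, ?_⟩
  · intro t h1 h14
    have := hall (t - 1) (by omega)
    have e : b' + 2 + (t - 1) = b' + 1 + t := by omega
    rwa [e] at this
  · have := hAz 1 (by omega)
    rwa [one_mul] at this
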