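import Pool.Agent.H436R2.NM.Defs

open H436NM

theorem H436NM.tT3 : H436NM.T3 := by
  intro hT1 p q i b' N m c hp hNp hArr hi hib' hb0 hne hm hN hconst hdev
  haveI := Fact.mk hp
  have hT := hT1 p q i b' N c hp hNp hArr hi hib' hb0 hne
  have hD := hArr.D
  have hS := hArr.skew
  have hJ := hArr.jac
  obtain ⟨b, hb⟩ : ∃ b, b = b' + 1 := ⟨_, rfl⟩
  have hb2 : b' + 2 = b + 1 := by omega
  have hbR : ∀ k, k + (b' + 1 + q) = k + (b + q) := by intro k; omega
  have hbR1 : ∀ k, k + (b' + q) = k + (b + q) - 1 := by intro k; omega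
  rw [hb2] at hconst hdev hne hT
  rw [← hb] at hconst hdev hne hN hb0 hT ⊢
  -- (1)
  have h1 : ∀ s t, 1 ≤ s → 1 ≤ t → s + t ≤ 2 * m → c (b + s) (b + t) = 0 := by
    intro s
    induction s with
    | zero => intro t h; omega
    | succ s ih =>
      intro t _ ht hst
      rcases Nat.eq_zero_or_pos s with h0 | hpos
      · subst h0
        have h := hD b (b + t) (by omega) (by omega) (by omega)
        have e1 := hconst t ht (by omega)
        have e2 := hconst (t + 1) (by omega) (by omega)
        have e3 : c b (b + t + 1) = c b (b + (t + 1)) := rfl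
        rw [e3, e1, e2] at h
        have e4 : c (b + (0 + 1)) (b + t) = c (b + 1) (b + t) := rfl
        rw [e4]
        linear_combination -h
      · have h := hD (b + s) (b + t) (by omega) (by omega) (by omega)
        have e1 := ih t hpos ht (by omega)
        have e2 := ih (t + 1) hpos (by omega) (by omega)
        have e3 : c (b + s) (b + t + 1) = c (b + s) (b + (t + 1)) := rfl
        rw [e3, e1, e2] at h
        have e4 : c (b + (s + 1)) (b + t) = c (b + s + 1) (b + t) := rfl
        rw [e4]
        linear_combination -h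
  -- (2)
  have h2a : c (b + 1) (b + 2 * m) ≠ 0 := by
    have h := hD b (b + 2 * m) (by omega) (by omega) (by omega)
    have e1 := hconst (2 * m) (by omega) (by omega)
    have e3 : c b (b + 2 * m + 1) = c b (b + (2 * m + 1)) := rfl
    rw [e3, e1] at h
    intro h0
    rw [h0] at h
    apply hdev
    linear_combination -h
  have h2 : ∀ s, 1 ≤ s → s ≤ m → c (b + s) (b + (2 * m + 1 - s)) ≠ 0 := by
    intro s
    induction s with
    | zero => intro h; omega
    | succ s ih =>
      intro _ hs
      rcases Nat.eq_zero_or_pos s with h0 | hpos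
      · subst h0
        have : 2 * m + 1 - (0 + 1) = 2 * m := by omega
        rw [this]
        exact h2a
      · have h := hD (b + s) (b + (2 * m - s)) (by omega) (by omega) (by omega)
        have e1 := h1 s (2 * m - s) hpos (by omega) (by omega)
        have e3 : b + (2 * m - s) + 1 = b + (2 * m + 1 - s) := by omega
        have e4 : 2 * m + 1 - (s + 1) = 2 * m - s := by omega
        rw [e3, e1] at h
        rw [e4]
        have e5 : c (b + (s + 1)) (b + (2 * m - s)) = c (b + s + 1) (b + (2 * m - s)) := rfl
        rw [e5]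
        have h3 := ih hpos (by omega)
        intro h0
        rw [h0] at h
        apply h3
        linear_combination -h
  have h2' : c (b + m) (b + (m + 1)) ≠ 0 := by
    have h := h2 m (by omega) le_rfl
    have e : 2 * m + 1 - m = m + 1 := by omega
    rwa [e] at h
  -- (3)
  obtain ⟨K, hK⟩ : ∃ K, K = 2 * b + 2 * m + 1 + q := ⟨_, rfl⟩
  have h3 : ∀ r, 1 ≤ r → r + 1 ≤ m → c (b + r) K = 0 := by
    intro r hr hrm
    have h := hJ (b + r) (b + m) (b + (m + 1)) (by omega) (by omega) (by omega) (by omega)
    have e1 := h1 r m hr (by omega) (by omega)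
    have e2 := h1 (m + 1) r (by omega) hr (by omega)
    have e3 : b + m + (b + (m + 1)) + q = K := by omega
    rw [e1, e2, e3] at h
    have h4 : c (b + m) (b + (m + 1)) * c K (b + r) = 0 := by linear_combination h
    rcases mul_eq_zero.mp h4 with h5 | h5
    · exact absurd h5 h2'
    · have h6 := hS (b + r) K (by omega) (by omega) (by omega)
      rw [h6, h5, neg_zero]
  -- (4)
  have h4 : ∀ j r, 1 ≤ r → r + j + 1 ≤ m → c (b + r) (K + j) = 0 := by
    intro j
    induction j with
    | zero => intro r hr hrm; exact h3 r hr (by omega)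
    | succ j ih =>
      intro r hr hrm
      have h := hD (b + r) (K + j) (by omega) (by omega) (by omega)
      have e1 := ih r hr (by omega)
      have e2 := ih (r + 1) (by omega) (by omega)
      have e3 : c (b + r + 1) (K + j) = c (b + (r + 1)) (K + j) := rfl
      have e4 : c (b + r) (K + (j + 1)) = c (b + r) (K + j + 1) := rfl
      rw [e1, e3, e2] at h
      rw [e4]
      linear_combination -h
  have h4' : ∀ j, j + 1 ≤ m → c b (K + j) = c b K := by
    intro j
    induction j with
    | zero => intro _; rfl
    | succ j ih =>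
      intro hj
      have h := hD b (K + j) (by omega) (by omega) (by omega)
      have e1 := ih (by omega)
      have e2 := h4 j 1 le_rfl (by omega)
      have e4 : c b (K + (j + 1)) = c b (K + j + 1) := rfl
      rw [e1, e2] at h
      rw [e4]
      linear_combination -h
  -- (5)
  have h5 : ∀ j, j ≤ m → c b' (K + j) = c b' K - (j : ZMod p) * c b K := by
    intro j
    induction j with
    | zero => intro _; simp
    | succ j ih =>
      intro hj
      have h := hD b' (K + j) (by omega) (by omega) (by omega)
      have e1 := ih (by omega)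
      have e2 := h4' j (by omega)
      have e4 : c b' (K + (j + 1)) = c b' (K + j + 1) := rfl
      rw [← hb, e1, e2] at h
      rw [e4]
      push_cast
      linear_combination -h
  have hσ : c b K ≠ 0 := hne K (by omega) (by omega)
  -- (6)
  have h6 : ∀ j, j + 1 ≤ m → c b (b + (2 * m + 2 + j)) * (c b' K - ((j : ZMod p) + 1) * c b K)
      = c b' (b + (2 * m + 2 + j)) * c b K := by
    intro j hj
    have h := (hT (b + (2 * m + 2 + j)) (by omega) (by omega)).1
    have e1 : b + (2 * m + 2 + j) + (b + q) = K + (j + 1) := by omega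
    have e2 : b + (2 * m + 2 + j) + (b' + q) = K + j := by omega
    rw [e1, e2, h5 (j + 1) hj, h4' j hj] at h
    push_cast at h
    exact h
  -- (7)
  have h7 : ∀ j, j + 2 ≤ m → (c b' K - ((j : ZMod p) + 2) * c b K) *
      (c b (b + (2 * m + 2 + (j + 1))) - c b (b + (2 * m + 2 + j))) = 0 := by
    intro j hj
    have ha := h6 j (by omega)
    have hb' := h6 (j + 1) (by omega)
    have h := hD b' (b + (2 * m + 2 + j)) (by omega) (by omega) (by omega)
    have e1 : c b' (b + (2 * m + 2 + j) + 1) = c b' (b + (2 * m + 2 + (j + 1))) := rfl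
    rw [← hb, e1] at h
    push_cast at hb'
    linear_combination hb' - ha - c b K * h
  -- (8)
  have h8 : ∀ j, j + 2 ≤ m → c b' K - ((j : ZMod p) + 2) * c b K ≠ 0 →
      c b (b + (2 * m + 2 + (j + 1))) = c b (b + (2 * m + 2 + j)) := by
    intro j hj h0
    rcases mul_eq_zero.mp (h7 j hj) with h | h
    · exact absurd h h0
    · exact sub_eq_zero.mp h
  have h9 : ∀ j j' : ℕ, j < j' → j' + 2 ≤ m → c b' K - ((j : ZMod p) + 2) * c b K = 0 →
      c b' K - ((j' : ZMod p) + 2) * c b K ≠ 0 := by
    intro j j' hjj hj' h0 h1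
    have h2 : ((j' : ZMod p) - j) * c b K = 0 := by linear_combination h0 - h1
    rcases mul_eq_zero.mp h2 with h | h
    · have h3 : ((j' - j : ℕ) : ZMod p) = 0 := by
        rw [Nat.cast_sub hjj.le]; exact h
      rw [ZMod.natCast_eq_zero_iff] at h3
      have := Nat.le_of_dvd (by omega) h3
      omega
    · exact hσ h
  -- constancy from an index on
  have h10 : ∀ j0, (∀ j, j0 ≤ j → j + 2 ≤ m → c b' K - ((j : ZMod p) + 2) * c b K ≠ 0) →
      ∀ e, j0 + e + 1 ≤ m → c b (b + (2 * m + 2 + (j0 + e))) = c b (b + (2 * m + 2 + j0)) := by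
    intro j0 h0 e
    induction e with
    | zero => intro _; rfl
    | succ e ih =>
      intro he
      rw [← ih (by omega)]
      exact h8 (j0 + e) (by omega) (h0 (j0 + e) (by omega) (by omega))
  by_cases hz0 : c b' K - (((0 : ℕ) : ZMod p) + 2) * c b K = 0
  · refine ⟨2, c b (b + (2 * m + 2 + 1)), by omega, by omega, ?_⟩
    intro t ht1 ht2
    have h := h10 1 (fun j hj1 hj2 => h9 0 j (by omega) hj2 hz0) (t - (2 * m + 3)) (by omega)
    rw [show 2 * m + 2 + (1 + (t - (2 * m + 3))) = t by omega] at h
    exact h
  · by_cases hz1 : c b' K - (((1 : ℕ) : ZMod p) + 2) * c b K = 0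
    · refine ⟨3, c b (b + (2 * m + 2 + 2)), by omega, by omega, ?_⟩
      intro t ht1 ht2
      have h := h10 2 (fun j hj1 hj2 => h9 1 j (by omega) hj2 hz1) (t - (2 * m + 4)) (by omega)
      rw [show 2 * m + 2 + (2 + (t - (2 * m + 4))) = t by omega] at h
      exact h
    · refine ⟨1, c b (b + (2 * m + 2 + 0)), by omega, by omega, ?_⟩
      intro t ht1 ht2
      have e0 := h8 0 (by omega) hz0
      have e1 := h8 1 (by omega) hz1
      have ht : t = 2 * m + 2 ∨ t = 2 * m + 3 ∨ t = 2 * m + 4 := by omega
      rcases ht with rfl | rfl | rfl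
      · rfl
      · exact e0
      · exact e1.trans e0
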