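import Pool.Agent.H436R2.NM.Defs

set_option autoImplicit false

open H436NM

namespace H436NM.T4aux

open Finset Polynomial

/-- the binomial recursion of alternating sums -/
theorem alt_succ {R : Type} [CommRing R] (f : ℕ → R) (n : ℕ) :
    ∑ k ∈ range (n + 2), (-1) ^ k * ((n + 1).choose k : R) * f k =
      ∑ k ∈ range (n + 1), (-1) ^ k * (n.choose k : R) * f k -
        ∑ k ∈ range (n + 1), (-1) ^ k * (n.choose k : R) * f (k + 1) := by
  have h1 : ∑ k ∈ range (n + 1), (-1) ^ k * (n.choose k : R) * f k =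
      ∑ k ∈ range (n + 2), (-1) ^ k * (n.choose k : R) * f k := by
    rw [sum_range_succ _ (n + 1)]
    simp
  rw [h1, sum_range_succ', sum_range_succ' (fun k => (-1) ^ k * (n.choose k : R) * f k)]
  simp only [Nat.choose_zero_right, pow_zero]
  have h2 : ∀ k ∈ range (n + 1), (-1 : R) ^ (k + 1) * ((n + 1).choose (k + 1) : R) * f (k + 1) =
      (-1) ^ (k + 1) * (n.choose (k + 1) : R) * f (k + 1) -
        (-1) ^ k * (n.choose k : R) * f (k + 1) := by
    intro k _
    rw [Nat.choose_succ_succ]
    push_cast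
    ring
  rw [sum_congr rfl h2, sum_sub_distrib]
  ring

theorem expand {p q i N : ℕ} {c : ℕ → ℕ → ZMod p} (hA : Arr p q i N c) (b : ℕ) (hb : i ≤ b)
    (n : ℕ) : ∀ l, i ≤ l → b + n + l + q ≤ N →
      c (b + n) l = ∑ k ∈ range (n + 1), (-1) ^ k * (n.choose k : ZMod p) * c b (l + k) := by
  induction n with
  | zero => intro l _ _; simp
  | succ n ih =>
    intro l hl hN
    have h1 := hA.D (b + n) l (by omega) hl (by omega)
    have h2 := ih l hl (by omega)
    have h3 := ih (l + 1) (by omega) (by omega)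
    have h4 := alt_succ (fun k => c b (l + k)) n
    rw [h4]
    have h5 : ∑ k ∈ range (n + 1), (-1) ^ k * (n.choose k : ZMod p) * c b (l + (k + 1)) =
        c (b + n) (l + 1) := by
      rw [h3]
      exact sum_congr rfl fun k _ => by rw [show l + (k + 1) = l + 1 + k by ring]
    rw [h5, ← h2, h1, ← add_assoc]
    ring

theorem alt_zero {R : Type} [CommRing R] (n : ℕ) (hn : n ≠ 0) :
    ∑ k ∈ range (n + 1), (-1 : R) ^ k * (n.choose k : R) = 0 := by
  have h := add_pow (-1 : R) 1 n
  rw [neg_add_cancel, zero_pow hn] at h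
  rw [h]
  exact sum_congr rfl fun k _ => by rw [one_pow, mul_one]

/-- the polynomial with given binomial coefficients -/
theorem exists_poly {p : ℕ} (hp : p.Prime) (a : ℕ → ZMod p) (D : ℕ) (hD : D ≤ p) :
    ∃ P : (ZMod p)[X], P.degree < (D : WithBot ℕ) ∧
      ∀ n : ℕ, P.eval (n : ZMod p) = ∑ k ∈ range D, a k * (n.choose k : ZMod p) := by
  haveI : Fact p.Prime := ⟨hp⟩
  refine ⟨∑ k ∈ range D, Polynomial.C (a k * ((k.factorial : ℕ) : ZMod p)⁻¹) *
    descPochhammer (ZMod p) k, ?_, ?_⟩
  · rw [← Polynomial.mem_degreeLT]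
    refine Submodule.sum_mem _ fun k hk => ?_
    rw [Polynomial.mem_degreeLT]
    refine lt_of_le_of_lt Polynomial.degree_le_natDegree ?_
    have h1 := Polynomial.natDegree_C_mul_le (a k * ((k.factorial : ℕ) : ZMod p)⁻¹)
      (descPochhammer (ZMod p) k)
    rw [descPochhammer_natDegree] at h1
    exact_mod_cast lt_of_le_of_lt h1 (Finset.mem_range.1 hk)
  · intro n
    rw [Polynomial.eval_finsetSum]
    refine sum_congr rfl fun k hk => ?_
    rw [Polynomial.eval_mul, Polynomial.eval_C, descPochhammer_eval_eq_descFactorial,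
      Nat.descFactorial_eq_factorial_mul_choose]
    have hk0 : ((k.factorial : ℕ) : ZMod p) ≠ 0 := by
      rw [Ne, ZMod.natCast_eq_zero_iff]
      intro h
      have := (hp.dvd_factorial).1 h
      have := Finset.mem_range.1 hk
      omega
    push_cast
    field_simp

end H436NM.T4aux

open H436NM.T4aux Finset Polynomial in
theorem H436NM.tT4 : H436NM.T4 := by
  intro p q i b N m d ε c hp hNp hA hb hm hd hN h1 h2
  haveI : Fact p.Prime := ⟨hp⟩
  -- the sequence
  set e : ℕ → ZMod p := fun k => if k = 0 then 0 else c b (b + k) - ε with he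
  have he0 : e 0 = 0 := by simp [he]
  have hek : ∀ k, k ≠ 0 → e k = c b (b + k) - ε := by
    intro k hk
    simp [he, hk]
  have hs0 : c b b = 0 := hA.diag b hb (by omega)
  have hs : ∀ n, n ≤ 2 * m + 2 + 2 * d →
      ∑ k ∈ range (n + 1), (-1) ^ k * (n.choose k : ZMod p) * c b (b + k) = - c b (b + n) := by
    intro n hn
    rw [← expand hA b hb n b hb (by omega)]
    exact hA.skew (b + n) b (by omega) hb (by omega)
  have hE : ∀ n, n ≤ 2 * m + 2 + 2 * d →
      ∑ k ∈ range (n + 1), (-1) ^ k * (n.choose k : ZMod p) * e k = - e n := by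
    intro n hn
    by_cases hn0 : n = 0
    · subst hn0
      simp [he0]
    · have h3 : ∀ k ∈ range (n + 1), (-1) ^ k * (n.choose k : ZMod p) * e k =
          (-1) ^ k * (n.choose k : ZMod p) * c b (b + k) -
            (-1) ^ k * (n.choose k : ZMod p) * ε + (if k = 0 then ε else 0) := by
        intro k _
        by_cases hk : k = 0
        · subst hk
          simp [he0, hs0]
        · rw [hek k hk, if_neg hk]
          ring
      rw [sum_congr rfl h3, sum_add_distrib, sum_sub_distrib, hs n hn, ← sum_mul,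
        alt_zero n hn0, hek n hn0]
      rw [Finset.sum_ite_eq' (range (n + 1)) 0 (fun _ => ε), if_pos (by simp)]
      ring
  have hez : ∀ k, 2 * m + 1 + d ≤ k → k ≤ 2 * m + 2 + 2 * d → e k = 0 := by
    intro k hk1 hk2
    rw [hek k (by omega), h2 k hk1 hk2, sub_self]
  have hG : ∀ n, n ≤ 2 * m + 2 + 2 * d →
      ∑ k ∈ range (2 * m + d + 1), (-1) ^ k * (n.choose k : ZMod p) * e k = - e n := by
    intro n hn
    rw [← hE n hn]
    have a1 : ∑ k ∈ range (n + 1), (-1) ^ k * (n.choose k : ZMod p) * e k =
        ∑ k ∈ range (2 * m + 2 + 2 * d + 1), (-1) ^ k * (n.choose k : ZMod p) * e k := by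
      refine sum_subset (fun x hx => ?_) fun x hx hx' => ?_
      · rw [Finset.mem_range] at hx ⊢; omega
      · rw [Finset.mem_range] at hx'
        rw [Nat.choose_eq_zero_of_lt (by omega)]
        simp
    have a2 : ∑ k ∈ range (2 * m + d + 1), (-1) ^ k * (n.choose k : ZMod p) * e k =
        ∑ k ∈ range (2 * m + 2 + 2 * d + 1), (-1) ^ k * (n.choose k : ZMod p) * e k := by
      refine sum_subset (fun x hx => ?_) fun x hx hx' => ?_
      · rw [Finset.mem_range] at hx ⊢; omega
      · rw [Finset.mem_range] at hx hx'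
        rw [hez x (by omega) (by omega), mul_zero]
    rw [a1, a2]
  obtain ⟨P, hPd, hP⟩ := exists_poly hp (fun k => (-1) ^ (k + 1) * e (k + 1)) (2 * m + d)
    (by omega)
  have hH : ∀ n : ℕ, P.eval (n : ZMod p) =
      ∑ k ∈ range (2 * m + d + 1), (-1) ^ k * ((n + 1).choose k : ZMod p) * e k -
        ∑ k ∈ range (2 * m + d + 1), (-1) ^ k * (n.choose k : ZMod p) * e k := by
    intro n
    rw [hP, ← sum_sub_distrib, sum_range_succ']
    simp only [Nat.choose_zero_right, pow_zero, sub_self, add_zero]
    refine sum_congr rfl fun k _ => ?_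
    rw [Nat.choose_succ_succ]
    push_cast
    ring
  have hP0 : P = 0 := by
    refine Polynomial.eq_zero_of_degree_lt_of_eval_index_eq_zero
      (s := Icc 1 (2 * m - 1) ∪ Ico (2 * m + 1 + d) (2 * m + 2 + 2 * d))
      (v := fun n : ℕ => (n : ZMod p)) ?_ ?_ ?_
    · intro x hx y hy hxy
      have hx' : x < p := by
        rw [mem_coe, mem_union, Finset.mem_Icc, Finset.mem_Ico] at hx; omega
      have hy' : y < p := by
        rw [mem_coe, mem_union, Finset.mem_Icc, Finset.mem_Ico] at hy; omega
      have h4 := (ZMod.natCast_eq_natCast_iff' x y p).1 hxy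
      rw [Nat.mod_eq_of_lt hx', Nat.mod_eq_of_lt hy'] at h4
      exact h4
    · rw [card_union_of_disjoint, Nat.card_Icc, Nat.card_Ico]
      · refine lt_of_lt_of_le hPd ?_
        exact_mod_cast (by omega : 2 * m + d ≤ 2 * m - 1 + 1 - 1 +
          (2 * m + 2 + 2 * d - (2 * m + 1 + d)))
      · rw [Finset.disjoint_left]
        intro x hx hx'
        rw [Finset.mem_Icc] at hx
        rw [Finset.mem_Ico] at hx'
        omega
    · intro n hn
      rw [mem_union, Finset.mem_Icc, Finset.mem_Ico] at hn
      show P.eval (n : ZMod p) = 0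
      rw [hH n, hG (n + 1) (by omega), hG n (by omega)]
      rcases hn with hn | hn
      · rw [hek n (by omega), hek (n + 1) (by omega), h1 n (by omega) (by omega),
          h1 (n + 1) (by omega) (by omega)]
        ring
      · rw [hez n (by omega) (by omega), hez (n + 1) (by omega) (by omega)]
        ring
  have hall : ∀ n, n ≤ 2 * m + 2 + 2 * d → e n = 0 := by
    intro n
    induction n with
    | zero => intro _; exact he0
    | succ n ih =>
      intro hn
      have h5 := hH n
      rw [hP0, Polynomial.eval_zero, hG (n + 1) hn, hG n (by omega), ih (by omega)] at h5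
      have h6 : e (n + 1) = 0 := by
        have : (0 : ZMod p) = - e (n + 1) := by simpa using h5
        exact neg_eq_zero.1 this.symm
      exact h6
  have e1 := hall 1 (by omega)
  have e2 := hall (2 * m + 1) (by omega)
  rw [hek 1 (by norm_num), sub_eq_zero] at e1
  rw [hek (2 * m + 1) (by omega), sub_eq_zero] at e2
  rw [e1, e2]
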