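import Pool.Agent.H436R2.NM.Defs

namespace H436NM

/-- one more step of constancy on the antidiagonals -/
theorem T5aux_step {p q i b N m : ℕ} {c : ℕ → ℕ → ZMod p} (hA : Arr p q i N c) (hib : i ≤ b)
    (hN : 2 * b + (2 * m + 2) + q ≤ N)
    (hs : ∀ t, 1 ≤ t → t ≤ 2 * m + 1 → c b (b + t) = c b (b + 1)) :
    c b (b + (2 * m + 2)) = c b (b + 1) := by
  -- vanishing below the antidiagonal
  have h0 : ∀ u t, 1 ≤ t → u + 1 + t ≤ 2 * m + 1 → c (b + (u + 1)) (b + t) = 0 := by
    intro u
    induction u with
    | zero =>
      intro t h1 h2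
      have hD := hA.D b (b + t) hib (by omega) (by omega)
      have e1 := hs t h1 (by omega)
      have e2 := hs (t + 1) (by omega) (by omega)
      have e3 : b + t + 1 = b + (t + 1) := by ring
      rw [e3, e1, e2] at hD
      simp only [zero_add]
      linear_combination -hD
    | succ u ih =>
      intro t h1 h2
      have hD := hA.D (b + (u + 1)) (b + t) (by omega) (by omega) (by omega)
      have e1 := ih t h1 (by omega)
      have e2 := ih (t + 1) (by omega) (by omega)
      have e3 : b + t + 1 = b + (t + 1) := by ring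
      have e4 : b + (u + 1) + 1 = b + (u + 1 + 1) := by ring
      rw [e3, e4, e1, e2] at hD
      linear_combination -hD
  -- the antidiagonal
  have h1 : ∀ k, k ≤ m → c (b + (m + 1 - k)) (b + (m + 1 + k)) = 0 := by
    intro k
    induction k with
    | zero =>
      intro _
      exact hA.diag (b + (m + 1)) (by omega) (by omega)
    | succ k ih =>
      intro hk
      have hD := hA.D (b + (m - k)) (b + (m + 1 + k)) (by omega) (by omega) (by omega)
      have e0 : c (b + (m - k)) (b + (m + 1 + k)) = 0 := by
        have := h0 (m - k - 1) (m + 1 + k) (by omega) (by omega)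
        have e : m - k - 1 + 1 = m - k := by omega
        rwa [e] at this
      have e1 := ih (by omega)
      have e3 : b + (m + 1 + k) + 1 = b + (m + 1 + (k + 1)) := by ring
      have e4 : b + (m - k) + 1 = b + (m + 1 - k) := by omega
      have e5 : m + 1 - (k + 1) = m - k := by omega
      rw [e3, e4, e0, e1] at hD
      rw [e5]
      linear_combination -hD
  have h2 := h1 m le_rfl
  have e1 : m + 1 - m = 1 := by omega
  have e2 : m + 1 + m = 2 * m + 1 := by ring
  rw [e1, e2] at h2
  have hD := hA.D b (b + (2 * m + 1)) hib (by omega) (by omega)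
  have e3 : b + (2 * m + 1) + 1 = b + (2 * m + 2) := by ring
  rw [e3, h2, hs (2 * m + 1) (by omega) le_rfl] at hD
  linear_combination -hD

theorem tT5 : T5 := by
  intro hT2 hT3 hT4 hT1 p q i b N c hp hNp hA hi hib hzero hnz
  by_contra hcon
  obtain ⟨b', rfl⟩ : ∃ b', b = b' + 1 := ⟨b - 1, by omega⟩
  set R := b' + 1 + q with hR
  have hN : b' + 2 + 14 * R ≤ N := by omega
  have hz := hzero b' (by omega) (by omega)
  have hnz' : ∀ k, b' + 2 ≤ k → b' + 1 + k + q ≤ N → c (b' + 1) k ≠ 0 :=
    fun k h1 h2 => hnz k (by omega) h2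
  obtain ⟨k1, k2, k3⟩ := hT2 hT1 p q i b' N c hp hNp hA hi (by omega) hz hnz' (by omega)
  set a := c (b' + 1) (b' + 2) with ha
  have ha0 : a ≠ 0 := hnz' (b' + 2) le_rfl (by omega)
  have haa : c (b' + 1) (b' + 1 + 1) = a := rfl
  -- constancy
  have hP : ∀ m, 7 ≤ m → m ≤ max 7 R → ∀ t, 1 ≤ t → t ≤ 2 * m → c (b' + 1) (b' + 1 + t) = a := by
    intro m hm
    induction m, hm using Nat.le_induction with
    | base => intro _ t h1 h2; exact k1 t h1 (by omega)
    | succ m hm ih =>
      intro hmR t h1 h2
      have hmR' : m + 1 ≤ R := by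
        rcases le_max_iff.1 hmR with h | h
        · omega
        · exact h
      have ih' := ih (by omega)
      have s1 : c (b' + 1) (b' + 1 + (2 * m + 1)) = a := by
        by_contra hne
        obtain ⟨d, ε, d1, d2, hd⟩ := hT3 hT1 p q i b' N m c hp hNp hA hi (by omega) hz hnz' hm
          (by omega) ih' hne
        exact hne (hT4 p q i (b' + 1) N m d ε c hp hNp hA (by omega) (by omega) d1 (by omega)
          ih' hd)
      have s2 : ∀ t, 1 ≤ t → t ≤ 2 * m + 1 → c (b' + 1) (b' + 1 + t) = c (b' + 1) (b' + 1 + 1) := by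
        intro t h1 h2
        rw [haa]
        by_cases h : t ≤ 2 * m
        · exact ih' t h1 h
        · have : t = 2 * m + 1 := by omega
          rw [this]; exact s1
      have s3 := T5aux_step hA (by omega : i ≤ b' + 1) (m := m) (by omega) s2
      rw [haa] at s3
      by_cases h : t ≤ 2 * m + 1
      · rw [s2 t h1 h, haa]
      · have : t = 2 * m + 2 := by omega
        rw [this]; exact s3
  have hconst : ∀ t, 1 ≤ t → t ≤ R → c (b' + 1) (b' + 1 + t) = a := fun t h1 h2 =>
    hP (max 7 R) (le_max_left _ _) le_rfl t h1 (by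
      have := le_max_right 7 R
      omega)
  -- the sum
  have hsum : ∀ r, r ≤ R → c b' (b' + 2 + r) = -((r : ZMod p) * a) := by
    intro r
    induction r with
    | zero => intro _; simpa using k2
    | succ r ih =>
      intro hr
      have hD := hA.D b' (b' + 2 + r) (by omega) (by omega) (by omega)
      have e1 := ih (by omega)
      have e2 := hconst (1 + r) (by omega) (by omega)
      have e3 : b' + 1 + (1 + r) = b' + 2 + r := by ring
      rw [e3] at e2
      rw [e1, e2] at hD
      have e4 : b' + 2 + r + 1 = b' + 2 + (r + 1) := by ring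
      rw [e4] at hD
      push_cast
      linear_combination -hD
  have hfin := hsum R le_rfl
  rw [k3] at hfin
  have := Fact.mk hp
  have h1 : (R : ZMod p) * a = 0 := by linear_combination hfin
  rcases mul_eq_zero.1 h1 with h | h
  · rw [ZMod.natCast_eq_zero_iff] at h
    have := Nat.le_of_dvd (by omega) h
    omega
  · exact ha0 h

end H436NM
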