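import Pool.Agent.H436R2.NM.Defs

/-! Task U1: an element outside of at most `p` two-step centralizers. -/

set_option autoImplicit false

open H436NM
open scoped commutatorElement

universe u

namespace H436NM

theorem U1_normal {G : Type u} [Group G] (j : ℕ) : (gam G j).Normal := by
  unfold gam
  infer_instance

theorem U1_comm {G : Type u} [Group G] {j : ℕ} (hj : 1 ≤ j) : ⁅gam G j, (⊤ : Subgroup G)⁆ = gam G (j + 1) := by
  unfold gam
  obtain ⟨i, rfl⟩ : ∃ i, j = i + 1 := ⟨j - 1, by omega⟩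
  rfl

theorem U1_anti {G : Type u} [Group G] (j : ℕ) : gam G (j + 1) ≤ gam G j := by
  unfold gam
  exact Subgroup.lowerCentralSeries_antitone _ (by omega)

/-- the two-step centralizer -/
def U1C (G : Type u) [Group G] (j : ℕ) : Subgroup G where
  carrier := {g | ∀ x ∈ gam G j, ⁅x, g⁆ ∈ gam G (j + 2)}
  mul_mem' := by
    intro g h hg hh x hx
    have e : ⁅x, g * h⁆ = ⁅x, g⁆ * (g * ⁅x, h⁆ * g⁻¹) := by
      simp only [commutatorElement_def]
      group
    rw [e]
    exact (gam G (j + 2)).mul_mem (hg x hx) ((U1_normal (j + 2)).conj_mem _ (hh x hx) g)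
  one_mem' := by
    intro x _
    rw [commutatorElement_one_right]
    exact (gam G (j + 2)).one_mem
  inv_mem' := by
    intro g hg x hx
    have e : ⁅x, g⁻¹⁆ = g⁻¹ * ⁅x, g⁆⁻¹ * (g⁻¹)⁻¹ := by
      simp only [commutatorElement_def]
      group
    rw [e]
    exact (U1_normal (j + 2)).conj_mem _ ((gam G (j + 2)).inv_mem (hg x hx)) g⁻¹

theorem U1_memC {G : Type u} [Group G] {j : ℕ} {g : G} :
    g ∈ U1C G j ↔ ∀ x ∈ gam G j, ⁅x, g⁆ ∈ gam G (j + 2) := Iff.rfl

/-- the elements of `γ_j` commuting with `s` modulo `γ_{j+2}` -/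
def U1D (G : Type u) [Group G] (j : ℕ) (s : G) : Subgroup G where
  carrier := {x | x ∈ gam G j ∧ ⁅x, s⁆ ∈ gam G (j + 2)}
  mul_mem' := by
    intro x y hx hy
    refine ⟨(gam G j).mul_mem hx.1 hy.1, ?_⟩
    have e : ⁅x * y, s⁆ = x * ⁅y, s⁆ * x⁻¹ * ⁅x, s⁆ := by
      simp only [commutatorElement_def]
      group
    rw [e]
    exact (gam G (j + 2)).mul_mem ((U1_normal (j + 2)).conj_mem _ hy.2 x) hx.2
  one_mem' := by
    refine ⟨(gam G j).one_mem, ?_⟩
    rw [commutatorElement_one_left]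
    exact (gam G (j + 2)).one_mem
  inv_mem' := by
    intro x hx
    refine ⟨(gam G j).inv_mem hx.1, ?_⟩
    have e : ⁅x⁻¹, s⁆ = x⁻¹ * ⁅x, s⁆⁻¹ * (x⁻¹)⁻¹ := by
      simp only [commutatorElement_def]
      group
    rw [e]
    exact (U1_normal (j + 2)).conj_mem _ ((gam G (j + 2)).inv_mem hx.2) x⁻¹

theorem U1_memD {G : Type u} [Group G] {j : ℕ} {s x : G} :
    x ∈ U1D G j s ↔ x ∈ gam G j ∧ ⁅x, s⁆ ∈ gam G (j + 2) := Iff.rfl

theorem U1_CD {G : Type u} [Group G] {p n : ℕ} (h : MC p n G) {j : ℕ} (hj : 2 ≤ j) (hjn : j + 2 ≤ n)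
    {s x : G} (hx : x ∈ gam G j) (hx' : x ∉ gam G (j + 1)) (hxs : ⁅x, s⁆ ∈ gam G (j + 2)) :
    s ∈ U1C G j := by
  have := h.fin
  have hp := h.pr
  have h1 : gam G (j + 1) ≤ U1D G j s := by
    intro y hy
    refine ⟨U1_anti j hy, ?_⟩
    rw [show j + 2 = (j + 1) + 1 by omega, ← U1_comm (by omega : 1 ≤ j + 1)]
    exact Subgroup.commutator_mem_commutator hy (Subgroup.mem_top _)
  have h2 : U1D G j s ≤ gam G j := fun y hy => hy.1
  have c1 := Subgroup.card_dvd_of_le h1
  have c2 := Subgroup.card_dvd_of_le h2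
  rw [h.card_gam (j + 1) (by omega) (by omega)] at c1
  rw [h.card_gam j (by omega) (by omega)] at c2
  obtain ⟨k, hk, hk'⟩ := (Nat.dvd_prime_pow hp).1 c2
  have h3 : n - (j + 1) ≤ k := by
    rw [hk'] at c1
    exact (Nat.pow_dvd_pow_iff_le_right hp.one_lt).1 c1
  have h4 : k ≠ n - (j + 1) := by
    intro h5
    apply hx'
    have h6 : gam G (j + 1) = U1D G j s := by
      apply Subgroup.eq_of_le_of_card_ge h1
      rw [hk', h5, h.card_gam (j + 1) (by omega) (by omega)]
    rw [h6]
    exact ⟨hx, hxs⟩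
  have h5 : U1D G j s = gam G j := by
    apply Subgroup.eq_of_le_of_card_ge h2
    rw [hk', h.card_gam j (by omega) (by omega)]
    exact Nat.pow_le_pow_right hp.pos (by omega)
  rw [U1_memC]
  intro y hy
  rw [← h5] at hy
  exact hy.2

theorem U1_card {G : Type u} [Group G] {p n : ℕ} (h : MC p n G) {j : ℕ} (hj : 2 ≤ j) (hjn : j + 2 ≤ n) :
    Nat.card (U1C G j) ≤ p ^ (n - 1) := by
  have := h.fin
  have hp := h.pr
  have h1 : U1C G j ≠ ⊤ := by
    intro htop
    have h2 : gam G (j + 1) ≤ gam G (j + 2) := by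
      rw [← U1_comm (by omega : 1 ≤ j), Subgroup.commutator_le]
      intro x hx g _
      have hg : g ∈ U1C G j := by
        rw [htop]
        exact Subgroup.mem_top _
      exact hg x hx
    have h3 := Subgroup.card_dvd_of_le h2
    rw [h.card_gam (j + 1) (by omega) (by omega), h.card_gam (j + 2) (by omega) (by omega),
      Nat.pow_dvd_pow_iff_le_right hp.one_lt] at h3
    omega
  have c1 := Subgroup.card_subgroup_dvd_card (U1C G j)
  rw [h.card] at c1
  obtain ⟨k, hk, hk'⟩ := (Nat.dvd_prime_pow hp).1 c1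
  have h2 : k ≠ n := by
    intro h3
    apply h1
    apply Subgroup.eq_top_of_card_eq
    rw [hk', h3, h.card]
  rw [hk']
  exact Nat.pow_le_pow_right hp.pos (by omega)

theorem tU1 : U1.{u} := by
  intro G _ p n h J hJ hJ2
  have := h.fin
  have : Fintype G := Fintype.ofFinite G
  classical
  have hp := h.pr
  by_cases hall : ∃ s : G, ∀ j ∈ J, s ∉ U1C G j
  · obtain ⟨s, hs⟩ := hall
    refine ⟨s, fun j hj x hx hx' hxs => ?_⟩
    exact hs j hj (U1_CD h (hJ2 j hj).1 (hJ2 j hj).2 hx hx' hxs)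
  · exfalso
    push Not at hall
    have hcov : (Finset.univ : Finset G) ⊆
        insert 1 (J.biUnion fun j => (Finset.univ.filter fun g : G => g ∈ U1C G j).erase 1) := by
      intro g _
      by_cases hg : g = 1
      · rw [hg]
        exact Finset.mem_insert_self _ _
      · obtain ⟨j, hj, hgj⟩ := hall g
        apply Finset.mem_insert_of_mem
        rw [Finset.mem_biUnion]
        exact ⟨j, hj, Finset.mem_erase.2 ⟨hg, Finset.mem_filter.2 ⟨Finset.mem_univ _, hgj⟩⟩⟩
    have h1 := Finset.card_le_card hcov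
    have h2 := Finset.card_insert_le (1 : G)
      (J.biUnion fun j => (Finset.univ.filter fun g : G => g ∈ U1C G j).erase 1)
    have h3 : (J.biUnion fun j => (Finset.univ.filter fun g : G => g ∈ U1C G j).erase 1).card ≤
        J.card * (p ^ (n - 1) - 1) := by
      apply Finset.card_biUnion_le_card_mul
      intro j hj
      have h4 : (1 : G) ∈ Finset.univ.filter fun g : G => g ∈ U1C G j :=
        Finset.mem_filter.2 ⟨Finset.mem_univ _, (U1C G j).one_mem⟩
      rw [Finset.card_erase_of_mem h4]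
      have h5 := U1_card h (hJ2 j hj).1 (hJ2 j hj).2
      have h6 : (Finset.univ.filter fun g : G => g ∈ U1C G j).card = Nat.card (U1C G j) := by
        rw [Nat.card_eq_fintype_card, Fintype.card_subtype]
      rw [h6]
      omega
    have h4 : (Finset.univ : Finset G).card = p ^ n := by
      rw [Finset.card_univ, ← Nat.card_eq_fintype_card, h.card]
    rw [h4] at h1
    have h5 : J.card * (p ^ (n - 1) - 1) ≤ p * (p ^ (n - 1) - 1) := Nat.mul_le_mul_right _ hJ
    have hn := h.two_le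
    have h6 : p ^ n = p * p ^ (n - 1) := by
      rw [← pow_succ']
      congr 1
      omega
    have h7 : 1 ≤ p ^ (n - 1) := Nat.one_le_pow _ _ hp.pos
    have h8 : p * (p ^ (n - 1) - 1) = p * p ^ (n - 1) - p := by
      rw [Nat.mul_sub, mul_one]
    have h9 : p ≤ p * p ^ (n - 1) := Nat.le_mul_of_pos_right _ h7
    have h10 := hp.two_le
    omega

end H436NM
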