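import Pool.Agent.H436R2.NM.Defs

/-! V1: periodicity of the bracket for large `n`. -/

open H436NM

open scoped commutatorElement

universe u

namespace H436NM.TV1

theorem comm_pow {Q : Type u} [Group Q] (X Y : Q) (h : Commute X ⁅X, Y⁆) (r : ℕ) :
    ⁅X ^ r, Y⁆ = ⁅X, Y⁆ ^ r := by
  induction r with
  | zero => simp
  | succ r ih =>
    have e1 : ⁅X ^ (r + 1), Y⁆ = X * ⁅X ^ r, Y⁆ * X⁻¹ * ⁅X, Y⁆ := by
      rw [commutatorElement_def, commutatorElement_def, commutatorElement_def, pow_succ']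
      group
    rw [e1, ih, (h.pow_right r).eq, mul_inv_cancel_right, ← pow_succ]

theorem comm_pow_mem {G : Type u} [Group G] (K : Subgroup G) (hK : K.Normal) (x y : G) (r : ℕ)
    (h1 : ⁅⁅x, y⁆, x⁆ ∈ K) (h2 : ⁅x, y⁆ ^ r ∈ K) : ⁅x ^ r, y⁆ ∈ K := by
  rw [← QuotientGroup.eq_one_iff] at h1 h2 ⊢
  have h3 : Commute ((x : G) : G ⧸ K) ⁅((x : G) : G ⧸ K), ((y : G) : G ⧸ K)⁆ := by
    have h4 : ⁅⁅((x : G) : G ⧸ K), ((y : G) : G ⧸ K)⁆, ((x : G) : G ⧸ K)⁆ = 1 := h1
    exact (commutatorElement_eq_one_iff_commute.1 h4).symm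
  have h5 := comm_pow _ _ h3 r
  have h6 : ⁅((x : G) : G ⧸ K), ((y : G) : G ⧸ K)⁆ ^ r = 1 := h2
  rw [h6] at h5
  exact h5

end H436NM.TV1

open H436NM.TV1 in
theorem H436NM.tV1 : H436NM.V1.{u} := by
  intro hP4 hPs hF2 hEs hF3 G _ p n s lc hMC hNMC hn hU hGD
  obtain ⟨hP1, hP2, hP3, hG2, hG3, hG5⟩ := hPs
  obtain ⟨hE1, hE2, hE3, hE4, hF0, hF1⟩ := hEs
  have hp : p.Prime := hMC.pr
  have hp2 : 2 ≤ p := hp.two_le
  have : Fact p.Prime := ⟨hp⟩
  have hanti : Antitone (gam G) := antitone_nat_of_succ_le hGD.anti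
  by_cases h0 : ⁅gam G (p + 1), gam G (p + 1)⁆ ≤ gam G n
  · exact h0.trans (hanti (by omega))
  obtain ⟨q, b, c, hDeg, hBil, hArr, hib, hb, hcb, hmin⟩ :=
    hF2 hE1 hE2 hE3 hE4 hF0 hF1 G 2 p n (p + 1) (gam G) s lc hp hGD (by omega) (by omega)
      (by omega) h0
  have hpow := hP4 hP1 hP2 hP3 hG2 hG3 hG5 G p n n s hMC (by omega) le_rfl hU
  -- leading coefficient of a `p`-th power
  have hlcp : ∀ j, p + 1 ≤ j → j + p ≤ n → ∀ x ∈ gam G j, lc j x = 1 →
      x ^ p ∈ gam G (j + p - 1) ∧ lc (j + p - 1) (x ^ p) ≠ 0 := by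
    intro j hj hjn x hx hx1
    obtain ⟨h1, h2⟩ := hpow j (by omega) (by omega) x hx
    have h3 : x ^ p ∈ gam G (j + p - 1) := h1 _ le_rfl (by omega)
    refine ⟨h3, fun h4 => ?_⟩
    have h5 := (hGD.lc_ker (j + p - 1) (by omega) (by omega) _ h3).1 h4
    have h6 : j + p - 1 + 1 = j + p := by omega
    rw [h6] at h5
    refine h2 hjn ?_ h5
    intro h7
    have h8 := (hGD.lc_ker j (by omega) (by omega) x hx).2 h7
    rw [hx1] at h8
    exact one_ne_zero h8
  -- (1)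
  have hper : ∀ j l, p + 1 ≤ j → p + 1 ≤ l → (j + p - 1) + l + q < n → c (j + p - 1) l ≠ 0 →
      c j l ≠ 0 := by
    intro j l hj hl hlt hne h0
    obtain ⟨x, hx, hx1⟩ := hGD.lc_surj j (by omega) (by omega)
    obtain ⟨y, hy, hy1⟩ := hGD.lc_surj l (by omega) (by omega)
    obtain ⟨hxp, hxp1⟩ := hlcp j hj (by omega) x hx hx1
    have hz : ⁅x, y⁆ ∈ gam G (j + l + q) :=
      hDeg j l hj hl (by omega) (Subgroup.commutator_mem_commutator hx hy)
    have hzlc : lc (j + l + q) ⁅x, y⁆ = 0 := by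
      rw [hBil j l hj hl (by omega) x hx y hy, h0]
      ring
    have hz1 : ⁅x, y⁆ ∈ gam G (j + l + q + 1) :=
      (hGD.lc_ker (j + l + q) (by omega) (by omega) _ hz).1 hzlc
    have hzx : ⁅⁅x, y⁆, x⁆ ∈ gam G (j + l + q + p) := by
      have h1 := hGD.comm (j + l + q + 1) j (by omega) (by omega)
        (Subgroup.commutator_mem_commutator hz1 hx)
      exact hanti (by omega) h1
    have hzp : ⁅x, y⁆ ^ p ∈ gam G (j + l + q + p) := by
      obtain ⟨h1, -⟩ := hpow (j + l + q + 1) (by omega) (by omega) _ hz1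
      exact h1 _ (by omega) (by omega)
    have h2 := comm_pow_mem _ (hGD.nor (j + l + q + p)) x y p hzx hzp
    have h3 : lc (j + p - 1 + l + q) ⁅x ^ p, y⁆ = c (j + p - 1) l * lc (j + p - 1) (x ^ p) * 1 := by
      rw [hBil (j + p - 1) l (by omega) hl hlt _ hxp y hy, hy1]
    have h4 : j + p - 1 + l + q + 1 = j + l + q + p := by omega
    have h5 : ⁅x ^ p, y⁆ ∈ gam G (j + p - 1 + l + q) := hanti (by omega) h2
    have h6 := (hGD.lc_ker (j + p - 1 + l + q) (by omega) hlt _ h5).2 (by rw [h4]; exact h2)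
    rw [h6] at h3
    exact mul_ne_zero (mul_ne_zero hne hxp1) one_ne_zero h3.symm
  -- (2)
  have hb2 : b ≤ 2 * p - 1 := by
    by_contra hcon
    push Not at hcon
    obtain ⟨j, hj⟩ : ∃ j, b = j + p - 1 := ⟨b - p + 1, by omega⟩
    have hj1 : p + 1 ≤ j := by omega
    have h1 : c j (b + 1) ≠ 0 := by
      refine hper j (b + 1) hj1 (by omega) (by omega) ?_
      rw [← hj]
      exact hcb
    have h2 : c (b + 1) j ≠ 0 := by
      intro h3
      rw [hArr.skew j (b + 1) hj1 (by omega) (by omega), h3, neg_zero] at h1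
      exact h1 rfl
    have h3 : c (j + 1) j ≠ 0 := by
      refine hper (j + 1) j (by omega) hj1 (by omega) ?_
      have h4 : j + 1 + p - 1 = b + 1 := by omega
      rw [h4]
      exact h2
    have h4 : c j (j + 1) ≠ 0 := by
      intro h5
      rw [hArr.skew (j + 1) j (by omega) hj1 (by omega), h5, neg_zero] at h3
      exact h3 rfl
    exact h4 (hmin j hj1 (by omega))
  -- (3)
  have hb3 : n ≤ 2 * b + p - 1 + q := by
    by_contra hcon
    push Not at hcon
    have h1 := hF3 G p n n (p + 1) q b s lc c hMC hNMC le_rfl hGD (by omega) hDeg hBil hib hb hcb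
      (b + p - 1) (by omega) (by omega)
    obtain ⟨x, hx, hx1⟩ := hGD.lc_surj b (by omega) (by omega)
    obtain ⟨hxp, hxp1⟩ := hlcp b hib (by omega) x hx hx1
    have h2 := hBil b (b + p - 1) hib (by omega) (by omega) x hx (x ^ p) hxp
    have h3 : ⁅x, x ^ p⁆ = 1 :=
      commutatorElement_eq_one_iff_commute.2 (Commute.self_pow x p)
    rw [h3, hx1] at h2
    have h4 : lc (b + (b + p - 1) + q) (1 : G) = 0 :=
      (hGD.lc_ker (b + (b + p - 1) + q) (by omega) (by omega) 1 (one_mem _)).2 (one_mem _)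
    rw [h4] at h2
    exact mul_ne_zero (mul_ne_zero h1 one_ne_zero) hxp1 h2.symm
  -- (4)
  have h1 := hF0 G 2 p n (p + 1) (gam G) s lc hp hGD (by omega) (by omega)
  have h2 := hDeg (p + 1) (p + 1 + 1) le_rfl (by omega) (by omega)
  exact (h1.trans h2).trans (hanti (by omega))
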