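import Pool.Agent.H436R2.NM.Defs

/-! V2: derived length of the part beyond level `p` (helper118). -/

open H436NM
open scoped commutatorElement

universe u

namespace H436NM

theorem V2_anti (G : Type u) [Group G] {i j : ℕ} (h : i ≤ j) : gam G j ≤ gam G i :=
  Subgroup.lowerCentralSeries_antitone (⊤ : Subgroup G) (Nat.sub_le_sub_right h 1)

theorem V2_step (h2 : G2.{u}) (G : Type u) [Group G] (k i j : ℕ) (hi : 1 ≤ i) (hj : j ≤ 2 * i)
    (h : derivedSeries G k ≤ gam G i) : derivedSeries G (k + 1) ≤ gam G j := by
  rw [derivedSeries_succ]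
  refine (Subgroup.commutator_mono h h).trans ((h2 G i i hi hi).trans (V2_anti G ?_))
  omega

theorem tV2 : V2.{u} := by
  intro h2 h3 hV G _ p n t hMC hN hd
  have hp2 := hMC.pr.two_le
  have hbot : gam G n = ⊥ := (h3 G p n hMC).1
  have hz : ∀ k j, n ≤ j → derivedSeries G k ≤ gam G j → derivedSeries G k = ⊥ := by
    intro k j hj hk
    rw [eq_bot_iff, ← hbot]
    exact hk.trans (V2_anti G hj)
  rcases le_or_gt n p with hnp | hnp
  · rw [Nat.min_eq_left hnp] at hd
    have h0 := hz t n le_rfl hd
    rw [eq_bot_iff, ← h0]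
    exact derivedSeries_antitone G (by omega)
  · rw [Nat.min_eq_right hnp.le] at hd
    rcases lt_or_ge n (6 * p) with h6 | h6
    · have d1 := V2_step h2 G t p (2 * p) (by omega) le_rfl hd
      have d2 := V2_step h2 G (t + 1) (2 * p) (4 * p) (by omega) (by omega) d1
      have d3 := V2_step h2 G (t + 2) (4 * p) (8 * p) (by omega) (by omega) d2
      have d4 := V2_step h2 G (t + 3) (8 * p) (8 * p) (by omega) (by omega) d3
      exact hz (t + 4) (8 * p) (by omega) d4
    · have d1 := V2_step h2 G t p (p + 1) (by omega) (by omega) hd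
      have d2 : derivedSeries G (t + 2) ≤ gam G (n + 6 - 3 * p) := by
        rw [show t + 2 = (t + 1) + 1 from rfl, derivedSeries_succ]
        exact (Subgroup.commutator_mono d1 d1).trans (hV G p n hMC hN h6)
      have d3 := V2_step h2 G (t + 2) (n + 6 - 3 * p) n (by omega) (by omega) d2
      have d4 := V2_step h2 G (t + 3) n n (by omega) (by omega) d3
      exact hz (t + 4) n le_rfl d4

end H436NM
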