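import Pool.Agent.H436R2.NM.Defs

/-! Task X1: windows. -/

namespace H436NM

open scoped commutatorElement

universe u

theorem tX1 : H436NM.X1.{u} := by
  intro hF2 hE hF3 hF4 hG4 hA1 hT5 hT G _ p n m i v s lc hMC hNMC hmn hmp hGD hi hvm h1 h2 k hvk hkm
  obtain ⟨hE1, hE2, hE3, hE4, hF0, hF1⟩ := hE
  obtain ⟨hT1, hT2, hT3, hT4⟩ := hT
  have hanti : Antitone (gam G) := antitone_nat_of_succ_le hGD.anti
  have hsub : ⁅gam G (i + 1), gam G (i + 1)⁆ ≤ ⁅gam G i, gam G i⁆ :=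
    Subgroup.commutator_mono (hanti (Nat.le_succ i)) (hanti (Nat.le_succ i))
  have hnot : ¬ ⁅gam G i, gam G i⁆ ≤ gam G (v + 1) := fun h => h2 (hsub.trans h)
  have hnotk : ¬ ⁅gam G i, gam G i⁆ ≤ gam G k := fun h => hnot (h.trans (hanti (by omega)))
  have hik : i < k := by
    by_contra hcon
    exact hnotk ((hGD.comm i i (by omega) (by omega)).trans (hanti (by omega)))
  have hGDk : GD 2 p k (gam G) s lc :=
    { nor := hGD.nor
      anti := hGD.anti
      comm := hGD.comm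
      act := fun j hj hjk => hGD.act j hj (by omega)
      lc_mul := fun j hj hjk => hGD.lc_mul j hj (by omega)
      lc_ker := fun j hj hjk => hGD.lc_ker j hj (by omega)
      lc_s := fun j hj hjk => hGD.lc_s j hj (by omega)
      lc_surj := fun j hj hjk => hGD.lc_surj j hj (by omega) }
  obtain ⟨q, b, c, hDeg, hBil, hArr, hib, hbk, hcb, hc0⟩ :=
    hF2 hE1 hE2 hE3 hE4 hF0 hF1 G 2 p k i (gam G) s lc hMC.pr hGDk (by omega) hi hik hnotk
  -- `b ≠ i`
  have hbi : b ≠ i := by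
    rintro rfl
    have h3 : ⁅gam G (b + 1), gam G (b + 1)⁆ ≤ gam G (b + 1 + (b + 1) + q) :=
      hDeg (b + 1) (b + 1) (by omega) (by omega) (by omega)
    have h4 : 2 * b + 2 + q ≤ v := by
      by_contra hcon
      exact h2 (h3.trans (hanti (by omega)))
    obtain ⟨x, hx, hx1⟩ := hGDk.lc_surj b hi hik
    obtain ⟨y, hy, hy1⟩ := hGDk.lc_surj (b + 1) (by omega) (by omega)
    have h5 := hBil b (b + 1) le_rfl (by omega) (by omega) x hx y hy
    rw [hx1, hy1, mul_one, mul_one] at h5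
    have h6 : ⁅x, y⁆ ∈ gam G v := h1 (Subgroup.commutator_mem_commutator hx (hanti (Nat.le_succ b) hy))
    have h7 : ⁅x, y⁆ ∈ gam G (b + (b + 1) + q) := hanti (by omega) h6
    have h8 : ⁅x, y⁆ ∈ gam G (b + (b + 1) + q + 1) := hanti (by omega) h6
    have h9 := (hGDk.lc_ker (b + (b + 1) + q) (by omega) (by omega) _ h7).mpr h8
    exact hcb (h5 ▸ h9)
  have hib' : i < b := lt_of_le_of_ne hib (Ne.symm hbi)
  -- `2 i + 1 + q ≤ v`
  have hqv : 2 * i + 1 + q ≤ v := by
    by_contra hcon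
    have h3 : ⁅gam G i, gam G i⁆ ≤ ⁅gam G i, gam G (i + 1)⁆ :=
      hF0 G 2 p k i (gam G) s lc hMC.pr hGDk hi hik
    have h4 : ⁅gam G i, gam G (i + 1)⁆ ≤ gam G (i + (i + 1) + q) :=
      hDeg i (i + 1) le_rfl (by omega) (by omega)
    exact hnot ((h3.trans h4).trans (hanti (by omega)))
  have hF3' := hF3 G p n k i q b s lc c hMC hNMC (by omega) hGDk hi hDeg hBil hib hbk hcb
  have hF4' := hF4 hG4 hF0 G p n k i q b s lc c hMC (by omega) hGDk hi hDeg hBil hib hbk hcb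
  have hN : k - 1 < p := by omega
  have hne : ∀ t, b + 1 ≤ t → b + t + q ≤ k - 1 → c b t ≠ 0 := fun t ht htk =>
    hF3' t ht (by omega)
  by_cases hcase : q + 2 * i ≤ b
  · right
    have h3 := hA1 p q i b (k - 1) c hMC.pr hN hF1 hArr (by omega) hib' hc0 hne hcase
    exact ⟨2 * b + 1 + q, b, hbk, by omega, by omega, by omega, hF4'⟩
  · left
    have h3 := hT5 hT2 hT3 hT4 hT1 p q i b (k - 1) c hMC.pr hN hArr (by omega) hib' hc0 hne
    omega

end H436NM
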