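import Pool.Agent.H436R2.NM.Defs

set_option autoImplicit false

open H436NM
open scoped commutatorElement

universe u

namespace H436NM

theorem X2_anti {G : Type u} [Group G] {i j : ℕ} (h : i ≤ j) : gam G j ≤ gam G i :=
  Subgroup.lowerCentralSeries_antitone _ (by omega)

theorem tX2 : X2.{u} := by
  intro hG3 G _ p n m i v hMC hmn hi hvm hk
  obtain ⟨hbot, hne, -, hinj, -⟩ := hG3 G p n hMC
  by_contra hcon
  push Not at hcon
  -- `S` is finite
  have hfin : (derSet G n).Finite := by
    have hG := hMC.fin
    exact Set.toFinite _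
  obtain ⟨S, hS⟩ : ∃ S, S = (derSet G n).ncard := ⟨_, rfl⟩
  rw [← hS] at hcon
  rcases Nat.eq_zero_or_pos v with hv | hv
  · -- `v = 0`
    subst hv
    have h1 : 1 ≤ m := by omega
    rcases hk 1 (by omega) h1 with h | ⟨d, b, h2, h3, _⟩
    · omega
    · omega
  · -- the levels `d_t`
    have hd : ∀ t : Fin (S + 1), ∃ d b, d < m - 2 * v * t ∧ m - 2 * v * t ≤ d + 2 * v ∧
        2 ≤ b ∧ 2 ≤ d ∧ ⁅gam G b, gam G b⁆ = gam G d := by
      intro t
      have ht : (t : ℕ) ≤ S := Nat.le_of_lt_succ t.2
      have h1 : 2 * v * t ≤ 2 * v * S := Nat.mul_le_mul_left _ ht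
      have h2 : (29 + 2 * S) * (v + 1) = 29 * v + 2 * v * S + 29 + 2 * S := by ring
      rcases hk (m - 2 * v * t) (by omega) (by omega) with h | h
      · omega
      · exact h
    choose d b hd1 hd2 hb hd3 hdb using hd
    have hdm : ∀ t, d t < m := fun t => lt_of_lt_of_le (hd1 t) (Nat.sub_le _ _)
    -- they belong to `derSet`
    have hmem : ∀ t, gam G (d t) ∈ derSet G n := by
      intro t
      refine ⟨b t, by have := hb t; omega, ?_, (hdb t).symm⟩
      by_contra hbn
      push Not at hbn
      have h1 : gam G (b t) ≤ gam G n := X2_anti hbn.le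
      rw [hbot, le_bot_iff] at h1
      have h2 := hdb t
      rw [h1, Subgroup.commutator_bot_left] at h2
      have h3 := hd3 t
      have h4 := hdm t
      exact hne (d t) (by omega) (by omega) (by rw [← h2]; exact bot_le)
    -- they are different
    have hinj' : Function.Injective (fun t => gam G (d t)) := by
      intro t t' htt
      have h1 := hinj (d t) (d t') (by have := hd3 t; omega) (by have := hd3 t'; omega)
        (by have := hdm t; omega) (by have := hdm t'; omega) htt
      have key : ∀ a c : Fin (S + 1), d a = d c → ¬ (a : ℕ) < c := by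
        intro a c hac hlt
        have e1 := hd1 c
        have e2 := hd2 a
        have hc : (c : ℕ) ≤ S := Nat.le_of_lt_succ c.2
        have e3 : 2 * v * ((a : ℕ) + 1) ≤ 2 * v * c := Nat.mul_le_mul_left _ hlt
        have e4 : 2 * v * ((a : ℕ) + 1) = 2 * v * a + 2 * v := by ring
        omega
      apply Fin.ext
      rcases lt_trichotomy (t : ℕ) (t' : ℕ) with h | h | h
      · exact absurd h (key t t' h1)
      · exact h
      · exact absurd h (key t' t h1.symm)
    have h1 : (Set.range (fun t => gam G (d t))).ncard = S + 1 := by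
      rw [← Set.image_univ, Set.ncard_image_of_injective _ hinj', Set.ncard_univ, Nat.card_fin]
    have h2 : Set.range (fun t => gam G (d t)) ⊆ derSet G n := by
      rintro _ ⟨t, rfl⟩
      exact hmem t
    have h3 := Set.ncard_le_ncard h2 hfin
    omega

end H436NM
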