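import Pool.Agent.H436R2.NM.Defs

open H436NM

open scoped commutatorElement

universe u

namespace H436NM.X3aux

theorem gam_anti (G : Type u) [Group G] {i j : ℕ} (h : i ≤ j) : gam G j ≤ gam G i := by
  unfold gam
  have h' : i - 1 ≤ j - 1 := by omega
  exact Subgroup.lowerCentralSeries_antitone _ h'

theorem ser {G : Type u} [Group G] (hG2 : G2.{u}) (s v : ℕ) (hv : 1 ≤ v)
    (h : derivedSeries G s ≤ gam G v) : ∀ u', derivedSeries G (s + u') ≤ gam G (2 ^ u' * v) := by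
  intro u'
  induction u' with
  | zero => simpa using h
  | succ u' ih =>
    have h1 : 1 ≤ 2 ^ u' * v := Nat.mul_pos (by positivity) hv
    have h2 := hG2 G (2 ^ u' * v) (2 ^ u' * v) h1 h1
    have e : 2 ^ u' * v + 2 ^ u' * v = 2 ^ (u' + 1) * v := by ring
    rw [e] at h2
    refine le_trans ?_ h2
    exact Subgroup.commutator_mono ih ih

end H436NM.X3aux

open H436NM.X3aux in
theorem H436NM.tX3 : H436NM.X3.{u} := by
  classical
  intro hG2 hG3 G _ p n m hMC hm2 hmn hyp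
  obtain ⟨hbot, -⟩ := hG3 G p n hMC
  have hn2 := hMC.two_le
  have hex : ∃ i, 2 ≤ i ∧ (⁅gam G i, gam G i⁆ ≤ gam G m ∨ ∃ v, v < m ∧ ⁅gam G i, gam G i⁆ ≤ gam G v ∧
      ¬ ⁅gam G (i + 1), gam G (i + 1)⁆ ≤ gam G (v + 1)) := by
    refine ⟨n, hn2, Or.inl ?_⟩
    rw [hbot]
    simp
  obtain ⟨j, hj, hmin⟩ : ∃ j, (2 ≤ j ∧ (⁅gam G j, gam G j⁆ ≤ gam G m ∨ ∃ v, v < m ∧
      ⁅gam G j, gam G j⁆ ≤ gam G v ∧ ¬ ⁅gam G (j + 1), gam G (j + 1)⁆ ≤ gam G (v + 1))) ∧
      ∀ i, i < j → ¬ (2 ≤ i ∧ (⁅gam G i, gam G i⁆ ≤ gam G m ∨ ∃ v, v < m ∧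
        ⁅gam G i, gam G i⁆ ≤ gam G v ∧ ¬ ⁅gam G (i + 1), gam G (i + 1)⁆ ≤ gam G (v + 1))) :=
    ⟨Nat.find hex, Nat.find_spec hex, fun i hi => Nat.find_min hex hi⟩
  obtain ⟨hj2, hj⟩ := hj
  have hjn : j ≤ n := by
    by_contra hlt
    push Not at hlt
    apply hmin n hlt
    refine ⟨hn2, Or.inl ?_⟩
    rw [hbot]
    simp
  -- strict decrease
  have hstr : ∀ i, 2 ≤ i → i < j → ⁅gam G (i + 1), gam G (i + 1)⁆ ≠ ⁅gam G i, gam G i⁆ := by
    intro i hi2 hij heq
    have h := hmin i hij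
    have hA : ∀ v, v ≤ m → ⁅gam G i, gam G i⁆ ≤ gam G v := by
      intro v
      induction v with
      | zero =>
        intro _
        have : gam G 0 = ⊤ := by simp [gam]
        rw [this]
        exact le_top
      | succ v ih =>
        intro hv
        by_contra hno
        rw [← heq] at hno
        exact h ⟨hi2, Or.inr ⟨v, by omega, ih (by omega), hno⟩⟩
    exact h ⟨hi2, Or.inl (hA m le_rfl)⟩
  have hmono : ∀ i i', i ≤ i' → ⁅gam G i', gam G i'⁆ ≤ ⁅gam G i, gam G i⁆ := fun i i' h =>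
    Subgroup.commutator_mono (gam_anti G h) (gam_anti G h)
  have hlt : ∀ i i', 2 ≤ i → i < i' → i' ≤ j → ⁅gam G i', gam G i'⁆ ≠ ⁅gam G i, gam G i⁆ := by
    intro i i' hi hii hi' heq
    apply hstr i hi (by omega)
    apply le_antisymm (hmono i (i + 1) (by omega))
    rw [← heq]
    exact hmono (i + 1) i' hii
  have hfin : (derSet G n).Finite := by
    have : derSet G n ⊆ (fun i => ⁅gam G i, gam G i⁆) '' (Set.Icc 1 n) := by
      rintro H ⟨i, h1, h2, rfl⟩
      exact ⟨i, ⟨h1, h2⟩, rfl⟩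
    exact ((Set.finite_Icc 1 n).image _).subset this
  have hcard : j ≤ (derSet G n).ncard + 1 := by
    have hinj : Set.InjOn (fun i => ⁅gam G i, gam G i⁆) (Set.Icc 2 j) := by
      intro i hi i' hi' heq
      simp only at heq
      by_contra hne
      rcases lt_or_gt_of_ne hne with h | h
      · exact hlt i i' hi.1 h hi'.2 heq.symm
      · exact hlt i' i hi'.1 h hi.2 heq
    have h1 : ((fun i => ⁅gam G i, gam G i⁆) '' (Set.Icc 2 j)).ncard = (Set.Icc 2 j).ncard :=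
      Set.ncard_image_of_injOn hinj
    have h2 : (Set.Icc 2 j).ncard = j + 1 - 2 := by
      rw [← Finset.coe_Icc, Set.ncard_coe_finset, Nat.card_Icc]
    have h3 : (fun i => ⁅gam G i, gam G i⁆) '' (Set.Icc 2 j) ⊆ derSet G n := by
      rintro H ⟨i, hi, rfl⟩
      exact ⟨i, by have := hi.1; omega, le_trans hi.2 hjn, rfl⟩
    have h4 := Set.ncard_le_ncard h3 hfin
    omega
  obtain ⟨S, hS⟩ : ∃ S, S = (derSet G n).ncard := ⟨_, rfl⟩
  rw [← hS] at hcard hyp ⊢
  have hl1 : Nat.log 2 j ≤ Nat.log 2 (S + 2) := Nat.log_mono_right (by omega)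
  have htop : derivedSeries G 0 ≤ gam G 1 := by
    have : gam G 1 = ⊤ := by simp [gam]
    rw [this]
    exact le_top
  have ht1 : derivedSeries G (Nat.log 2 j + 1) ≤ gam G j := by
    have h := ser hG2 0 1 le_rfl htop (Nat.log 2 j + 1)
    rw [zero_add, mul_one] at h
    exact le_trans h (gam_anti G (Nat.lt_pow_succ_log_self (by norm_num) j).le)
  have ht2 : derivedSeries G (Nat.log 2 j + 1 + 1) ≤ ⁅gam G j, gam G j⁆ :=
    Subgroup.commutator_mono ht1 ht1
  rcases hj with hj | ⟨v, hvm, hv1, hv2⟩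
  · exact ⟨Nat.log 2 j + 1 + 1, le_trans ht2 hj, by omega⟩
  · have hm' := hyp j v hj2 hvm hv1 hv2
    have hv : 2 * j ≤ v := by
      by_contra hno
      push Not at hno
      apply hv2
      refine le_trans (hmono j (j + 1) (by omega)) ?_
      refine le_trans (hG2 G j j (by omega) (by omega)) ?_
      exact gam_anti G (by omega)
    have ht3 := ser hG2 (Nat.log 2 j + 1 + 1) v (by omega) (le_trans ht2 hv1)
      (Nat.log 2 (29 + 2 * S) + 2)
    refine ⟨_, le_trans ht3 (gam_anti G ?_), by omega⟩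
    have h29 : 29 + 2 * S < 2 ^ (Nat.log 2 (29 + 2 * S) + 1) :=
      Nat.lt_pow_succ_log_self (by norm_num) _
    calc m ≤ (29 + 2 * S) * (v + 1) := hm'
      _ ≤ (29 + 2 * S) * (2 * v) := Nat.mul_le_mul_left _ (by omega)
      _ = (29 + 2 * S) * 2 * v := by ring
      _ ≤ 2 ^ (Nat.log 2 (29 + 2 * S) + 1) * 2 * v :=
        Nat.mul_le_mul_right _ (Nat.mul_le_mul_right _ h29.le)
      _ = 2 ^ (Nat.log 2 (29 + 2 * S) + 2) * v := by ring
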